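import Mathlib

/-!
Helper file for MP_72bf7f_co: minimal covers of a Boolean matrix by rectangles.
A Boolean matrix is a function `A : α → Finset β` (the row supports).
-/

open Finset

set_option linter.unusedSectionVars false

namespace Pool.Agent.H38.Schein

variable {α β : Type*} [Fintype α] [Fintype β] [DecidableEq α] [DecidableEq β]

/-- `A` is the union of the rectangles `X t × Y t`. -/
def IsCover {r : ℕ} (A : α → Finset β) (X : Fin r → Finset α) (Y : Fin r → Finset β) : Prop :=
  ∀ i j, j ∈ A i ↔ ∃ t, i ∈ X t ∧ j ∈ Y t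

/-- every element of the row side of a rectangle has a private cell. -/
def RowPriv {r : ℕ} (X : Fin r → Finset α) (Y : Fin r → Finset β) : Prop :=
  ∀ t, ∀ i ∈ X t, ∃ j ∈ Y t, ∀ t', t' ≠ t → ¬ (i ∈ X t' ∧ j ∈ Y t')

/-- every element of the column side of a rectangle has a private cell. -/
def ColPriv {r : ℕ} (X : Fin r → Finset α) (Y : Fin r → Finset β) : Prop :=
  ∀ t, ∀ j ∈ Y t, ∃ i ∈ X t, ∀ t', t' ≠ t → ¬ (i ∈ X t' ∧ j ∈ Y t')

/-- the transpose. -/
def tr (A : α → Finset β) : β → Finset α := fun j => univ.filter (fun i => j ∈ A i)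


@[simp] lemma mem_tr (A : α → Finset β) (i : α) (j : β) : i ∈ tr A j ↔ j ∈ A i := by
  simp [tr]

lemma tr_tr (A : α → Finset β) : tr (tr A) = A := by
  funext i; ext j; simp


lemma IsCover.tr {r : ℕ} {A : α → Finset β} {X : Fin r → Finset α} {Y : Fin r → Finset β}
    (h : IsCover A X Y) : IsCover (tr A) Y X := by
  intro j i
  rw [mem_tr, h i j]
  exact ⟨fun ⟨t, a, b⟩ => ⟨t, b, a⟩, fun ⟨t, a, b⟩ => ⟨t, b, a⟩⟩


lemma RowPriv.tr {r : ℕ} {X : Fin r → Finset α} {Y : Fin r → Finset β}
    (h : RowPriv X Y) : ColPriv Y X := by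
  intro t j hj
  obtain ⟨i, hi, h'⟩ := h t j hj
  exact ⟨i, hi, fun t' ht' ⟨a, b⟩ => h' t' ht' ⟨b, a⟩⟩


lemma ColPriv.tr {r : ℕ} {X : Fin r → Finset α} {Y : Fin r → Finset β}
    (h : ColPriv X Y) : RowPriv Y X := by
  intro t j hj
  obtain ⟨i, hi, h'⟩ := h t j hj
  exact ⟨i, hi, fun t' ht' ⟨a, b⟩ => h' t' ht' ⟨b, a⟩⟩

lemma exists_minimal_cover {r : ℕ} (A : α → Finset β)
    (h : ∃ (X : Fin r → Finset α) (Y : Fin r → Finset β), IsCover A X Y) :
    ∃ (X : Fin r → Finset α) (Y : Fin r → Finset β), IsCover A X Y ∧ RowPriv X Y ∧ ColPriv X Y := by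
  classical
  obtain ⟨X₀, Y₀, h₀⟩ := h
  obtain ⟨⟨X, Y⟩, hXY, hmin⟩ := Finset.exists_min_image
    ((univ : Finset ((Fin r → Finset α) × (Fin r → Finset β))).filter
      (fun p => IsCover A p.1 p.2))
    (fun p => ∑ t, (#(p.1 t) + #(p.2 t))) ⟨(X₀, Y₀), by simp [h₀]⟩
  have hc : IsCover A X Y := by simpa using hXY
  refine ⟨X, Y, hc, ?_, ?_⟩
  · intro t i hi
    by_contra hcon
    push Not at hcon
    have hc' : IsCover A (Function.update X t ((X t).erase i)) Y := by
      intro i' j
      rw [hc i' j]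
      constructor
      · rintro ⟨t', h1, h2⟩
        by_cases htt : t' = t
        · subst htt
          by_cases hii : i' = i
          · subst hii
            obtain ⟨t'', hne, h3, h4⟩ := hcon j h2
            exact ⟨t'', by rw [Function.update_of_ne hne]; exact h3, h4⟩
          · exact ⟨t', by rw [Function.update_self]; exact mem_erase.2 ⟨hii, h1⟩, h2⟩
        · exact ⟨t', by rw [Function.update_of_ne htt]; exact h1, h2⟩
      · rintro ⟨t', h1, h2⟩
        by_cases htt : t' = t
        · subst htt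
          rw [Function.update_self] at h1
          exact ⟨t', (mem_erase.1 h1).2, h2⟩
        · rw [Function.update_of_ne htt] at h1
          exact ⟨t', h1, h2⟩
    have hle := hmin (Function.update X t ((X t).erase i), Y) (by simpa using hc')
    have hlt : ∑ t', (#(Function.update X t ((X t).erase i) t') + #(Y t'))
        < ∑ t', (#(X t') + #(Y t')) := by
      apply Finset.sum_lt_sum
      · intro t' _
        by_cases htt : t' = t
        · subst htt
          rw [Function.update_self]
          have := card_erase_le (s := X t') (a := i)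
          omega
        · rw [Function.update_of_ne htt]
      · refine ⟨t, mem_univ _, ?_⟩
        rw [Function.update_self]
        have := card_erase_lt_of_mem hi
        omega
    exact absurd hle (not_le.2 hlt)
  · intro t j hj
    by_contra hcon
    push Not at hcon
    have hc' : IsCover A X (Function.update Y t ((Y t).erase j)) := by
      intro i j'
      rw [hc i j']
      constructor
      · rintro ⟨t', h1, h2⟩
        by_cases htt : t' = t
        · subst htt
          by_cases hjj : j' = j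
          · subst hjj
            obtain ⟨t'', hne, h3, h4⟩ := hcon i h1
            exact ⟨t'', h3, by rw [Function.update_of_ne hne]; exact h4⟩
          · exact ⟨t', h1, by rw [Function.update_self]; exact mem_erase.2 ⟨hjj, h2⟩⟩
        · exact ⟨t', h1, by rw [Function.update_of_ne htt]; exact h2⟩
      · rintro ⟨t', h1, h2⟩
        by_cases htt : t' = t
        · subst htt
          rw [Function.update_self] at h2
          exact ⟨t', h1, (mem_erase.1 h2).2⟩
        · rw [Function.update_of_ne htt] at h2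
          exact ⟨t', h1, h2⟩
    have hle := hmin (X, Function.update Y t ((Y t).erase j)) (by simpa using hc')
    have hlt : ∑ t', (#(X t') + #(Function.update Y t ((Y t).erase j) t'))
        < ∑ t', (#(X t') + #(Y t')) := by
      apply Finset.sum_lt_sum
      · intro t' _
        by_cases htt : t' = t
        · subst htt
          rw [Function.update_self]
          have := card_erase_le (s := Y t') (a := j)
          omega
        · rw [Function.update_of_ne htt]
      · refine ⟨t, mem_univ _, ?_⟩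
        rw [Function.update_self]
        have := card_erase_lt_of_mem hj
        omega
    exact absurd hle (not_le.2 hlt)

/-- the union of the rectangles `X t × Y t`, `t ∈ T`. -/
def uniOn {ι : Type*} (T : Finset ι) (X : ι → Finset α) (Y : ι → Finset β) : α → Finset β :=
  fun i => (T.filter (fun t => i ∈ X t)).biUnion Y


@[simp] lemma mem_uniOn {ι : Type*} (T : Finset ι) (X : ι → Finset α) (Y : ι → Finset β)
    (i : α) (j : β) : j ∈ uniOn T X Y i ↔ ∃ t ∈ T, i ∈ X t ∧ j ∈ Y t := by
  simp [uniOn, and_assoc]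

/-- One-sided structure lemma: among the rectangles that have at least two rows and more than `ℓ`
columns, a fraction `1 / |W|` have pairwise private columns. -/
lemma one_sided {r : ℕ} {A : α → Finset β} {X : Fin r → Finset α} {Y : Fin r → Finset β}
    (hc : IsCover A X Y) (hr : RowPriv X Y) (hcp : ColPriv X Y) (W : Finset α) (ℓ : ℕ)
    (hW : ∀ i ∉ W, ∀ i' ∉ W, i ≠ i' → #(A i ∩ A i') ≤ ℓ) (E : Finset (Fin r))
    (hE : ∀ t ∈ E, #(X t) ≠ 1 ∧ ℓ < #(Y t)) :
    (∀ t ∈ E, #(X t) ≤ #W + 1) ∧
    ∃ K ⊆ E, #E ≤ #W * #K ∧ ∀ t ∈ K, ∃ b, ∀ t' ∈ K, (b ∈ Y t' ↔ t = t') := by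
  have hsub : ∀ t ∈ E, ∀ i ∈ X t, ∀ i' ∈ X t, i ≠ i' → i ∈ W ∨ i' ∈ W := by
    intro t ht i hi i' hi' hne
    by_contra hcon
    push Not at hcon
    have h1 := hW i hcon.1 i' hcon.2 hne
    have h2 : Y t ⊆ A i ∩ A i' := by
      intro j hj
      rw [mem_inter, hc i j, hc i' j]
      exact ⟨⟨t, hi, hj⟩, ⟨t, hi', hj⟩⟩
    have h3 := card_le_card h2
    have h4 := (hE t ht).2
    omega
  have hcard : ∀ t ∈ E, 2 ≤ #(X t) := by
    intro t ht
    obtain ⟨h1, h2⟩ := hE t ht
    have h3 : (Y t).Nonempty := card_pos.1 (by omega)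
    obtain ⟨j, hj⟩ := h3
    obtain ⟨i, hi, _⟩ := hcp t j hj
    have h4 : 0 < #(X t) := card_pos.2 ⟨i, hi⟩
    omega
  refine ⟨?_, ?_⟩
  · intro t ht
    have h1 : #(X t \ W) ≤ 1 := by
      rw [card_le_one]
      intro a ha b hb
      by_contra hab
      rw [mem_sdiff] at ha hb
      rcases hsub t ht a ha.1 b hb.1 hab with h | h
      · exact ha.2 h
      · exact hb.2 h
    have h2 := card_le_card_sdiff_add_card (s := X t) (t := W)
    omega
  · have hmeet : ∀ t ∈ E, ∃ w ∈ W, w ∈ X t := by
      intro t ht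
      obtain ⟨a, ha, b, hb, hab⟩ := one_lt_card.1 (hcard t ht)
      rcases hsub t ht a ha b hb hab with h | h
      · exact ⟨a, h, ha⟩
      · exact ⟨b, h, hb⟩
    by_cases hEe : E = ∅
    · exact ⟨∅, by simp, by simp [hEe], by simp⟩
    have hEne : E.Nonempty := nonempty_iff_ne_empty.2 hEe
    have hWne : W.Nonempty := by
      obtain ⟨t, ht⟩ := hEne
      obtain ⟨w, hw, _⟩ := hmeet t ht
      exact ⟨w, hw⟩
    obtain ⟨w, hw, hmax⟩ := exists_max_image W (fun w => #(E.filter (fun t => w ∈ X t))) hWne
    refine ⟨E.filter (fun t => w ∈ X t), filter_subset _ _, ?_, ?_⟩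
    · have h1 : E ⊆ W.biUnion (fun w => E.filter (fun t => w ∈ X t)) := by
        intro t ht
        obtain ⟨w', hw', h⟩ := hmeet t ht
        rw [mem_biUnion]
        exact ⟨w', hw', mem_filter.2 ⟨ht, h⟩⟩
      calc #E ≤ #(W.biUnion (fun w => E.filter (fun t => w ∈ X t))) := card_le_card h1
        _ ≤ ∑ w' ∈ W, #(E.filter (fun t => w' ∈ X t)) := card_biUnion_le
        _ ≤ ∑ w' ∈ W, #(E.filter (fun t => w ∈ X t)) := sum_le_sum (fun w' hw' => hmax w' hw')
        _ = #W * #(E.filter (fun t => w ∈ X t)) := by simp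
    · intro t ht
      have ht2 := (mem_filter.1 ht).2
      obtain ⟨b, hb, hpriv⟩ := hr t w ht2
      refine ⟨b, ?_⟩
      intro t' ht'
      have ht2' := (mem_filter.1 ht').2
      constructor
      · intro hbt
        by_contra hne
        exact hpriv t' (fun h => hne h.symm) ⟨ht2', hbt⟩
      · intro h
        rw [← h]; exact hb

end Pool.Agent.H38.Schein
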