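import Mathlib
import Pool.Agent.H38.ScheinA

/-!
Helper file for MP_72bf7f_co: counting the codes.
-/

open Finset

set_option linter.unusedSectionVars false

namespace Pool.Agent.H38.Schein

variable {α β : Type*} [Fintype α] [Fintype β] [DecidableEq α] [DecidableEq β]

/-- the number of subsets of size at most `k`. -/
lemma card_small (k : ℕ) :
    #((univ : Finset (Finset α)).filter (fun X => #X ≤ k)) ≤ (Fintype.card α + 1) ^ k := by
  induction k with
  | zero =>
    have : ((univ : Finset (Finset α)).filter (fun X => #X ≤ 0)) = {∅} := by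
      ext X; simp
    rw [this]; simp
  | succ k ih =>
    have hsub : ((univ : Finset (Finset α)).filter (fun X => #X ≤ k + 1)) ⊆
        image (fun p : Finset α × Option α => p.1 ∪ p.2.toFinset)
          (((univ : Finset (Finset α)).filter (fun X => #X ≤ k)) ×ˢ (univ : Finset (Option α))) := by
      intro X hX
      have hX2 : #X ≤ k + 1 := (mem_filter.1 hX).2
      rw [mem_image]
      by_cases hXe : X = ∅
      · refine ⟨(∅, none), ?_, ?_⟩
        · simp
        · simp [hXe]
      · obtain ⟨a, ha⟩ := nonempty_iff_ne_empty.2 hXe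
        refine ⟨(X.erase a, some a), ?_, ?_⟩
        · simp only [mem_product, mem_filter, mem_univ, true_and, and_true]
          rw [card_erase_of_mem ha]; omega
        · ext b
          simp only [Option.toFinset_some, mem_union, mem_erase, mem_singleton]
          constructor
          · rintro (h | h)
            · exact h.2
            · rw [h]; exact ha
          · intro h
            by_cases hb : b = a
            · exact Or.inr hb
            · exact Or.inl ⟨hb, h⟩
    calc _ ≤ _ := card_le_card hsub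
      _ ≤ #(((univ : Finset (Finset α)).filter (fun X => #X ≤ k)) ×ˢ (univ : Finset (Option α))) :=
          card_image_le
      _ = #((univ : Finset (Finset α)).filter (fun X => #X ≤ k)) * (Fintype.card α + 1) := by
          rw [card_product, card_univ, Fintype.card_option]
      _ ≤ (Fintype.card α + 1) ^ k * (Fintype.card α + 1) := Nat.mul_le_mul_right _ ih
      _ = _ := by rw [pow_succ]

/-- row contents on `P` and column contents on `Q`. -/
def LineSet (P : Finset α) (Q : Finset β) : Finset (α → Finset β) :=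
  Fintype.piFinset (fun i => if i ∈ P then (univ : Finset (Finset β)) else Q.powerset)

lemma card_LineSet (P : Finset α) (Q : Finset β) :
    #(LineSet P Q) = 2 ^ (Fintype.card β * #P + #Q * (Fintype.card α - #P)) := by
  rw [LineSet, Fintype.card_piFinset]
  have h1 : ∀ i : α, #(if i ∈ P then (univ : Finset (Finset β)) else Q.powerset)
      = if i ∈ P then 2 ^ Fintype.card β else 2 ^ #Q := by
    intro i
    split_ifs
    · rw [card_univ, Fintype.card_finset]
    · rw [card_powerset]
  rw [prod_congr rfl (fun i _ => h1 i), prod_ite, prod_const, prod_const, pow_add, pow_mul, pow_mul]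
  congr 2
  · congr 1
    ext i; simp
  · have : (univ.filter (fun i => i ∉ P)) = Pᶜ := by ext i; simp
    rw [this, card_compl]

/-- a family of at most `n - k` bits. -/
lemma card_pattern {ι : Type*} [DecidableEq ι] (K : Finset ι) (j : ι → β) (hj : Set.InjOn j K)
    (t' : ι) :
    #((univ : Finset (Finset β)).filter (fun Y' => ∀ t ∈ K, (j t ∈ Y' ↔ t = t')))
      ≤ 2 ^ (Fintype.card β - #K) := by
  have h1 : #(((univ : Finset β) \ K.image j).powerset) = 2 ^ (Fintype.card β - #K) := by
    rw [card_powerset, card_sdiff_of_subset (subset_univ _), card_univ, card_image_of_injOn hj]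
  rw [← h1]
  refine card_le_card_of_injOn (fun Y' => Y' \ K.image j) ?_ ?_
  · intro Y' _
    simp only [coe_powerset, Set.mem_preimage, Set.mem_powerset_iff, coe_subset]
    exact sdiff_subset_sdiff (subset_univ _) (le_refl _)
  · intro Y₁ h₁ Y₂ h₂ h
    have h₁' := (mem_filter.1 h₁).2
    have h₂' := (mem_filter.1 h₂).2
    ext b
    by_cases hb : b ∈ K.image j
    · obtain ⟨t, ht, rfl⟩ := mem_image.1 hb
      rw [h₁' t ht, h₂' t ht]
    · have h3 : b ∈ Y₁ \ K.image j ↔ b ∈ Y₂ \ K.image j := by
        simp only at h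
        rw [h]
      simpa [mem_sdiff, hb] using h3

open Classical in
/-- the sets coded by `e` expensive row rectangles -/
noncomputable def ExpSet (w₀ e : ℕ) : Finset (α → Finset β) :=
  univ.filter (fun R => ∃ (X : Fin e → Finset α) (Y : Fin e → Finset β) (K : Finset (Fin e)),
    (∀ t, #(X t) ≤ w₀ + 1) ∧ e ≤ w₀ * #K ∧ (∀ t ∈ K, ∃ b, ∀ t' ∈ K, (b ∈ Y t' ↔ t = t')) ∧
      R = uniOn univ X Y)

lemma mem_ExpSet {w₀ e : ℕ} {R : α → Finset β} :
    R ∈ ExpSet (α := α) (β := β) w₀ e ↔
    ∃ (X : Fin e → Finset α) (Y : Fin e → Finset β) (K : Finset (Fin e)),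
    (∀ t, #(X t) ≤ w₀ + 1) ∧ e ≤ w₀ * #K ∧ (∀ t ∈ K, ∃ b, ∀ t' ∈ K, (b ∈ Y t' ↔ t = t')) ∧
      R = uniOn univ X Y := by
  classical
  unfold ExpSet
  rw [mem_filter]
  simp only [mem_univ, true_and]

lemma card_ExpSet (w₀ e L n c : ℕ) (hα : Fintype.card α = n) (hβ : Fintype.card β = n)
    (hL : n + 1 ≤ 2 ^ L) (hL1 : 1 ≤ L) :
    #(ExpSet (α := α) (β := β) w₀ e) * 2 ^ (c * L * e) ≤
      2 ^ (n * e + (w₀ * (w₀ + 3 + c) * L) ^ 2) := by
  classical
  set PatY : Finset (Fin e) → (Fin e → β) → Finset (Fin e → Finset β) := fun K j =>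
    Fintype.piFinset (fun t' => if t' ∈ K then
      (univ : Finset (Finset β)).filter (fun Y' => ∀ t ∈ K, (j t ∈ Y' ↔ t = t')) else univ) with hPatY
  set Sm : Finset (Fin e → Finset α) :=
    Fintype.piFinset (fun _ => (univ : Finset (Finset α)).filter (fun X => #X ≤ w₀ + 1)) with hSm
  set Idx : Finset (Finset (Fin e) × (Fin e → β)) :=
    univ.filter (fun p => e ≤ w₀ * #p.1 ∧ Set.InjOn p.2 p.1) with hIdx
  have hcover : ExpSet (α := α) (β := β) w₀ e ⊆ Idx.biUnion (fun p =>
      image (fun q : (Fin e → Finset α) × (Fin e → Finset β) => uniOn univ q.1 q.2)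
        (Sm ×ˢ PatY p.1 p.2)) := by
    intro R hR
    obtain ⟨X, Y, K, hX, hK, hpriv, hRe⟩ := (mem_filter.1 hR).2
    have hj : ∃ j : Fin e → β, ∀ t ∈ K, ∀ t' ∈ K, (j t ∈ Y t' ↔ t = t') := by
      by_cases hKe : K = ∅
      · subst hKe
        have he : e = 0 := by simpa using hK
        subst he
        exact ⟨fun t => t.elim0, by simp⟩
      · obtain ⟨t₀, ht₀⟩ := nonempty_iff_ne_empty.2 hKe
        obtain ⟨b₀, _⟩ := hpriv t₀ ht₀
        have : ∀ t, ∃ b : β, t ∈ K → ∀ t' ∈ K, (b ∈ Y t' ↔ t = t') := by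
          intro t
          by_cases ht : t ∈ K
          · obtain ⟨b, hb⟩ := hpriv t ht
            exact ⟨b, fun _ => hb⟩
          · exact ⟨b₀, fun h => absurd h ht⟩
        choose j hj using this
        exact ⟨j, hj⟩
    obtain ⟨j, hj⟩ := hj
    rw [mem_biUnion]
    refine ⟨(K, j), ?_, ?_⟩
    · rw [hIdx, mem_filter]
      refine ⟨mem_univ _, hK, ?_⟩
      intro t ht t' ht' htt
      have h1 : j t' ∈ Y t' := (hj t' ht' t' ht').2 rfl
      simp only at htt
      rw [← htt] at h1
      exact (hj t ht t' ht').1 h1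
    · rw [mem_image]
      refine ⟨(X, Y), ?_, hRe.symm⟩
      rw [mem_product]
      constructor
      · rw [hSm, Fintype.mem_piFinset]
        intro t
        simpa using hX t
      · rw [hPatY, Fintype.mem_piFinset]
        intro t'
        simp only
        split_ifs with ht'
        · rw [mem_filter]
          exact ⟨mem_univ _, fun t ht => hj t ht t' ht'⟩
        · exact mem_univ _
  have hterm : ∀ p ∈ Idx, #(image (fun q : (Fin e → Finset α) × (Fin e → Finset β) =>
      uniOn univ q.1 q.2) (Sm ×ˢ PatY p.1 p.2)) * 2 ^ (c * L * e) * 2 ^ (e + L * e)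
      ≤ 2 ^ (n * e + (w₀ * (w₀ + 3 + c) * L) ^ 2) := by
    rintro ⟨K, j⟩ hp
    obtain ⟨hK, hinj⟩ := (mem_filter.1 hp).2
    simp only at hK hinj
    have hKn : #K ≤ n := by
      rw [← card_image_of_injOn hinj, ← hβ]
      exact card_le_univ _
    have hKe : #K ≤ e := by
      have := card_le_univ K
      simpa using this
    have h1 : #(PatY K j) ≤ 2 ^ ((n - #K) * #K + n * (e - #K)) := by
      rw [hPatY]
      simp only
      rw [Fintype.card_piFinset]
      calc _ ≤ ∏ t' : Fin e, (if t' ∈ K then 2 ^ (n - #K) else 2 ^ n) := by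
            apply prod_le_prod'
            intro t' _
            split_ifs
            · rw [← hβ]
              refine le_trans (le_of_eq ?_) (card_pattern K j hinj t')
              congr
            · rw [card_univ, Fintype.card_finset, hβ]
        _ = 2 ^ ((n - #K) * #K + n * (e - #K)) := by
            rw [prod_ite, prod_const, prod_const, pow_add, pow_mul, pow_mul]
            congr 2
            · congr 1
              ext i; simp
            · have : (univ.filter (fun i => i ∉ K)) = Kᶜ := by ext i; simp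
              rw [this, card_compl, Fintype.card_fin]
    have h2 : #Sm ≤ 2 ^ (L * (w₀ + 1) * e) := by
      rw [hSm, Fintype.card_piFinset, prod_const, card_univ, Fintype.card_fin, pow_mul]
      apply Nat.pow_le_pow_left
      calc _ ≤ (Fintype.card α + 1) ^ (w₀ + 1) := card_small _
        _ ≤ (2 ^ L) ^ (w₀ + 1) := Nat.pow_le_pow_left (by rw [hα]; exact hL) _
        _ = _ := by rw [pow_mul]
    calc _ ≤ #(Sm ×ˢ PatY K j) * 2 ^ (c * L * e) * 2 ^ (e + L * e) := by
            gcongr
            exact card_image_le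
      _ = #Sm * #(PatY K j) * 2 ^ (c * L * e) * 2 ^ (e + L * e) := by rw [card_product]
      _ ≤ 2 ^ (L * (w₀ + 1) * e) * 2 ^ ((n - #K) * #K + n * (e - #K)) * 2 ^ (c * L * e)
            * 2 ^ (e + L * e) := by gcongr
      _ = 2 ^ (L * (w₀ + 1) * e + ((n - #K) * #K + n * (e - #K)) + c * L * e + (e + L * e)) := by
            rw [← pow_add, ← pow_add, ← pow_add]
      _ ≤ _ := by
            apply Nat.pow_le_pow_right (by norm_num)
            obtain ⟨a, ha⟩ := Nat.exists_eq_add_of_le hKn
            obtain ⟨b, hb⟩ := Nat.exists_eq_add_of_le hKe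
            have e1 : n - #K = a := by omega
            have e2 : e - #K = b := by omega
            rw [e1, e2]
            generalize #K = k at *
            subst ha
            have h3 : e * (L * (w₀ + 3 + c)) ≤ (w₀ * k) * (L * (w₀ + 3 + c)) :=
              Nat.mul_le_mul_right _ hK
            have h4 : e ≤ e * L := Nat.le_mul_of_pos_right _ hL1
            have h5 : (w₀ * (w₀ + 3 + c) * L) * k ≤ (w₀ * (w₀ + 3 + c) * L) ^ 2 + k ^ 2 := by
              have := two_mul_le_add_sq (w₀ * (w₀ + 3 + c) * L) k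
              nlinarith [Nat.zero_le (w₀ * (w₀ + 3 + c) * L * k)]
            have h6 : a * k + (k + a) * b + k ^ 2 = (k + a) * e := by rw [hb]; ring
            have h7 : e * (L * (w₀ + 3 + c)) = L * (w₀ + 1) * e + c * L * e + L * e + e * L := by ring
            have h8 : (w₀ * k) * (L * (w₀ + 3 + c)) = (w₀ * (w₀ + 3 + c) * L) * k := by ring
            omega
  have hIc : #Idx ≤ 2 ^ (e + L * e) := by
    calc #Idx ≤ #(univ : Finset (Finset (Fin e) × (Fin e → β))) := card_le_card (filter_subset _ _)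
      _ = 2 ^ e * n ^ e := by
          rw [card_univ, Fintype.card_prod, Fintype.card_finset, Fintype.card_fun,
            Fintype.card_fin, hβ]
      _ ≤ 2 ^ e * (2 ^ L) ^ e := by
          gcongr
          omega
      _ = _ := by rw [pow_add, pow_mul]
  have hpos : 0 < 2 ^ (e + L * e) := by positivity
  apply Nat.le_of_mul_le_mul_right _ hpos
  calc #(ExpSet (α := α) (β := β) w₀ e) * 2 ^ (c * L * e) * 2 ^ (e + L * e)
      ≤ (∑ p ∈ Idx, #(image (fun q : (Fin e → Finset α) × (Fin e → Finset β) =>
          uniOn univ q.1 q.2) (Sm ×ˢ PatY p.1 p.2))) * 2 ^ (c * L * e) * 2 ^ (e + L * e) := by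
        gcongr
        exact (card_le_card hcover).trans card_biUnion_le
    _ = ∑ p ∈ Idx, #(image (fun q : (Fin e → Finset α) × (Fin e → Finset β) =>
          uniOn univ q.1 q.2) (Sm ×ˢ PatY p.1 p.2)) * 2 ^ (c * L * e) * 2 ^ (e + L * e) := by
        rw [sum_mul, sum_mul]
    _ ≤ ∑ p ∈ Idx, 2 ^ (n * e + (w₀ * (w₀ + 3 + c) * L) ^ 2) := sum_le_sum hterm
    _ = #Idx * 2 ^ (n * e + (w₀ * (w₀ + 3 + c) * L) ^ 2) := by rw [sum_const, smul_eq_mul]
    _ ≤ 2 ^ (e + L * e) * 2 ^ (n * e + (w₀ * (w₀ + 3 + c) * L) ^ 2) := by gcongr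
    _ = _ := by rw [mul_comm]

/-- cheap rectangles: one side smaller than `k₀`, the other one at most `ℓ`. -/
def CheapRects (k₀ ℓ : ℕ) : Finset (Finset α × Finset β) :=
  univ.filter (fun p => (#p.1 ≤ k₀ ∧ #p.2 ≤ ℓ) ∨ (#p.2 ≤ k₀ ∧ #p.1 ≤ ℓ))

lemma card_CheapRects (k₀ ℓ L n S : ℕ) (hα : Fintype.card α = n) (hβ : Fintype.card β = n)
    (hL : n + 1 ≤ 2 ^ L)
    (hSα : #((univ : Finset (Finset α)).filter (fun X => #X ≤ ℓ)) ≤ S)
    (hSβ : #((univ : Finset (Finset β)).filter (fun X => #X ≤ ℓ)) ≤ S) :
    #(CheapRects (α := α) (β := β) k₀ ℓ) ≤ 2 * (2 ^ (L * k₀) * S) := by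
  have hsub : CheapRects (α := α) (β := β) k₀ ℓ ⊆
      (((univ : Finset (Finset α)).filter (fun X => #X ≤ k₀)) ×ˢ
        ((univ : Finset (Finset β)).filter (fun X => #X ≤ ℓ))) ∪
      (((univ : Finset (Finset α)).filter (fun X => #X ≤ ℓ)) ×ˢ
        ((univ : Finset (Finset β)).filter (fun X => #X ≤ k₀))) := by
    rintro ⟨X, Y⟩ h
    simp only [CheapRects, mem_filter, mem_univ, true_and, mem_union, mem_product] at h ⊢
    tauto
  have h1 : #((univ : Finset (Finset α)).filter (fun X => #X ≤ k₀)) ≤ 2 ^ (L * k₀) := by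
    rw [pow_mul]
    exact (card_small _).trans (Nat.pow_le_pow_left (by rw [hα]; exact hL) _)
  have h2 : #((univ : Finset (Finset β)).filter (fun X => #X ≤ k₀)) ≤ 2 ^ (L * k₀) := by
    rw [pow_mul]
    exact (card_small _).trans (Nat.pow_le_pow_left (by rw [hβ]; exact hL) _)
  calc _ ≤ _ := card_le_card hsub
    _ ≤ _ := card_union_le _ _
    _ ≤ 2 ^ (L * k₀) * S + S * 2 ^ (L * k₀) := by
        rw [card_product, card_product]
        exact Nat.add_le_add (Nat.mul_le_mul h1 hSβ) (Nat.mul_le_mul hSα h2)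
    _ = _ := by ring

/-- unions of `s` cheap rectangles. -/
def CheapSet (k₀ ℓ s : ℕ) : Finset (α → Finset β) :=
  image (fun f : Fin s → Finset α × Finset β => uniOn univ (fun t => (f t).1) (fun t => (f t).2))
    (Fintype.piFinset fun _ => CheapRects k₀ ℓ)

lemma card_CheapSet (k₀ ℓ s : ℕ) :
    #(CheapSet (α := α) (β := β) k₀ ℓ s) ≤ #(CheapRects (α := α) (β := β) k₀ ℓ) ^ s := by
  refine card_image_le.trans ?_
  rw [Fintype.card_piFinset, prod_const, card_univ, Fintype.card_fin]

end Pool.Agent.H38.Schein
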