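import Mathlib
import Pool.Agent.H38.ScheinB

/-!
Helper file for MP_72bf7f_co: decomposition of a matrix of small Boolean rank.
-/

open Finset

set_option linter.unusedSectionVars false

namespace Pool.Agent.H38.Schein

variable {α β : Type*} [Fintype α] [Fintype β] [DecidableEq α] [DecidableEq β]

lemma reindex {r : ℕ} (E : Finset (Fin r)) (X : Fin r → Finset α) (Y : Fin r → Finset β) :
    uniOn E X Y = uniOn (univ : Finset (Fin #E)) (fun a => X (E.orderEmbOfFin rfl a))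
      (fun a => Y (E.orderEmbOfFin rfl a)) := by
  funext i
  ext j
  rw [mem_uniOn, mem_uniOn]
  constructor
  · rintro ⟨t, ht, h1, h2⟩
    have : t ∈ Set.range (E.orderEmbOfFin rfl) := by
      rw [range_orderEmbOfFin]; exact ht
    obtain ⟨a, rfl⟩ := this
    exact ⟨a, mem_univ _, h1, h2⟩
  · rintro ⟨a, _, h1, h2⟩
    exact ⟨_, orderEmbOfFin_mem E rfl a, h1, h2⟩

lemma mem_ExpSet_of {r : ℕ} {A : α → Finset β} {X : Fin r → Finset α} {Y : Fin r → Finset β}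
    (hc : IsCover A X Y) (hr : RowPriv X Y) (hcp : ColPriv X Y) (W : Finset α) (ℓ w₀ : ℕ)
    (hWc : #W ≤ w₀)
    (hW : ∀ i ∉ W, ∀ i' ∉ W, i ≠ i' → #(A i ∩ A i') ≤ ℓ) (E : Finset (Fin r))
    (hE : ∀ t ∈ E, #(X t) ≠ 1 ∧ ℓ < #(Y t)) :
    uniOn E X Y ∈ ExpSet (α := α) (β := β) w₀ #E := by
  obtain ⟨h1, K, hKE, hK, hpriv⟩ := one_sided hc hr hcp W ℓ hW E hE
  refine mem_ExpSet.2 ⟨fun a => X (E.orderEmbOfFin rfl a),
    fun a => Y (E.orderEmbOfFin rfl a),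
    univ.filter (fun a => E.orderEmbOfFin rfl a ∈ K), ?_, ?_, ?_, reindex E X Y⟩
  · intro a
    have := h1 _ (orderEmbOfFin_mem E rfl a)
    simp only
    omega
  · have h2 : #(univ.filter (fun a => E.orderEmbOfFin rfl a ∈ K)) = #K := by
      apply card_bij (fun a _ => E.orderEmbOfFin rfl a)
      · intro a ha
        exact (mem_filter.1 ha).2
      · intro a _ b _ hab
        exact (E.orderEmbOfFin rfl).injective hab
      · intro t ht
        have : t ∈ Set.range (E.orderEmbOfFin rfl) := by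
          rw [range_orderEmbOfFin]; exact hKE ht
        obtain ⟨a, rfl⟩ := this
        exact ⟨a, by simpa using ht, rfl⟩
    rw [h2]
    exact hK.trans (Nat.mul_le_mul_right _ hWc)
  · intro a ha
    have ha' := (mem_filter.1 ha).2
    obtain ⟨b, hb⟩ := hpriv _ ha'
    refine ⟨b, ?_⟩
    intro a' ha2
    have ha2' := (mem_filter.1 ha2).2
    rw [hb _ ha2']
    exact ⟨fun h => (E.orderEmbOfFin rfl).injective h, fun h => by rw [h]⟩

lemma mem_CheapSet_of {r : ℕ} (X : Fin r → Finset α) (Y : Fin r → Finset β) (k₀ ℓ : ℕ)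
    (M : Finset (Fin r))
    (hM : ∀ t ∈ M, (#(X t) ≤ k₀ ∧ #(Y t) ≤ ℓ) ∨ (#(Y t) ≤ k₀ ∧ #(X t) ≤ ℓ)) :
    uniOn M X Y ∈ CheapSet (α := α) (β := β) k₀ ℓ #M := by
  rw [CheapSet, mem_image]
  refine ⟨fun a => (X (M.orderEmbOfFin rfl a), Y (M.orderEmbOfFin rfl a)), ?_, ?_⟩
  · rw [Fintype.mem_piFinset]
    intro a
    rw [CheapRects, mem_filter]
    exact ⟨mem_univ _, hM _ (orderEmbOfFin_mem M rfl a)⟩
  · exact (reindex M X Y).symm

lemma decomposition {r : ℕ} {A : α → Finset β} {X : Fin r → Finset α} {Y : Fin r → Finset β}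
    (hc : IsCover A X Y) (hr : RowPriv X Y) (hcp : ColPriv X Y) (k₀ ℓ w₀ : ℕ)
    (W : Finset α) (W' : Finset β) (hWc : #W ≤ w₀) (hWc' : #W' ≤ w₀)
    (hW : ∀ i ∉ W, ∀ i' ∉ W, i ≠ i' → #(A i ∩ A i') ≤ ℓ)
    (hW' : ∀ j ∉ W', ∀ j' ∉ W', j ≠ j' → #(tr A j ∩ tr A j') ≤ ℓ)
    (hT : ∀ (X : Finset α) (Y : Finset β), (∀ i ∈ X, Y ⊆ A i) → #X ≤ k₀ ∨ #Y ≤ k₀) :
    ∃ (P : Finset α) (Q : Finset β) (e e' s : ℕ), #P + #Q + e + e' + s ≤ r ∧
      ∃ R₁ ∈ LineSet P Q, ∃ R₂ ∈ ExpSet (α := α) (β := β) w₀ e,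
      ∃ R₃ ∈ ExpSet (α := β) (β := α) w₀ e',
      ∃ R₄ ∈ CheapSet (α := α) (β := β) k₀ ℓ s,
        A = fun i => R₁ i ∪ R₂ i ∪ tr R₃ i ∪ R₄ i := by
  set Tr : Finset (Fin r) := univ.filter (fun t => #(X t) ≤ k₀) with hTr
  set Tc : Finset (Fin r) := univ.filter (fun t => ¬ #(X t) ≤ k₀) with hTc
  have hTcY : ∀ t ∈ Tc, #(Y t) ≤ k₀ := by
    intro t ht
    have h1 := (mem_filter.1 ht).2
    rcases hT (X t) (Y t) (fun i hi j hj => (hc i j).2 ⟨t, hi, hj⟩) with h | h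
    · exact absurd h h1
    · exact h
  set Pr := Tr.filter (fun t => #(X t) = 1) with hPr
  set Er := Tr.filter (fun t => #(X t) ≠ 1 ∧ ℓ < #(Y t)) with hEr
  set Pc := Tc.filter (fun t => #(Y t) = 1) with hPc
  set Ec := Tc.filter (fun t => #(Y t) ≠ 1 ∧ ℓ < #(X t)) with hEc
  set M := univ.filter (fun t : Fin r => (#(X t) ≤ k₀ ∧ #(X t) ≠ 1 ∧ #(Y t) ≤ ℓ) ∨
    (¬ #(X t) ≤ k₀ ∧ #(Y t) ≠ 1 ∧ #(X t) ≤ ℓ)) with hM
  have hsum : #Pr + #Er + #Pc + #Ec + #M ≤ r := by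
    have h1 : Disjoint Pr Er := by
      rw [disjoint_left]; intro t; simp only [hPr, hEr, mem_filter]; tauto
    have h2 : Disjoint (Pr ∪ Er) Pc := by
      rw [disjoint_left]; intro t; simp only [hPr, hEr, hPc, hTr, hTc, mem_filter, mem_union]; tauto
    have h3 : Disjoint (Pr ∪ Er ∪ Pc) Ec := by
      rw [disjoint_left]; intro t
      simp only [hPr, hEr, hPc, hEc, hTr, hTc, mem_filter, mem_union]; tauto
    have h4 : Disjoint (Pr ∪ Er ∪ Pc ∪ Ec) M := by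
      rw [disjoint_left]; intro t
      simp only [hPr, hEr, hPc, hEc, hM, hTr, hTc, mem_filter, mem_union, mem_univ, true_and]
      intro h h'
      rcases h' with h' | h'
      · rcases h with ((h | h) | h) | h
        · exact h'.2.1 h.2
        · omega
        · exact h.1 h'.1
        · exact h.1 h'.1
      · rcases h with ((h | h) | h) | h
        · exact h'.1 h.1
        · exact h'.1 h.1
        · exact h'.2.1 h.2
        · omega
    rw [← card_union_of_disjoint h1, ← card_union_of_disjoint h2, ← card_union_of_disjoint h3,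
      ← card_union_of_disjoint h4]
    calc _ ≤ Fintype.card (Fin r) := card_le_univ _
      _ = r := Fintype.card_fin r
  refine ⟨Pr.biUnion X, Pc.biUnion Y, #Er, #Ec, #M, ?_, ?_⟩
  · have h1 : #(Pr.biUnion X) ≤ #Pr := by
      calc _ ≤ ∑ t ∈ Pr, #(X t) := card_biUnion_le
        _ = ∑ t ∈ Pr, 1 := sum_congr rfl (fun t ht => (mem_filter.1 ht).2)
        _ = #Pr := by simp
    have h2 : #(Pc.biUnion Y) ≤ #Pc := by
      calc _ ≤ ∑ t ∈ Pc, #(Y t) := card_biUnion_le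
        _ = ∑ t ∈ Pc, 1 := sum_congr rfl (fun t ht => (mem_filter.1 ht).2)
        _ = #Pc := by simp
    omega
  · refine ⟨uniOn (Pr ∪ Pc) X Y, ?_, uniOn Er X Y, ?_, uniOn Ec Y X, ?_, uniOn M X Y, ?_, ?_⟩
    · rw [LineSet, Fintype.mem_piFinset]
      intro i
      split_ifs with hi
      · exact mem_univ _
      · rw [mem_powerset]
        intro j hj
        rw [mem_uniOn] at hj
        obtain ⟨t, ht, h1, h2⟩ := hj
        rcases mem_union.1 ht with ht | ht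
        · exact absurd (mem_biUnion.2 ⟨t, ht, h1⟩) hi
        · exact mem_biUnion.2 ⟨t, ht, h2⟩
    · exact mem_ExpSet_of hc hr hcp W ℓ w₀ hWc hW Er (fun t ht => (mem_filter.1 ht).2)
    · exact mem_ExpSet_of hc.tr hcp.tr hr.tr W' ℓ w₀ hWc' hW' Ec (fun t ht => (mem_filter.1 ht).2)
    · apply mem_CheapSet_of
      intro t ht
      rcases (mem_filter.1 ht).2 with h | h
      · exact Or.inl ⟨h.1, h.2.2⟩
      · exact Or.inr ⟨hTcY t (mem_filter.2 ⟨mem_univ _, h.1⟩), h.2.2⟩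
    · funext i
      ext j
      simp only [mem_union, mem_uniOn, mem_tr]
      rw [hc i j]
      constructor
      · rintro ⟨t, h1, h2⟩
        by_cases a : #(X t) ≤ k₀
        · have ht : t ∈ Tr := mem_filter.2 ⟨mem_univ _, a⟩
          by_cases b : #(X t) = 1
          · exact Or.inl (Or.inl (Or.inl ⟨t, Or.inl (mem_filter.2 ⟨ht, b⟩), h1, h2⟩))
          · by_cases c : #(Y t) ≤ ℓ
            · exact Or.inr ⟨t, mem_filter.2 ⟨mem_univ _, Or.inl ⟨a, b, c⟩⟩, h1, h2⟩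
            · exact Or.inl (Or.inl (Or.inr ⟨t, mem_filter.2 ⟨ht, b, not_le.1 c⟩, h1, h2⟩))
        · have ht : t ∈ Tc := mem_filter.2 ⟨mem_univ _, a⟩
          by_cases b : #(Y t) = 1
          · exact Or.inl (Or.inl (Or.inl ⟨t, Or.inr (mem_filter.2 ⟨ht, b⟩), h1, h2⟩))
          · by_cases c : #(X t) ≤ ℓ
            · exact Or.inr ⟨t, mem_filter.2 ⟨mem_univ _, Or.inr ⟨a, b, c⟩⟩, h1, h2⟩
            · exact Or.inl (Or.inr ⟨t, mem_filter.2 ⟨ht, b, not_le.1 c⟩, h2, h1⟩)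
      · rintro (((⟨t, _, h1, h2⟩ | ⟨t, _, h1, h2⟩) | ⟨t, _, h1, h2⟩) | ⟨t, _, h1, h2⟩)
        · exact ⟨t, h1, h2⟩
        · exact ⟨t, h1, h2⟩
        · exact ⟨t, h2, h1⟩
        · exact ⟨t, h1, h2⟩

end Pool.Agent.H38.Schein
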