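import Mathlib
import Pool.Agent.H38.ScheinC

/-!
Helper file for MP_72bf7f_co: the number of typical matrices of small Boolean rank.
-/

open Finset

set_option linter.unusedSectionVars false

namespace Pool.Agent.H38.Schein

variable {α β : Type*} [Fintype α] [Fintype β] [DecidableEq α] [DecidableEq β]

lemma card_ExpSet' {γ δ : Type*} [Fintype γ] [Fintype δ] [DecidableEq γ] [DecidableEq δ]
    (w₀ e n L c : ℕ) (hγ : Fintype.card γ = n) (hδ : Fintype.card δ = n)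
    (hL : n + 1 ≤ 2 ^ L) (hL1 : 1 ≤ L) (hLn : c * L ≤ n) :
    #(ExpSet (α := γ) (β := δ) w₀ e) ≤ 2 ^ ((n - c * L) * e + (w₀ * (w₀ + 3 + c) * L) ^ 2) := by
  have h1 := card_ExpSet (α := γ) (β := δ) w₀ e L n c hγ hδ hL hL1
  have h2 : 2 ^ (n * e + (w₀ * (w₀ + 3 + c) * L) ^ 2) =
      2 ^ ((n - c * L) * e + (w₀ * (w₀ + 3 + c) * L) ^ 2) * 2 ^ (c * L * e) := by
    rw [← pow_add]
    congr 1
    obtain ⟨a, ha⟩ := Nat.exists_eq_add_of_le hLn
    have e1 : n - c * L = a := by omega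
    rw [e1, ha]; ring
  rw [h2] at h1
  exact Nat.le_of_mul_le_mul_right h1 (by positivity)

/-- the codes with given parameters -/
noncomputable def CodeSet (w₀ k₀ ℓ p q e e' s : ℕ) : Finset (α → Finset β) :=
  ((powersetCard p (univ : Finset α)) ×ˢ (powersetCard q (univ : Finset β))).biUnion (fun PQ =>
    image (fun R : (α → Finset β) × (α → Finset β) × (β → Finset α) × (α → Finset β) =>
        (fun i => R.1 i ∪ R.2.1 i ∪ tr R.2.2.1 i ∪ R.2.2.2 i : α → Finset β))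
      (LineSet PQ.1 PQ.2 ×ˢ ExpSet (α := α) (β := β) w₀ e ×ˢ ExpSet (α := β) (β := α) w₀ e' ×ˢ
        CheapSet (α := α) (β := β) k₀ ℓ s))

lemma card_CodeSet (w₀ k₀ ℓ p q e e' s n L : ℕ) (hα : Fintype.card α = n)
    (hβ : Fintype.card β = n) (hL : n + 1 ≤ 2 ^ L) (hL1 : 1 ≤ L) (hLn : L ≤ n)
    (hcheap : #(CheapRects (α := α) (β := β) k₀ ℓ) ≤ 2 ^ (n - L)) :
    #(CodeSet (α := α) (β := β) w₀ k₀ ℓ p q e e' s) ≤
      n.choose p * n.choose q * 2 ^ (n * p + q * (n - p) + (n - L) * (e + e' + s)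
        + 2 * (w₀ * (w₀ + 4) * L) ^ 2) := by
  have hch : #(CheapSet (α := α) (β := β) k₀ ℓ s) ≤ 2 ^ ((n - L) * s) := by
    rw [pow_mul]
    exact (card_CheapSet _ _ _).trans (Nat.pow_le_pow_left hcheap _)
  rw [CodeSet]
  refine card_biUnion_le.trans ?_
  have hterm : ∀ PQ ∈ (powersetCard p (univ : Finset α)) ×ˢ (powersetCard q (univ : Finset β)),
      #(image (fun R : (α → Finset β) × (α → Finset β) × (β → Finset α) × (α → Finset β) =>
        (fun i => R.1 i ∪ R.2.1 i ∪ tr R.2.2.1 i ∪ R.2.2.2 i : α → Finset β))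
      (LineSet PQ.1 PQ.2 ×ˢ ExpSet (α := α) (β := β) w₀ e ×ˢ ExpSet (α := β) (β := α) w₀ e' ×ˢ
        CheapSet (α := α) (β := β) k₀ ℓ s)) ≤ 2 ^ (n * p + q * (n - p) + (n - L) * (e + e' + s)
        + 2 * (w₀ * (w₀ + 4) * L) ^ 2) := by
    rintro ⟨P, Q⟩ hPQ
    rw [mem_product, mem_powersetCard, mem_powersetCard] at hPQ
    obtain ⟨⟨_, hP⟩, ⟨_, hQ⟩⟩ := hPQ
    simp only at hP hQ
    refine card_image_le.trans ?_
    rw [card_product, card_product, card_product, card_LineSet, hα, hβ, hP, hQ]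
    calc _ ≤ 2 ^ (n * p + q * (n - p)) * (2 ^ ((n - L) * e + (w₀ * (w₀ + 4) * L) ^ 2) *
          (2 ^ ((n - L) * e' + (w₀ * (w₀ + 4) * L) ^ 2) * 2 ^ ((n - L) * s))) := by
          gcongr
          · have := card_ExpSet' w₀ e n L 1 hα hβ hL hL1 (by omega)
            rwa [one_mul] at this
          · have := card_ExpSet' w₀ e' n L 1 hβ hα hL hL1 (by omega)
            rwa [one_mul] at this
      _ = _ := by
          rw [← pow_add, ← pow_add, ← pow_add]
          congr 1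
          ring
  refine (sum_le_sum hterm).trans ?_
  rw [sum_const, smul_eq_mul, card_product, card_powersetCard, card_powersetCard, card_univ,
    card_univ, hα, hβ]

/-- the numerical inequality. -/
lemma numeric (n L p q : ℕ) (hL : n + 1 ≤ 2 ^ L) (hL5 : 5 ≤ L) (hn : 32 ≤ n)
    (hpq : p + q ≤ n - 1) :
    n.choose p * n.choose q ≤ 2 ^ (p * q + L * (n - 1 - p - q) + 17 * L) := by
  have hnL : n ≤ 2 ^ L := by omega
  have hpow : ∀ k, n ^ k ≤ 2 ^ (L * k) := fun k => by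
    rw [pow_mul]; exact Nat.pow_le_pow_left hnL k
  have hcomp : ∀ a b : ℕ, a + b ≤ n - 1 → b < 8 →
      n.choose a * n.choose b ≤ 2 ^ (a * b + L * (n - 1 - a - b) + 17 * L) := by
    intro a b hab hb
    have h1 : n.choose a ≤ 2 ^ (L * (n - a)) := by
      rw [← Nat.choose_symm (by omega : a ≤ n)]
      exact (Nat.choose_le_pow _ _).trans (hpow _)
    have h2 : n.choose b ≤ 2 ^ (L * b) := (Nat.choose_le_pow _ _).trans (hpow _)
    calc _ ≤ 2 ^ (L * (n - a)) * 2 ^ (L * b) := Nat.mul_le_mul h1 h2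
      _ = 2 ^ (L * (n - a) + L * b) := by rw [pow_add]
      _ ≤ _ := by
        apply Nat.pow_le_pow_right (by norm_num)
        have h3 : n - a = (n - 1 - a - b) + (1 + b) := by omega
        rw [h3]
        have h4 : L * ((1 + b) + b) ≤ L * 15 := Nat.mul_le_mul_left _ (by omega)
        nlinarith [Nat.zero_le (a * b)]
  by_cases hq : q < 8
  · exact hcomp p q hpq hq
  by_cases hp : p < 8
  · have := hcomp q p (by omega) hp
    rw [mul_comm, mul_comm p q]
    have h5 : n - 1 - p - q = n - 1 - q - p := by omega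
    rw [h5]
    exact this
  push Not at hq hp
  calc n.choose p * n.choose q ≤ 2 ^ n * 2 ^ n := Nat.mul_le_mul (Nat.choose_le_two_pow _ _)
        (Nat.choose_le_two_pow _ _)
    _ = 2 ^ (2 * n) := by rw [← pow_add]; congr 1; ring
    _ ≤ _ := by
      apply Nat.pow_le_pow_right (by norm_num)
      by_cases hc : n ≤ 2 * (p + q)
      · have h6 : 8 * p + 8 * q ≤ p * q + 64 := by
          obtain ⟨a, rfl⟩ := Nat.exists_eq_add_of_le hq
          obtain ⟨b, rfl⟩ := Nat.exists_eq_add_of_le hp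
          nlinarith [Nat.zero_le (a * b)]
        have h7 : 0 ≤ L * (n - 1 - p - q) := Nat.zero_le _
        nlinarith
      · have h8 : 5 * (n - 1 - p - q) ≤ L * (n - 1 - p - q) := Nat.mul_le_mul_right _ hL5
        have h9 : 0 ≤ p * q := Nat.zero_le _
        omega

/-- The number of matrices that have a code is at most `2 ^ (n(n-1) + O(L²))`. -/
lemma card_codes (w₀ k₀ ℓ n L : ℕ) (hα : Fintype.card α = n)
    (hβ : Fintype.card β = n) (hL : n + 1 ≤ 2 ^ L) (hL5 : 5 ≤ L) (hLn : L ≤ n) (hn : 32 ≤ n)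
    (hcheap : #(CheapRects (α := α) (β := β) k₀ ℓ) ≤ 2 ^ (n - L))
    (S : Finset (α → Finset β))
    (hS : ∀ A ∈ S, ∃ (P : Finset α) (Q : Finset β) (e e' s : ℕ), #P + #Q + e + e' + s ≤ n - 1 ∧
      ∃ R₁ ∈ LineSet P Q, ∃ R₂ ∈ ExpSet (α := α) (β := β) w₀ e,
      ∃ R₃ ∈ ExpSet (α := β) (β := α) w₀ e',
      ∃ R₄ ∈ CheapSet (α := α) (β := β) k₀ ℓ s,
        A = fun i => R₁ i ∪ R₂ i ∪ tr R₃ i ∪ R₄ i) :
    #S ≤ 2 ^ (n * (n - 1) + 22 * L + 2 * (w₀ * (w₀ + 4) * L) ^ 2) := by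
  classical
  set Idx : Finset (ℕ × ℕ × ℕ × ℕ × ℕ) :=
    (range n ×ˢ range n ×ˢ range n ×ˢ range n ×ˢ range n).filter
      (fun v => v.1 + v.2.1 + v.2.2.1 + v.2.2.2.1 + v.2.2.2.2 ≤ n - 1) with hIdx
  have hsub : S ⊆ Idx.biUnion (fun v =>
      CodeSet (α := α) (β := β) w₀ k₀ ℓ v.1 v.2.1 v.2.2.1 v.2.2.2.1 v.2.2.2.2) := by
    intro A hA
    obtain ⟨P, Q, e, e', s, hle, R₁, h₁, R₂, h₂, R₃, h₃, R₄, h₄, hAe⟩ := hS A hA
    rw [mem_biUnion]
    refine ⟨(#P, #Q, e, e', s), ?_, ?_⟩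
    · rw [hIdx, mem_filter]
      simp only [mem_product, mem_range]
      omega
    · simp only [CodeSet]
      rw [mem_biUnion]
      refine ⟨(P, Q), ?_, ?_⟩
      · rw [mem_product, mem_powersetCard, mem_powersetCard]
        exact ⟨⟨subset_univ _, rfl⟩, ⟨subset_univ _, rfl⟩⟩
      · rw [mem_image]
        refine ⟨(R₁, R₂, R₃, R₄), ?_, hAe.symm⟩
        simp only [mem_product]
        exact ⟨h₁, h₂, h₃, h₄⟩
  have hterm : ∀ v ∈ Idx, #(CodeSet (α := α) (β := β) w₀ k₀ ℓ v.1 v.2.1 v.2.2.1 v.2.2.2.1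
      v.2.2.2.2) ≤ 2 ^ (n * (n - 1) + 17 * L + 2 * (w₀ * (w₀ + 4) * L) ^ 2) := by
    rintro ⟨p, q, e, e', s⟩ hv
    rw [hIdx, mem_filter] at hv
    have hle := hv.2
    simp only at hle ⊢
    refine (card_CodeSet w₀ k₀ ℓ p q e e' s n L hα hβ hL (by omega) hLn hcheap).trans ?_
    refine (Nat.mul_le_mul_right _ (numeric n L p q hL hL5 hn (by omega))).trans ?_
    rw [← pow_add]
    apply Nat.pow_le_pow_right (by norm_num)
    have h1 : (n - L) * (e + e' + s) ≤ (n - L) * (n - 1 - p - q) :=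
      Nat.mul_le_mul_left _ (by omega)
    obtain ⟨a, ha⟩ := Nat.exists_eq_add_of_le hLn
    obtain ⟨u, hu⟩ : ∃ u, n - 1 - p - q = u := ⟨_, rfl⟩
    obtain ⟨b, hb⟩ : ∃ b, n - p = b := ⟨_, rfl⟩
    have hn1 : n - 1 = p + q + u := by omega
    have hnb : n = p + b := by omega
    have e1 : n - L = a := by omega
    rw [hu] at h1 ⊢
    rw [e1] at h1 ⊢
    rw [hb, hn1]
    have h2 : n * (p + q + u) = n * p + n * q + n * u := by ring
    have h3 : n * u = L * u + a * u := by rw [ha]; ring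
    have h4 : n * q = p * q + b * q := by rw [hnb]; ring
    nlinarith
  have hIc : #Idx ≤ 2 ^ (5 * L) := by
    calc #Idx ≤ #(range n ×ˢ range n ×ˢ range n ×ˢ range n ×ˢ range n) :=
          card_le_card (filter_subset _ _)
      _ = n ^ 5 := by simp only [card_product, card_range]; ring
      _ ≤ (2 ^ L) ^ 5 := Nat.pow_le_pow_left (by omega) _
      _ = _ := by rw [← pow_mul]; congr 1; ring
  calc #S ≤ _ := card_le_card hsub
    _ ≤ _ := card_biUnion_le
    _ ≤ _ := sum_le_sum hterm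
    _ = #Idx * 2 ^ (n * (n - 1) + 17 * L + 2 * (w₀ * (w₀ + 4) * L) ^ 2) := by
        rw [sum_const, smul_eq_mul]
    _ ≤ 2 ^ (5 * L) * 2 ^ (n * (n - 1) + 17 * L + 2 * (w₀ * (w₀ + 4) * L) ^ 2) :=
        Nat.mul_le_mul_right _ hIc
    _ = _ := by
        rw [← pow_add]; congr 1; ring

end Pool.Agent.H38.Schein
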