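import Mathlib
import Pool.Agent.H38.ScheinD

/-!
Helper file for MP_72bf7f_co: atypical matrices are rare.
-/

open Finset

set_option linter.unusedSectionVars false

namespace Pool.Agent.H38.Schein

variable {α β : Type*} [Fintype α] [Fintype β] [DecidableEq α] [DecidableEq β]

lemma card_superset (Y : Finset β) :
    #((univ : Finset (Finset β)).filter (fun S => Y ⊆ S)) = 2 ^ (Fintype.card β - #Y) := by
  have h : (univ : Finset (Finset β)).filter (fun S => Y ⊆ S) = Icc Y univ := by
    ext S; simp
  rw [h, card_Icc_finset (subset_univ _), card_univ]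

open Classical in
/-- matrices containing a `k × k` all-ones rectangle. -/
noncomputable def BadRect (k : ℕ) : Finset (α → Finset β) :=
  (univ : Finset (α → Finset β)).filter (fun A => ∃ (X : Finset α) (Y : Finset β),
      #X = k ∧ #Y = k ∧ ∀ i ∈ X, Y ⊆ A i)

lemma mem_BadRect {k : ℕ} {A : α → Finset β} : A ∈ BadRect (α := α) (β := β) k ↔
    ∃ (X : Finset α) (Y : Finset β), #X = k ∧ #Y = k ∧ ∀ i ∈ X, Y ⊆ A i := by
  classical
  unfold BadRect
  rw [mem_filter]
  simp only [mem_univ, true_and]

open Classical in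
/-- matrices containing a `k × k` all-ones rectangle are rare. -/
lemma card_T1 (n k L : ℕ) (hα : Fintype.card α = n) (hβ : Fintype.card β = n)
    (hL : n + 1 ≤ 2 ^ L) :
    #(BadRect (α := α) (β := β) k) * 2 ^ (k * k) ≤ 2 ^ (n * n + 2 * L * k) := by
  unfold BadRect
  by_cases hk : k ≤ n
  swap
  · have : (univ : Finset (α → Finset β)).filter (fun A => ∃ (X : Finset α) (Y : Finset β),
      #X = k ∧ #Y = k ∧ ∀ i ∈ X, Y ⊆ A i) = ∅ := by
      rw [filter_eq_empty_iff]
      rintro A _ ⟨X, Y, hX, _⟩
      have := card_le_univ X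
      rw [hα] at this
      omega
    rw [this]; simp
  have hsub : (univ : Finset (α → Finset β)).filter (fun A => ∃ (X : Finset α) (Y : Finset β),
      #X = k ∧ #Y = k ∧ ∀ i ∈ X, Y ⊆ A i) ⊆
      ((powersetCard k (univ : Finset α)) ×ˢ (powersetCard k (univ : Finset β))).biUnion
        (fun p => Fintype.piFinset (fun i => if i ∈ p.1 then
          (univ : Finset (Finset β)).filter (fun S => p.2 ⊆ S) else univ)) := by
    intro A hA
    obtain ⟨X, Y, hX, hY, h⟩ := (mem_filter.1 hA).2
    rw [mem_biUnion]
    refine ⟨(X, Y), by simp [hX, hY], ?_⟩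
    rw [Fintype.mem_piFinset]
    intro i
    simp only
    split_ifs with hi
    · exact mem_filter.2 ⟨mem_univ _, h i hi⟩
    · exact mem_univ _
  have hterm : ∀ p ∈ (powersetCard k (univ : Finset α)) ×ˢ (powersetCard k (univ : Finset β)),
      #(Fintype.piFinset (fun i => if i ∈ p.1 then
          (univ : Finset (Finset β)).filter (fun S => p.2 ⊆ S) else univ))
      ≤ 2 ^ (n * n - k * k) := by
    rintro ⟨X, Y⟩ hp
    rw [mem_product, mem_powersetCard, mem_powersetCard] at hp
    obtain ⟨⟨_, hX⟩, ⟨_, hY⟩⟩ := hp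
    simp only at hX hY ⊢
    rw [Fintype.card_piFinset]
    have h1 : ∀ i : α, #(if i ∈ X then
          (univ : Finset (Finset β)).filter (fun S => Y ⊆ S) else univ)
        = if i ∈ X then 2 ^ (n - k) else 2 ^ n := by
      intro i
      split_ifs
      · rw [card_superset, hβ, hY]
      · rw [card_univ, Fintype.card_finset, hβ]
    rw [prod_congr rfl (fun i _ => h1 i), prod_ite, prod_const, prod_const, ← pow_mul, ← pow_mul,
      ← pow_add]
    apply Nat.pow_le_pow_right (by norm_num)
    have h2 : (univ.filter (fun i => i ∈ X)) = X := by ext i; simp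
    have h3 : (univ.filter (fun i => i ∉ X)) = Xᶜ := by ext i; simp
    rw [h2, h3, card_compl, hα, hX]
    obtain ⟨a, rfl⟩ := Nat.exists_eq_add_of_le hk
    rw [Nat.add_sub_cancel_left]
    have : (k + a) * (k + a) = k * k + (a * k + (k + a) * a) := by ring
    omega
  have hkk : k * k ≤ n * n := Nat.mul_le_mul hk hk
  calc _ ≤ (∑ p ∈ (powersetCard k (univ : Finset α)) ×ˢ (powersetCard k (univ : Finset β)),
        2 ^ (n * n - k * k)) * 2 ^ (k * k) := by
        gcongr
        exact (card_le_card hsub).trans (card_biUnion_le.trans (sum_le_sum hterm))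
    _ = n.choose k * n.choose k * (2 ^ (n * n - k * k) * 2 ^ (k * k)) := by
        rw [sum_const, smul_eq_mul, card_product, card_powersetCard, card_powersetCard, card_univ,
          card_univ, hα, hβ]
        ring
    _ ≤ 2 ^ (L * k) * 2 ^ (L * k) * 2 ^ (n * n) := by
        have h4 : n.choose k ≤ 2 ^ (L * k) := by
          rw [pow_mul]
          exact (Nat.choose_le_pow _ _).trans (Nat.pow_le_pow_left (by omega) _)
        have h5 : 2 ^ (n * n - k * k) * 2 ^ (k * k) = 2 ^ (n * n) := by
          rw [← pow_add]; congr 1; omega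
        rw [h5]
        exact Nat.mul_le_mul_right _ (Nat.mul_le_mul h4 h4)
    _ = _ := by
        rw [← pow_add, ← pow_add]; congr 1; ring

lemma sum_inter_fix (r : Finset β) :
    ∑ r' : Finset β, 2 ^ #(r ∩ r') = 3 ^ #r * 2 ^ (Fintype.card β - #r) := by
  have h1 : ∀ r' : Finset β, 2 ^ #(r ∩ r') = ∏ j ∈ r', (if j ∈ r then 2 else 1) := by
    intro r'
    rw [prod_ite, prod_const, prod_const_one, mul_one]
    congr 2
    ext j; simp [and_comm]
  have h2 : ∑ r' : Finset β, ∏ j ∈ r', (if j ∈ r then 2 else 1) =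
      ∏ j : β, (1 + (if j ∈ r then 2 else 1)) := by
    rw [prod_one_add]
    rw [powerset_univ]
  rw [sum_congr rfl (fun r' _ => h1 r'), h2]
  have h3 : ∀ j : β, (1 + (if j ∈ r then 2 else 1)) = if j ∈ r then 3 else 2 := by
    intro j; split_ifs <;> rfl
  rw [prod_congr rfl (fun j _ => h3 j), prod_ite, prod_const, prod_const]
  have h4 : (univ.filter (fun i => i ∈ r)) = r := by ext i; simp
  have h5 : (univ.filter (fun i => i ∉ r)) = rᶜ := by ext i; simp
  rw [h4, h5, card_compl]

lemma sum_inter : ∑ r : Finset β, ∑ r' : Finset β, 2 ^ #(r ∩ r') = 5 ^ Fintype.card β := by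
  rw [sum_congr rfl (fun r _ => sum_inter_fix r)]
  have := Finset.sum_pow_mul_eq_add_pow (3 : ℕ) 2 (univ : Finset β)
  rw [powerset_univ, card_univ] at this
  exact this

/-- pairs of sets with a large intersection. -/
def BigPairs (ℓ : ℕ) : Finset (Finset β × Finset β) :=
  univ.filter (fun p => ℓ < #(p.1 ∩ p.2))

lemma card_BigPairs (ℓ : ℕ) :
    #(BigPairs (β := β) ℓ) * 2 ^ (ℓ + 1) ≤ 5 ^ Fintype.card β := by
  rw [← sum_inter (β := β), ← Fintype.sum_prod_type']
  calc #(BigPairs (β := β) ℓ) * 2 ^ (ℓ + 1) = ∑ _p ∈ BigPairs (β := β) ℓ, 2 ^ (ℓ + 1) := by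
        rw [sum_const, smul_eq_mul]
    _ ≤ ∑ p ∈ BigPairs (β := β) ℓ, 2 ^ #(p.1 ∩ p.2) := by
        apply sum_le_sum
        intro p hp
        exact Nat.pow_le_pow_right (by norm_num) (mem_filter.1 hp).2
    _ ≤ _ := sum_le_sum_of_subset (subset_univ _)

/-- there are few sets of size at most `ℓ`. -/
lemma card_small' (ℓ : ℕ) (hℓ : ℓ ≤ Fintype.card β) :
    #((univ : Finset (Finset β)).filter (fun X => #X ≤ ℓ)) * (2 ^ ℓ * 3 ^ (Fintype.card β - ℓ))
      ≤ 5 ^ Fintype.card β := by
  have := Finset.sum_pow_mul_eq_add_pow (2 : ℕ) 3 (univ : Finset β)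
  rw [powerset_univ, card_univ] at this
  rw [show (5 : ℕ) = 2 + 3 by norm_num, ← this]
  calc _ = ∑ _X ∈ (univ : Finset (Finset β)).filter (fun X => #X ≤ ℓ),
        (2 ^ ℓ * 3 ^ (Fintype.card β - ℓ)) := by rw [sum_const, smul_eq_mul]
    _ ≤ ∑ X ∈ (univ : Finset (Finset β)).filter (fun X => #X ≤ ℓ),
        2 ^ #X * 3 ^ (Fintype.card β - #X) := by
        apply sum_le_sum
        intro X hX
        have h1 := (mem_filter.1 hX).2
        obtain ⟨a, ha⟩ := Nat.exists_eq_add_of_le h1
        have h2 : Fintype.card β - #X = (Fintype.card β - ℓ) + a := by omega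
        rw [h2, ha, pow_add, pow_add]
        have h3 : 2 ^ a ≤ 3 ^ a := Nat.pow_le_pow_left (by norm_num) a
        calc 2 ^ #X * 2 ^ a * 3 ^ (Fintype.card β - (#X + a))
            ≤ 2 ^ #X * 3 ^ a * 3 ^ (Fintype.card β - (#X + a)) := by gcongr
          _ = _ := by ring
    _ ≤ _ := sum_le_sum_of_subset (subset_univ _)

/-- a matching of size `m` of rows with large common intersections -/
def HasMatching (ℓ m : ℕ) (A : α → Finset β) : Prop :=
  ∃ f : Fin m → Bool → α, Function.Injective (fun p : Fin m × Bool => f p.1 p.2) ∧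
    ∀ a, ℓ < #(A (f a false) ∩ A (f a true))

lemma exists_vertex_cover (A : α → Finset β) (ℓ m : ℕ) (h : ¬ HasMatching ℓ m A) :
    ∃ W : Finset α, #W ≤ 2 * m ∧ ∀ i ∉ W, ∀ i' ∉ W, i ≠ i' → #(A i ∩ A i') ≤ ℓ := by
  by_contra hcon
  push Not at hcon
  apply h
  have key : ∀ a ≤ m, HasMatching ℓ a A := by
    intro a
    induction a with
    | zero =>
      intro _
      exact ⟨fun x => x.elim0, fun x => x.1.elim0, fun x => x.elim0⟩
    | succ a ih =>
      intro ha
      obtain ⟨f, hf, hbig⟩ := ih (by omega)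
      have hWc : #((univ : Finset (Fin a × Bool)).image (fun p => f p.1 p.2)) ≤ 2 * m := by
        calc _ ≤ #(univ : Finset (Fin a × Bool)) := card_image_le
          _ = a * 2 := by simp
          _ ≤ _ := by omega
      obtain ⟨i, hi, i', hi', hne, hb⟩ := hcon _ hWc
      have hi2 : ∀ x b, f x b ≠ i := fun x b h => hi (mem_image.2 ⟨(x, b), mem_univ _, h⟩)
      have hi2' : ∀ x b, f x b ≠ i' := fun x b h => hi' (mem_image.2 ⟨(x, b), mem_univ _, h⟩)
      refine ⟨Fin.snoc (α := fun _ => Bool → α) f (fun b => if b then i' else i), ?_, ?_⟩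
      · rintro ⟨x, b⟩ ⟨y, c⟩ hxy
        simp only at hxy
        induction x using Fin.lastCases with
        | last =>
          induction y using Fin.lastCases with
          | last =>
            simp only [Fin.snoc_last] at hxy
            cases b <;> cases c <;> simp_all
          | cast y =>
            simp only [Fin.snoc_last, Fin.snoc_castSucc] at hxy
            cases b
            · exact absurd hxy.symm (by simpa using hi2 y c)
            · exact absurd hxy.symm (by simpa using hi2' y c)
        | cast x =>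
          induction y using Fin.lastCases with
          | last =>
            simp only [Fin.snoc_last, Fin.snoc_castSucc] at hxy
            cases c
            · exact absurd hxy (by simpa using hi2 x b)
            · exact absurd hxy (by simpa using hi2' x b)
          | cast y =>
            simp only [Fin.snoc_castSucc] at hxy
            have := @hf (x, b) (y, c) hxy
            simp only [Prod.mk.injEq] at this
            rw [this.1, this.2]
      · intro x
        induction x using Fin.lastCases with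
        | last => simpa using hb
        | cast x => simpa using hbig x
  exact key m (le_refl _)

open Classical in
/-- matrices with a matching of size `m` -/
noncomputable def BadMatch (ℓ m : ℕ) : Finset (α → Finset β) :=
  (univ : Finset (α → Finset β)).filter (HasMatching ℓ m)

lemma mem_BadMatch {ℓ m : ℕ} {A : α → Finset β} : A ∈ BadMatch (α := α) (β := β) ℓ m ↔
    HasMatching ℓ m A := by
  classical
  unfold BadMatch
  rw [mem_filter]
  simp only [mem_univ, true_and]

open Classical in
lemma card_T2 (n ℓ m L : ℕ) (hα : Fintype.card α = n) (hβ : Fintype.card β = n)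
    (hL : n + 1 ≤ 2 ^ L) :
    #(BadMatch (α := α) (β := β) ℓ m) * 2 ^ (2 * n * m) ≤
      2 ^ (n * n + 2 * L * m) * #(BigPairs (β := β) ℓ) ^ m := by
  unfold BadMatch
  set F : Finset (Fin m → Bool → α) :=
    univ.filter (fun f => Function.Injective (fun p : Fin m × Bool => f p.1 p.2)) with hF
  have hsub : (univ : Finset (α → Finset β)).filter (HasMatching ℓ m) ⊆
      F.biUnion (fun f => univ.filter (fun A : α → Finset β =>
        ∀ a, ℓ < #(A (f a false) ∩ A (f a true)))) := by
    intro A hA
    obtain ⟨f, hf, hb⟩ := (mem_filter.1 hA).2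
    rw [mem_biUnion]
    exact ⟨f, mem_filter.2 ⟨mem_univ _, hf⟩, mem_filter.2 ⟨mem_univ _, hb⟩⟩
  have hterm : ∀ f ∈ F, #(univ.filter (fun A : α → Finset β =>
        ∀ a, ℓ < #(A (f a false) ∩ A (f a true)))) * 2 ^ (2 * n * m) ≤
        #(BigPairs (β := β) ℓ) ^ m * 2 ^ (n * n) := by
    intro f hf
    have hinj := (mem_filter.1 hf).2
    set Rg : Finset α := (univ : Finset (Fin m × Bool)).image (fun p => f p.1 p.2) with hRg
    have hRgc : #Rg = 2 * m := by
      rw [hRg, card_image_of_injective _ hinj, card_univ, Fintype.card_prod, Fintype.card_fin,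
        Fintype.card_bool, mul_comm]
    have hmn : 2 * m ≤ n := by
      rw [← hRgc, ← hα]; exact card_le_univ _
    have h1 : #(univ.filter (fun A : α → Finset β =>
        ∀ a, ℓ < #(A (f a false) ∩ A (f a true)))) ≤
        #((Fintype.piFinset (fun _ : Fin m => BigPairs (β := β) ℓ)) ×ˢ
          (univ : Finset ((Rgᶜ : Finset α) → Finset β))) := by
      apply card_le_card_of_injOn
        (fun A => ((fun a => (A (f a false), A (f a true))), fun i => A i.1))
      · intro A hA
        have hA2 := (mem_filter.1 hA).2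
        simp only [coe_product, Set.mem_prod, mem_coe, Fintype.mem_piFinset, mem_univ, and_true]
        intro a
        exact mem_filter.2 ⟨mem_univ _, hA2 a⟩
      · intro A _ B _ hAB
        simp only [Prod.mk.injEq] at hAB
        obtain ⟨h2, h3⟩ := hAB
        funext i
        by_cases hi : i ∈ Rg
        · obtain ⟨⟨a, b⟩, _, rfl⟩ := mem_image.1 hi
          have h4 := congrFun h2 a
          simp only [Prod.mk.injEq] at h4
          cases b
          · exact h4.1
          · exact h4.2
        · have h5 := congrFun h3 ⟨i, mem_compl.2 hi⟩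
          exact h5
    have h2 : #((Fintype.piFinset (fun _ : Fin m => BigPairs (β := β) ℓ)) ×ˢ
          (univ : Finset ((Rgᶜ : Finset α) → Finset β))) =
        #(BigPairs (β := β) ℓ) ^ m * 2 ^ (n * (n - 2 * m)) := by
      rw [card_product, Fintype.card_piFinset, prod_const, card_univ, Fintype.card_fin, card_univ,
        Fintype.card_fun, Fintype.card_finset, Fintype.card_coe, card_compl, hRgc, hα, hβ, pow_mul]
    rw [h2] at h1
    calc _ ≤ #(BigPairs (β := β) ℓ) ^ m * 2 ^ (n * (n - 2 * m)) * 2 ^ (2 * n * m) :=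
          Nat.mul_le_mul_right _ h1
      _ = _ := by
          rw [mul_assoc, ← pow_add]
          congr 2
          obtain ⟨a, rfl⟩ := Nat.exists_eq_add_of_le hmn
          rw [Nat.add_sub_cancel_left]; ring
  have hFc : #F ≤ 2 ^ (2 * L * m) := by
    calc #F ≤ #(univ : Finset (Fin m → Bool → α)) := card_le_card (filter_subset _ _)
      _ = (n ^ 2) ^ m := by
          rw [card_univ, Fintype.card_fun, Fintype.card_fun, Fintype.card_fin, Fintype.card_bool, hα]
      _ ≤ ((2 ^ L) ^ 2) ^ m :=
          Nat.pow_le_pow_left (Nat.pow_le_pow_left (by omega) _) _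
      _ = _ := by rw [← pow_mul, ← pow_mul]; congr 1; ring
  calc _ ≤ (∑ f ∈ F, #(univ.filter (fun A : α → Finset β =>
        ∀ a, ℓ < #(A (f a false) ∩ A (f a true))))) * 2 ^ (2 * n * m) :=
        Nat.mul_le_mul_right _ ((card_le_card hsub).trans card_biUnion_le)
    _ = ∑ f ∈ F, #(univ.filter (fun A : α → Finset β =>
        ∀ a, ℓ < #(A (f a false) ∩ A (f a true)))) * 2 ^ (2 * n * m) := by rw [sum_mul]
    _ ≤ ∑ _f ∈ F, #(BigPairs (β := β) ℓ) ^ m * 2 ^ (n * n) := sum_le_sum hterm
    _ = #F * (#(BigPairs (β := β) ℓ) ^ m * 2 ^ (n * n)) := by rw [sum_const, smul_eq_mul]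
    _ ≤ 2 ^ (2 * L * m) * (#(BigPairs (β := β) ℓ) ^ m * 2 ^ (n * n)) :=
        Nat.mul_le_mul_right _ hFc
    _ = _ := by rw [pow_add]; ring

end Pool.Agent.H38.Schein
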