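import Mathlib
import Pool.Agent.H38.ScheinE

/-!
Helper file for MP_72bf7f_co: the upper bound for the number of matrices of Boolean rank `< n`.
-/

open Finset

set_option linter.unusedSectionVars false

namespace Pool.Agent.H38.Schein

lemma small_bound (n ℓ S : ℕ) (hℓ : 5 * ℓ ≤ 2 * n) (hS : S * (2 ^ ℓ * 3 ^ (n - ℓ)) ≤ 5 ^ n) :
    S ^ 40 ≤ 2 ^ (39 * n) := by
  have h1 : S ^ 40 * (2 ^ (40 * ℓ) * 3 ^ (40 * (n - ℓ))) ≤ 5 ^ (40 * n) := by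
    have := Nat.pow_le_pow_left hS 40
    calc _ = (S * (2 ^ ℓ * 3 ^ (n - ℓ))) ^ 40 := by
          rw [mul_pow, mul_pow, ← pow_mul, ← pow_mul]; congr 3 <;> ring
      _ ≤ (5 ^ n) ^ 40 := this
      _ = _ := by rw [← pow_mul]; congr 1; ring
  obtain ⟨d, hd⟩ : ∃ d, 16 * n = 40 * ℓ + d := ⟨16 * n - 40 * ℓ, by omega⟩
  have h2 : 40 * (n - ℓ) = 24 * n + d := by omega
  have h3 : 2 ^ (16 * n) * 3 ^ (24 * n) ≤ 2 ^ (40 * ℓ) * 3 ^ (40 * (n - ℓ)) := by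
    rw [h2, hd, pow_add, pow_add]
    have : 2 ^ d ≤ 3 ^ d := Nat.pow_le_pow_left (by norm_num) d
    calc _ = 2 ^ (40 * ℓ) * 3 ^ (24 * n) * 2 ^ d := by ring
      _ ≤ 2 ^ (40 * ℓ) * 3 ^ (24 * n) * 3 ^ d := Nat.mul_le_mul_left _ this
      _ = _ := by ring
  have h4 : (5 : ℕ) ^ (40 * n) ≤ 2 ^ (39 * n) * (2 ^ (16 * n) * 3 ^ (24 * n)) := by
    have h5 : (5 : ℕ) ^ 40 ≤ 2 ^ 39 * (2 ^ 16 * 3 ^ 24) := by norm_num
    have := Nat.pow_le_pow_left h5 n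
    calc _ = ((5 : ℕ) ^ 40) ^ n := by rw [← pow_mul]
      _ ≤ _ := this
      _ = _ := by rw [mul_pow, mul_pow, ← pow_mul, ← pow_mul, ← pow_mul]
  have h6 : S ^ 40 * (2 ^ (16 * n) * 3 ^ (24 * n)) ≤ 2 ^ (39 * n) * (2 ^ (16 * n) * 3 ^ (24 * n)) :=
    (Nat.mul_le_mul_left _ h3).trans (h1.trans h4)
  exact Nat.le_of_mul_le_mul_right h6 (by positivity)

lemma cheap_bound (n ℓ S E : ℕ) (hℓ : 5 * ℓ ≤ 2 * n) (hS : S * (2 ^ ℓ * 3 ^ (n - ℓ)) ≤ 5 ^ n)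
    (hE : 40 * E ≤ n) : 2 ^ E * S ≤ 2 ^ n := by
  have h1 := small_bound n ℓ S hℓ hS
  have h2 : (2 ^ E * S) ^ 40 ≤ (2 ^ n) ^ 40 := by
    calc (2 ^ E * S) ^ 40 = 2 ^ (40 * E) * S ^ 40 := by
          rw [mul_pow, ← pow_mul]; congr 2; ring
      _ ≤ 2 ^ n * 2 ^ (39 * n) := Nat.mul_le_mul (Nat.pow_le_pow_right (by norm_num) hE) h1
      _ = _ := by rw [← pow_add, ← pow_mul]; congr 1; ring
  exact (Nat.pow_le_pow_iff_left (by norm_num)).1 h2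

lemma match_bound (n ℓ L T B : ℕ) (hℓ : 2 * n ≤ 5 * (ℓ + 1)) (hB : B * 2 ^ (ℓ + 1) ≤ 5 ^ n)
    (hT : T * 2 ^ (2 * n * 20) ≤ 2 ^ (n * n + 2 * L * 20) * B ^ 20) (hn : 1 ≤ n)
    (hL : 80 * L ≤ n) : T ≤ 2 ^ (n * (n - 1)) := by
  have h1 : B ^ 20 * 2 ^ (8 * n) ≤ 5 ^ (20 * n) := by
    calc B ^ 20 * 2 ^ (8 * n) ≤ B ^ 20 * 2 ^ (20 * (ℓ + 1)) :=
          Nat.mul_le_mul_left _ (Nat.pow_le_pow_right (by norm_num) (by omega))
      _ = (B * 2 ^ (ℓ + 1)) ^ 20 := by rw [mul_pow, ← pow_mul]; congr 2; ring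
      _ ≤ (5 ^ n) ^ 20 := Nat.pow_le_pow_left hB 20
      _ = _ := by rw [← pow_mul]; congr 1; ring
  -- 2 ^ (40 L + n) * 5 ^ (20 n) ≤ 2 ^ (48 n)
  have h2 : 2 ^ (40 * L + n) * 5 ^ (20 * n) ≤ 2 ^ (48 * n) := by
    have h3 : (2 ^ (40 * L + n) * 5 ^ (20 * n)) ^ 2 ≤ (2 ^ (48 * n)) ^ 2 := by
      calc (2 ^ (40 * L + n) * 5 ^ (20 * n)) ^ 2 = 2 ^ (80 * L) * (2 ^ (2 * n) * 5 ^ (40 * n)) := by
            rw [mul_pow, ← pow_mul, ← pow_mul, ← mul_assoc, ← pow_add]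
            congr 2 <;> ring
        _ ≤ 2 ^ n * (2 ^ (2 * n) * 5 ^ (40 * n)) :=
            Nat.mul_le_mul_right _ (Nat.pow_le_pow_right (by norm_num) hL)
        _ = (2 ^ 3 * 5 ^ 40) ^ n := by
            rw [mul_pow, ← pow_mul, ← pow_mul, ← mul_assoc, ← pow_add]
            congr 2; ring
        _ ≤ (2 ^ 96) ^ n := Nat.pow_le_pow_left (by norm_num) n
        _ = _ := by rw [← pow_mul, ← pow_mul]; congr 1; ring
    exact (Nat.pow_le_pow_iff_left (by norm_num)).1 h3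
  have h4 : T * 2 ^ n * 2 ^ (48 * n) * 2 ^ (40 * L) ≤ 2 ^ (n * n) * 2 ^ (48 * n) * 2 ^ (40 * L) := by
    calc T * 2 ^ n * 2 ^ (48 * n) * 2 ^ (40 * L)
        = (T * 2 ^ (2 * n * 20)) * (2 ^ n * 2 ^ (8 * n)) * 2 ^ (40 * L) := by
          have : (2 : ℕ) ^ (48 * n) = 2 ^ (2 * n * 20) * 2 ^ (8 * n) := by
            rw [← pow_add]; congr 1; ring
          rw [this]; ring
      _ ≤ (2 ^ (n * n + 2 * L * 20) * B ^ 20) * (2 ^ n * 2 ^ (8 * n)) * 2 ^ (40 * L) := by gcongr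
      _ = (2 ^ (n * n) * 2 ^ (40 * L)) * (B ^ 20 * 2 ^ (8 * n)) * 2 ^ (40 * L + n) := by
          have : (2 : ℕ) ^ (n * n + 2 * L * 20) = 2 ^ (n * n) * 2 ^ (40 * L) := by
            rw [← pow_add]; congr 1; ring
          rw [this, pow_add 2 (40 * L) n]; ring
      _ ≤ (2 ^ (n * n) * 2 ^ (40 * L)) * 5 ^ (20 * n) * 2 ^ (40 * L + n) := by gcongr
      _ = (2 ^ (n * n) * 2 ^ (40 * L)) * (2 ^ (40 * L + n) * 5 ^ (20 * n)) := by ring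
      _ ≤ (2 ^ (n * n) * 2 ^ (40 * L)) * 2 ^ (48 * n) := by gcongr
      _ = _ := by ring
  have h5 : T * 2 ^ n ≤ 2 ^ (n * n) :=
    Nat.le_of_mul_le_mul_right (Nat.le_of_mul_le_mul_right h4 (by positivity)) (by positivity)
  have h6 : (2 : ℕ) ^ (n * n) = 2 ^ (n * (n - 1)) * 2 ^ n := by
    rw [← pow_add]; congr 1
    obtain ⟨a, rfl⟩ := Nat.exists_eq_add_of_le hn
    rw [Nat.add_sub_cancel_left]; ring
  rw [h6] at h5
  exact Nat.le_of_mul_le_mul_right h5 (by positivity)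

open Classical in
/-- the matrices of Boolean rank less than `n` -/
noncomputable def Bad (n : ℕ) : Finset (Fin n → Finset (Fin n)) :=
  univ.filter (fun A => ∃ (X : Fin (n - 1) → Finset (Fin n)) (Y : Fin (n - 1) → Finset (Fin n)),
    IsCover A X Y)

lemma mem_Bad {n : ℕ} {A : Fin n → Finset (Fin n)} : A ∈ Bad n ↔
    ∃ (X : Fin (n - 1) → Finset (Fin n)) (Y : Fin (n - 1) → Finset (Fin n)), IsCover A X Y := by
  classical
  unfold Bad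
  rw [mem_filter]
  simp only [mem_univ, true_and]

lemma cheap_final (n L ℓ k₀ : ℕ) (hL : n + 1 ≤ 2 ^ L) (hLn : L ≤ n)
    (hℓ1 : 5 * ℓ ≤ 2 * n) (hH : 40 * (1 + L + L * k₀) ≤ n) :
    #(CheapRects (α := Fin n) (β := Fin n) k₀ ℓ) ≤ 2 ^ (n - L) := by
  have hcf : Fintype.card (Fin n) = n := Fintype.card_fin n
  have hsmall := card_small' (β := Fin n) ℓ (by rw [hcf]; omega)
  rw [hcf] at hsmall
  have h1 := card_CheapRects (α := Fin n) (β := Fin n) k₀ ℓ L n _ hcf hcf hL (le_refl _)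
    (le_refl _)
  have h2 := cheap_bound n ℓ _ (1 + L + L * k₀) hℓ1 hsmall hH
  generalize #((univ : Finset (Finset (Fin n))).filter (fun X => #X ≤ ℓ)) = S at *
  generalize #(CheapRects (α := Fin n) (β := Fin n) k₀ ℓ) = T at *
  have h3 : T * 2 ^ L ≤ 2 ^ (n - L) * 2 ^ L := by
    calc _ ≤ (2 * (2 ^ (L * k₀) * S)) * 2 ^ L := Nat.mul_le_mul_right _ h1
      _ = 2 ^ (1 + L + L * k₀) * S := by
          rw [pow_add, pow_add, pow_one]; ring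
      _ ≤ 2 ^ n := h2
      _ = _ := by rw [← pow_add]; congr 1; omega
  exact Nat.le_of_mul_le_mul_right h3 (by positivity)

lemma rect_final (n L k₀ : ℕ) (hL : n + 1 ≤ 2 ^ L) (hn : 1 ≤ n) (hk₀ : k₀ = 2 * L + Nat.sqrt n) :
    #(BadRect (α := Fin n) (β := Fin n) (k₀ + 1)) ≤ 2 ^ (n * (n - 1)) := by
  have hcf : Fintype.card (Fin n) = n := Fintype.card_fin n
  have h1 := card_T1 (α := Fin n) (β := Fin n) n (k₀ + 1) L hcf hcf hL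
  generalize #(BadRect (α := Fin n) (β := Fin n) (k₀ + 1)) = T at *
  have h2 : n * n + 2 * L * (k₀ + 1) ≤ n * (n - 1) + (k₀ + 1) * (k₀ + 1) := by
    have h3 : n < (Nat.sqrt n + 1) * (Nat.sqrt n + 1) := Nat.lt_succ_sqrt n
    have h4 : n * n = n * (n - 1) + n := by
      obtain ⟨a, ha⟩ := Nat.exists_eq_add_of_le hn
      have : n - 1 = a := by omega
      rw [this, ha]; ring
    rw [h4]
    have h5 : (k₀ + 1) * (k₀ + 1) = 2 * L * (k₀ + 1) + (Nat.sqrt n + 1) * (k₀ + 1) := by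
      rw [hk₀]; ring
    have h6 : (Nat.sqrt n + 1) * (Nat.sqrt n + 1) ≤ (Nat.sqrt n + 1) * (k₀ + 1) :=
      Nat.mul_le_mul_left _ (by omega)
    omega
  have h7 : T * 2 ^ ((k₀ + 1) * (k₀ + 1)) ≤ 2 ^ (n * (n - 1)) * 2 ^ ((k₀ + 1) * (k₀ + 1)) := by
    calc _ ≤ 2 ^ (n * n + 2 * L * (k₀ + 1)) := h1
      _ ≤ 2 ^ (n * (n - 1) + (k₀ + 1) * (k₀ + 1)) := Nat.pow_le_pow_right (by norm_num) h2
      _ = _ := by rw [pow_add]
  exact Nat.le_of_mul_le_mul_right h7 (by positivity)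

lemma match_final (n L ℓ : ℕ) (hL : n + 1 ≤ 2 ^ L) (hn : 1 ≤ n) (hℓ2 : 2 * n ≤ 5 * (ℓ + 1))
    (h80 : 80 * L ≤ n) :
    #(BadMatch (α := Fin n) (β := Fin n) ℓ 20) ≤ 2 ^ (n * (n - 1)) := by
  have hcf : Fintype.card (Fin n) = n := Fintype.card_fin n
  have h1 := card_T2 (α := Fin n) (β := Fin n) n ℓ 20 L hcf hcf hL
  have h2 := card_BigPairs (β := Fin n) ℓ
  rw [hcf] at h2
  exact match_bound n ℓ L _ _ hℓ2 h2 h1 hn h80

lemma pow_final (N L : ℕ) (hL5 : 5 ≤ L) :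
    (2:ℕ) ^ (N + 22 * L + 2 * (40 * (40 + 4) * L) ^ 2) + 3 * 2 ^ N
      ≤ 2 ^ (N + 6200000 * L ^ 2) := by
  have e1 : (2:ℕ) ^ (N + 22 * L + 2 * (40 * (40 + 4) * L) ^ 2) =
      2 ^ N * 2 ^ (22 * L + 2 * (40 * (40 + 4) * L) ^ 2) := by
    rw [← pow_add, add_assoc]
  have e2 : (3:ℕ) ≤ 2 ^ (22 * L + 2 * (40 * (40 + 4) * L) ^ 2) := by
    calc (3:ℕ) ≤ 2 ^ 2 := by norm_num
      _ ≤ _ := Nat.pow_le_pow_right (by norm_num) (by nlinarith)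
  calc _ = 2 ^ N * (2 ^ (22 * L + 2 * (40 * (40 + 4) * L) ^ 2) + 3) := by
        rw [e1]; ring
    _ ≤ 2 ^ N * (2 ^ (22 * L + 2 * (40 * (40 + 4) * L) ^ 2) +
          2 ^ (22 * L + 2 * (40 * (40 + 4) * L) ^ 2)) := by gcongr
    _ = 2 ^ (N + (22 * L + 2 * (40 * (40 + 4) * L) ^ 2 + 1)) := by
        rw [pow_add, pow_succ]; ring
    _ ≤ _ := by
        apply Nat.pow_le_pow_right (by norm_num)
        nlinarith

theorem card_Bad_le (n L : ℕ) (hL : n + 1 ≤ 2 ^ L) (hL5 : 5 ≤ L)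
    (hH : 40 * (1 + L + L * (2 * L + Nat.sqrt n)) ≤ n) :
    #(Bad n) ≤ 2 ^ (n * (n - 1) + 6200000 * L ^ 2) := by
  have hLn : L ≤ n := by nlinarith [Nat.zero_le (L * (2 * L + Nat.sqrt n))]
  have h80 : 80 * L ≤ n := by
    have : 10 * L ≤ L * (2 * L + Nat.sqrt n) := by nlinarith [Nat.zero_le (L * Nat.sqrt n)]
    omega
  have hn : 32 ≤ n := by omega
  obtain ⟨k₀, hk₀⟩ : ∃ k₀, k₀ = 2 * L + Nat.sqrt n := ⟨_, rfl⟩
  obtain ⟨ℓ, hℓ⟩ : ∃ ℓ, ℓ = 2 * n / 5 := ⟨_, rfl⟩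
  rw [← hk₀] at hH
  have hℓ1 : 5 * ℓ ≤ 2 * n := by omega
  have hℓ2 : 2 * n ≤ 5 * (ℓ + 1) := by omega
  have hcf : Fintype.card (Fin n) = n := Fintype.card_fin n
  have hcheap := cheap_final n L ℓ k₀ hL hLn hℓ1 hH
  have hS1c := rect_final n L k₀ hL (by omega) hk₀
  have hS2c := match_final n L ℓ hL (by omega) hℓ2 h80
  obtain ⟨S1, hS1⟩ : ∃ S1, S1 = BadRect (α := Fin n) (β := Fin n) (k₀ + 1) := ⟨_, rfl⟩
  obtain ⟨S2, hS2⟩ : ∃ S2, S2 = BadMatch (α := Fin n) (β := Fin n) ℓ 20 := ⟨_, rfl⟩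
  obtain ⟨S3, hS3⟩ : ∃ S3, S3 = S2.image tr := ⟨_, rfl⟩
  have hS3c : #S3 ≤ 2 ^ (n * (n - 1)) := by
    rw [hS3, hS2]; exact card_image_le.trans hS2c
  rw [← hS1] at hS1c
  rw [← hS2] at hS2c
  obtain ⟨S, hS⟩ : ∃ S, S = (Bad n) \ (S1 ∪ S2 ∪ S3) := ⟨_, rfl⟩
  have hSc : #S ≤ 2 ^ (n * (n - 1) + 22 * L + 2 * (40 * (40 + 4) * L) ^ 2) := by
    apply card_codes (α := Fin n) (β := Fin n) 40 k₀ ℓ n L hcf hcf hL hL5 hLn hn hcheap
    intro A hA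
    rw [hS, mem_sdiff] at hA
    obtain ⟨hA1, hA2⟩ := hA
    obtain ⟨X, Y, hc, hr, hcp⟩ := exists_minimal_cover A (mem_Bad.1 hA1)
    rw [mem_union, mem_union] at hA2
    push Not at hA2
    obtain ⟨⟨hn1, hn2⟩, hn3⟩ := hA2
    have hm : ¬ HasMatching ℓ 20 A := fun h => hn2 (by rw [hS2]; exact mem_BadMatch.2 h)
    have hm' : ¬ HasMatching ℓ 20 (tr A) := fun h =>
      hn3 (by
        rw [hS3, mem_image]
        exact ⟨tr A, by rw [hS2]; exact mem_BadMatch.2 h, tr_tr A⟩)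
    obtain ⟨W, hWc, hW⟩ := exists_vertex_cover A ℓ 20 hm
    obtain ⟨W', hWc', hW'⟩ := exists_vertex_cover (tr A) ℓ 20 hm'
    refine decomposition hc hr hcp k₀ ℓ 40 W W' hWc hWc' hW hW' ?_
    intro X Y hXY
    by_contra hcon
    push Not at hcon
    obtain ⟨X', hX', hX'c⟩ := exists_subset_card_eq (show k₀ + 1 ≤ #X from hcon.1)
    obtain ⟨Y', hY', hY'c⟩ := exists_subset_card_eq (show k₀ + 1 ≤ #Y from hcon.2)
    exact hn1 (by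
      rw [hS1]
      exact mem_BadRect.2 ⟨X', Y', hX'c, hY'c, fun i hi => hY'.trans (hXY i (hX' hi))⟩)
  have hfin : #(Bad n) ≤ #S + (#S1 + #S2 + #S3) := by
    calc #(Bad n) ≤ #(S ∪ (S1 ∪ S2 ∪ S3)) := by
          apply card_le_card
          intro A hA
          by_cases h : A ∈ S1 ∪ S2 ∪ S3
          · exact mem_union_right _ h
          · exact mem_union_left _ (by rw [hS]; exact mem_sdiff.2 ⟨hA, h⟩)
      _ ≤ #S + #(S1 ∪ S2 ∪ S3) := card_union_le _ _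
      _ ≤ #S + (#S1 + #S2 + #S3) := by
          gcongr
          exact (card_union_le _ _).trans (Nat.add_le_add_right (card_union_le _ _) _)
  have hpow := pow_final (n * (n - 1)) L hL5
  refine le_trans ?_ hpow
  refine hfin.trans ?_
  refine Nat.add_le_add hSc ?_
  linarith

end Pool.Agent.H38.Schein
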