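import Mathlib
import Pool.Agent.H38.ScheinF

/-!
Helper file for MP_72bf7f_co: the lower bound.
-/

open Finset

set_option linter.unusedSectionVars false

namespace Pool.Agent.H38.Schein

/-- the matrix obtained from `A'` by adding the union of the rows in `K` as the last row. -/
def addUnion {m : ℕ} (A' : Fin m → Finset (Fin (m + 1))) (K : Finset (Fin m)) :
    Fin (m + 1) → Finset (Fin (m + 1)) :=
  Fin.snoc (α := fun _ => Finset (Fin (m + 1))) A' (K.biUnion A')

lemma addUnion_mem_Bad {m : ℕ} (A' : Fin m → Finset (Fin (m + 1))) (K : Finset (Fin m)) :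
    addUnion A' K ∈ Bad (m + 1) := by
  classical
  rw [mem_Bad]
  refine ⟨fun t => if t ∈ K then {Fin.castSucc t, Fin.last m} else {Fin.castSucc t},
    fun t => A' t, ?_⟩
  intro i j
  simp only [addUnion]
  induction i using Fin.lastCases with
  | last =>
    simp only [Fin.snoc_last, mem_biUnion]
    constructor
    · rintro ⟨t, ht, hj⟩
      exact ⟨t, by rw [if_pos ht]; simp, hj⟩
    · rintro ⟨t, ht, hj⟩
      refine ⟨t, ?_, hj⟩
      by_contra hcon
      change Fin.last m ∈ (if t ∈ K then {Fin.castSucc t, Fin.last m} else {Fin.castSucc t} :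
        Finset (Fin (m + 1))) at ht
      rw [if_neg hcon, mem_singleton] at ht
      exact absurd ht.symm (Fin.castSucc_lt_last t).ne
  | cast i =>
    simp only [Fin.snoc_castSucc]
    constructor
    · intro hj
      refine ⟨i, ?_, hj⟩
      change Fin.castSucc i ∈ (if i ∈ K then {Fin.castSucc i, Fin.last m} else {Fin.castSucc i} :
        Finset (Fin (m + 1)))
      split_ifs <;> simp
    · rintro ⟨t, ht, hj⟩
      change Fin.castSucc i ∈ (if t ∈ K then {Fin.castSucc t, Fin.last m} else {Fin.castSucc t} :
        Finset (Fin (m + 1))) at ht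
      have : i = t := by
        split_ifs at ht with h
        · simp only [mem_insert, mem_singleton] at ht
          rcases ht with ht | ht
          · exact Fin.castSucc_injective _ ht
          · exact absurd ht (Fin.castSucc_lt_last i).ne
        · rw [mem_singleton] at ht
          exact Fin.castSucc_injective _ ht
      rw [this]; exact hj

open Classical in
/-- pairs `(A', K)` where no row outside `K` is contained in the union of the rows in `K`. -/
noncomputable def Good (m k : ℕ) : Finset ((Fin m → Finset (Fin (m + 1))) × Finset (Fin m)) :=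
  univ.filter (fun p => #p.2 = k ∧ ∀ i ∉ p.2, ¬ p.1 i ⊆ p.2.biUnion p.1)

lemma card_Good_le (m k : ℕ) : #(Good m k) ≤ #(Bad (m + 1)) := by
  classical
  apply card_le_card_of_injOn (fun p => addUnion p.1 p.2)
  · intro p _
    exact addUnion_mem_Bad p.1 p.2
  · rintro ⟨A₁, K₁⟩ h₁ ⟨A₂, K₂⟩ h₂ h
    obtain ⟨hk₁, hg₁⟩ := (mem_filter.1 h₁).2
    obtain ⟨hk₂, hg₂⟩ := (mem_filter.1 h₂).2
    simp only [addUnion] at h hk₁ hk₂ hg₁ hg₂
    have hA : A₁ = A₂ := by
      funext i
      have := congrFun h (Fin.castSucc i)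
      simpa using this
    subst hA
    have hU : K₁.biUnion A₁ = K₂.biUnion A₁ := by
      have := congrFun h (Fin.last m)
      simpa using this
    have hsub : K₂ ⊆ K₁ := by
      intro i hi
      by_contra hcon
      apply hg₁ i hcon
      rw [hU]
      exact subset_biUnion_of_mem A₁ hi
    have hKK : K₂ = K₁ := eq_of_subset_of_card_le hsub (by rw [hk₁, hk₂])
    rw [hKK]

lemma card_avoid (m k : ℕ) (K : Finset (Fin m)) (hK : #K = k) (i : Fin m) (hi : i ∉ K) :
    #((univ : Finset (Finset (Fin m))).filter (fun c => i ∈ c ∧ Disjoint K c))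
      = 2 ^ (m - k - 1) := by
  have h1 : (univ : Finset (Finset (Fin m))).filter (fun c => i ∈ c ∧ Disjoint K c) =
      Icc {i} Kᶜ := by
    ext c
    simp only [mem_filter, mem_univ, true_and, mem_Icc, singleton_subset_iff]
    constructor
    · rintro ⟨h2, h3⟩
      exact ⟨h2, subset_compl_iff_disjoint_right.2 h3.symm⟩
    · rintro ⟨h2, h3⟩
      exact ⟨h2, (subset_compl_iff_disjoint_right.1 h3).symm⟩
  rw [h1, card_Icc_finset, card_compl, hK, card_singleton, Fintype.card_fin]
  rw [singleton_subset_iff]
  exact mem_compl.2 hi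

lemma card_contained (m k : ℕ) (K : Finset (Fin m)) (hK : #K = k) (i : Fin m) (hi : i ∉ K) :
    #((univ : Finset (Fin m → Finset (Fin (m + 1)))).filter (fun A' => A' i ⊆ K.biUnion A'))
      = (2 ^ m - 2 ^ (m - k - 1)) ^ (m + 1) := by
  classical
  have h1 : #((univ : Finset (Fin m → Finset (Fin (m + 1)))).filter
      (fun A' => A' i ⊆ K.biUnion A')) =
      #(Fintype.piFinset (fun _ : Fin (m + 1) =>
        (univ : Finset (Finset (Fin m))).filter (fun c => ¬ (i ∈ c ∧ Disjoint K c)))) := by
    apply card_bij (fun A' _ => tr A')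
    · intro A' hA'
      have h2 := (mem_filter.1 hA').2
      rw [Fintype.mem_piFinset]
      intro j
      rw [mem_filter]
      refine ⟨mem_univ _, ?_⟩
      rintro ⟨h3, h4⟩
      rw [mem_tr] at h3
      obtain ⟨t, ht, hj⟩ := mem_biUnion.1 (h2 h3)
      exact (disjoint_left.1 h4 ht) ((mem_tr A' t j).2 hj)
    · intro A₁ _ A₂ _ h
      rw [← tr_tr A₁, ← tr_tr A₂, h]
    · intro C hC
      refine ⟨tr C, ?_, tr_tr C⟩
      rw [mem_filter]
      refine ⟨mem_univ _, ?_⟩
      intro j hj
      rw [mem_tr] at hj
      rw [Fintype.mem_piFinset] at hC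
      have h5 := (mem_filter.1 (hC j)).2
      have h6 : ¬ Disjoint K (C j) := fun h => h5 ⟨hj, h⟩
      rw [not_disjoint_iff] at h6
      obtain ⟨t, ht, ht'⟩ := h6
      exact mem_biUnion.2 ⟨t, ht, (mem_tr C j t).2 ht'⟩
  rw [h1, Fintype.card_piFinset, prod_const, card_univ, Fintype.card_fin]
  congr 1
  have h7 := card_filter_add_card_filter_not (s := (univ : Finset (Finset (Fin m))))
    (fun c => i ∈ c ∧ Disjoint K c)
  rw [card_avoid m k K hK i hi, card_univ, Fintype.card_finset, Fintype.card_fin] at h7
  omega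

lemma card_Good_ge (m k : ℕ) :
    m.choose k * 2 ^ ((m + 1) * m) ≤ #(Good m k) +
      m.choose k * (m * (2 ^ m - 2 ^ (m - k - 1)) ^ (m + 1)) := by
  classical
  set Pairs : Finset ((Fin m → Finset (Fin (m + 1))) × Finset (Fin m)) :=
    univ ×ˢ (powersetCard k univ) with hP
  set BadP : Finset ((Fin m → Finset (Fin (m + 1))) × Finset (Fin m)) :=
    (powersetCard k (univ : Finset (Fin m))).biUnion (fun K =>
      ((univ : Finset (Fin m)) \ K).biUnion (fun i =>
        ((univ : Finset (Fin m → Finset (Fin (m + 1)))).filter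
          (fun A' => A' i ⊆ K.biUnion A')) ×ˢ {K})) with hBP
  have hsub : Pairs ⊆ Good m k ∪ BadP := by
    rintro ⟨A', K⟩ hp
    rw [hP, mem_product] at hp
    have hK := (mem_powersetCard.1 hp.2).2
    simp only at hK
    by_cases h : ∀ i ∉ K, ¬ A' i ⊆ K.biUnion A'
    · apply mem_union_left
      unfold Good
      exact mem_filter.2 ⟨mem_univ _, hK, h⟩
    · apply mem_union_right
      push Not at h
      obtain ⟨i, hi, h2⟩ := h
      rw [hBP, mem_biUnion]
      refine ⟨K, hp.2, ?_⟩
      rw [mem_biUnion]
      refine ⟨i, mem_sdiff.2 ⟨mem_univ _, hi⟩, ?_⟩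
      rw [mem_product]
      exact ⟨mem_filter.2 ⟨mem_univ _, h2⟩, mem_singleton_self _⟩
  have h1 : #Pairs = m.choose k * 2 ^ ((m + 1) * m) := by
    rw [hP, card_product, card_powersetCard, card_univ, card_univ, Fintype.card_fun,
      Fintype.card_finset, Fintype.card_fin, Fintype.card_fin, ← pow_mul, mul_comm]
  have h2 : #BadP ≤ m.choose k * (m * (2 ^ m - 2 ^ (m - k - 1)) ^ (m + 1)) := by
    rw [hBP]
    calc _ ≤ ∑ K ∈ powersetCard k (univ : Finset (Fin m)),
          #(((univ : Finset (Fin m)) \ K).biUnion (fun i =>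
          ((univ : Finset (Fin m → Finset (Fin (m + 1)))).filter
          (fun A' => A' i ⊆ K.biUnion A')) ×ˢ {K})) := card_biUnion_le
      _ ≤ ∑ K ∈ powersetCard k (univ : Finset (Fin m)),
          (m * (2 ^ m - 2 ^ (m - k - 1)) ^ (m + 1)) := by
          apply sum_le_sum
          intro K hK
          have hKc := (mem_powersetCard.1 hK).2
          calc _ ≤ ∑ i ∈ ((univ : Finset (Fin m)) \ K),
                #(((univ : Finset (Fin m → Finset (Fin (m + 1)))).filter
                  (fun A' => A' i ⊆ K.biUnion A')) ×ˢ {K}) := card_biUnion_le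
            _ = ∑ i ∈ ((univ : Finset (Fin m)) \ K), (2 ^ m - 2 ^ (m - k - 1)) ^ (m + 1) := by
                apply sum_congr rfl
                intro i hi
                rw [card_product, card_singleton, mul_one,
                  card_contained m k K hKc i (mem_sdiff.1 hi).2]
            _ = #((univ : Finset (Fin m)) \ K) * (2 ^ m - 2 ^ (m - k - 1)) ^ (m + 1) := by
                rw [sum_const, smul_eq_mul]
            _ ≤ m * (2 ^ m - 2 ^ (m - k - 1)) ^ (m + 1) := by
                apply Nat.mul_le_mul_right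
                calc _ ≤ #(univ : Finset (Fin m)) := card_le_card sdiff_subset
                  _ = m := by simp
      _ = _ := by rw [sum_const, smul_eq_mul, card_powersetCard, card_univ, Fintype.card_fin]
  calc _ = #Pairs := h1.symm
    _ ≤ #(Good m k ∪ BadP) := card_le_card hsub
    _ ≤ #(Good m k) + #BadP := card_union_le _ _
    _ ≤ _ := by omega

end Pool.Agent.H38.Schein
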