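import Mathlib
import Pool.Agent.H38.ScheinG

/-!
Helper file for MP_72bf7f_co: real-number forms of both bounds.
-/

open Finset Filter

set_option linter.unusedSectionVars false

namespace Pool.Agent.H38.Schein

lemma pow_size_bound (L : ℕ) (hL : 24 ≤ L) : 6400 * (L + 1) ^ 2 ≤ 2 ^ (L - 1) := by
  induction L, hL using Nat.le_induction with
  | base => norm_num
  | succ L hL ih =>
    have h1 : L + 1 - 1 = (L - 1) + 1 := by omega
    rw [h1, pow_succ 2 (L - 1)]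
    nlinarith

/-- upper bound with `L = Nat.size n`. -/
theorem card_Bad_le_size (n : ℕ) (hn : 2 ^ 23 ≤ n) :
    #(Bad n) ≤ 2 ^ (n * (n - 1) + 6200000 * (Nat.size n) ^ 2) := by
  have h1 : n < 2 ^ Nat.size n := Nat.lt_size_self n
  have h24 : 24 ≤ Nat.size n := Nat.lt_size.2 hn
  have h2 : 2 ^ (Nat.size n - 1) ≤ n := Nat.lt_size.1 (by omega)
  have h3 := pow_size_bound (Nat.size n) h24
  obtain ⟨L, hL⟩ : ∃ L, L = Nat.size n := ⟨_, rfl⟩
  rw [← hL] at h1 h24 h2 h3 ⊢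
  apply card_Bad_le n L (by omega) (by omega)
  have h4 : 6400 * (L + 1) ^ 2 ≤ n := h3.trans h2
  have h5 : 80 * L ≤ Nat.sqrt n := by
    rw [Nat.le_sqrt]
    nlinarith
  have h6 : Nat.sqrt n * Nat.sqrt n ≤ n := Nat.sqrt_le n
  have h7 : 80 * L * Nat.sqrt n ≤ n := (Nat.mul_le_mul_right _ h5).trans h6
  nlinarith

/-- lower bound for the number of good pairs. -/
theorem le_card_Good (m k : ℕ) (hk : k + 1 ≤ m)
    (h : (m : ℝ) * Real.exp (-((m + 1 : ℕ) : ℝ) / 2 ^ (k + 1)) ≤ 1 / 2) :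
    (m.choose k : ℝ) * 2 ^ ((m + 1) * m) / 2 ≤ #(Good m k) := by
  have h1 := card_Good_ge m k
  have h4 : ((m.choose k * 2 ^ ((m + 1) * m) : ℕ) : ℝ) ≤ ((#(Good m k) +
      m.choose k * (m * (2 ^ m - 2 ^ (m - k - 1)) ^ (m + 1)) : ℕ) : ℝ) := by exact_mod_cast h1
  push_cast at h4
  have h5 : (((2 ^ m - 2 ^ (m - k - 1) : ℕ) : ℝ)) = 2 ^ m * (1 - 1 / 2 ^ (k + 1)) := by
    rw [Nat.cast_sub (Nat.pow_le_pow_right (by norm_num) (by omega))]
    push_cast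
    have h6 : (2:ℝ) ^ m = 2 ^ (m - k - 1) * 2 ^ (k + 1) := by
      rw [← pow_add]; congr 1; omega
    rw [h6]
    field_simp
  rw [h5] at h4
  have h7 : (2 ^ m * (1 - 1 / 2 ^ (k + 1)) : ℝ) ^ (m + 1) ≤
      2 ^ ((m + 1) * m) * Real.exp (-((m + 1 : ℕ) : ℝ) / 2 ^ (k + 1)) := by
    rw [mul_pow, ← pow_mul, mul_comm m (m + 1)]
    apply mul_le_mul_of_nonneg_left _ (by positivity)
    have h8 : (1 - 1 / 2 ^ (k + 1) : ℝ) ≤ Real.exp (-(1 / 2 ^ (k + 1))) := by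
      have := Real.add_one_le_exp (-(1 / 2 ^ (k + 1) : ℝ))
      linarith
    have h9 : (0:ℝ) ≤ 1 - 1 / 2 ^ (k + 1) := by
      have : (1:ℝ) / 2 ^ (k + 1) ≤ 1 := by
        rw [div_le_one (by positivity)]
        exact one_le_pow₀ (by norm_num)
      linarith
    calc (1 - 1 / 2 ^ (k + 1) : ℝ) ^ (m + 1) ≤ (Real.exp (-(1 / 2 ^ (k + 1)))) ^ (m + 1) :=
          pow_le_pow_left₀ h9 h8 _
      _ = _ := by
          rw [← Real.exp_nat_mul]
          congr 1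
          ring
  have hC : (0:ℝ) ≤ (m.choose k : ℝ) := by positivity
  have h10 : (m.choose k : ℝ) * (m * (2 ^ m * (1 - 1 / 2 ^ (k + 1)) : ℝ) ^ (m + 1)) ≤
      (m.choose k : ℝ) * 2 ^ ((m + 1) * m) / 2 := by
    calc (m.choose k : ℝ) * (m * (2 ^ m * (1 - 1 / 2 ^ (k + 1)) : ℝ) ^ (m + 1))
        ≤ (m.choose k : ℝ) * (m * (2 ^ ((m + 1) * m) *
          Real.exp (-((m + 1 : ℕ) : ℝ) / 2 ^ (k + 1)))) := by gcongr
      _ = (m.choose k : ℝ) * 2 ^ ((m + 1) * m) *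
          (m * Real.exp (-((m + 1 : ℕ) : ℝ) / 2 ^ (k + 1))) := by ring
      _ ≤ (m.choose k : ℝ) * 2 ^ ((m + 1) * m) * (1 / 2) := by gcongr
      _ = _ := by ring
  linarith

/-- lower bound. -/
theorem le_card_Bad (m k : ℕ) (hk : k + 1 ≤ m)
    (h : (m : ℝ) * Real.exp (-((m + 1 : ℕ) : ℝ) / 2 ^ (k + 1)) ≤ 1 / 2) :
    (m.choose k : ℝ) * 2 ^ ((m + 1) * m) / 2 ≤ #(Bad (m + 1)) :=
  (le_card_Good m k hk h).trans (by exact_mod_cast card_Good_le m k)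

end Pool.Agent.H38.Schein
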