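import Mathlib
import Pool.Agent.H38.ScheinD

/-!
Helper file for MP_72bf7f_co: finer count of the codes.
-/

open Finset

set_option linter.unusedSectionVars false

namespace Pool.Agent.H38.Schein

variable {α β : Type*} [Fintype α] [Fintype β] [DecidableEq α] [DecidableEq β]

lemma numeric2 (n L p q : ℕ) (hL : n + 1 ≤ 2 ^ L) (hL5 : 5 ≤ L) (hn : 64 ≤ n)
    (hpq : p + q ≤ n - 1) (hp1 : 1 ≤ p) (hq1 : 1 ≤ q) :
    n.choose p * n.choose q * 2 ^ (n / 4) ≤ 2 ^ (p * q + 2 * L * (n - 1 - p - q) + 17 * L) := by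
  have hnL : n ≤ 2 ^ L := by omega
  have hpow : ∀ k, n ^ k ≤ 2 ^ (L * k) := fun k => by
    rw [pow_mul]; exact Nat.pow_le_pow_left hnL k
  have hcomp : ∀ a b : ℕ, a + b ≤ n - 1 → b < 8 → 1 ≤ b →
      n.choose a * n.choose b * 2 ^ (n / 4) ≤
        2 ^ (a * b + 2 * L * (n - 1 - a - b) + 17 * L) := by
    intro a b hab hb hb1
    have h1 : n.choose a ≤ 2 ^ (L * (n - a)) := by
      rw [← Nat.choose_symm (by omega : a ≤ n)]
      exact (Nat.choose_le_pow _ _).trans (hpow _)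
    have h2 : n.choose b ≤ 2 ^ (L * b) := (Nat.choose_le_pow _ _).trans (hpow _)
    calc _ ≤ 2 ^ (L * (n - a)) * 2 ^ (L * b) * 2 ^ (n / 4) :=
          Nat.mul_le_mul_right _ (Nat.mul_le_mul h1 h2)
      _ = 2 ^ (L * (n - a) + L * b + n / 4) := by rw [pow_add, pow_add]
      _ ≤ _ := by
        apply Nat.pow_le_pow_right (by norm_num)
        obtain ⟨u, hu⟩ : ∃ u, n - 1 - a - b = u := ⟨_, rfl⟩
        have h3 : n - a = u + (1 + b) := by omega
        rw [h3, hu]
        have h4 : L * ((1 + b) + b) ≤ L * 15 := Nat.mul_le_mul_left _ (by omega)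
        have h5 : a * 1 ≤ a * b := Nat.mul_le_mul_left _ hb1
        have h6 : 1 * u ≤ L * u := Nat.mul_le_mul_right _ (by omega)
        have h7 : n / 4 ≤ a + u := by omega
        have h8 : L * (u + (1 + b)) + L * b = L * u + L * ((1 + b) + b) := by ring
        have h9 : 2 * L * u = L * u + L * u := by ring
        omega
  by_cases hq : q < 8
  · exact hcomp p q hpq hq hq1
  by_cases hp : p < 8
  · have := hcomp q p (by omega) hp hp1
    rw [mul_comm (n.choose p), mul_comm p q]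
    have h5 : n - 1 - p - q = n - 1 - q - p := by omega
    rw [h5]
    exact this
  push Not at hq hp
  calc n.choose p * n.choose q * 2 ^ (n / 4) ≤ 2 ^ n * 2 ^ n * 2 ^ (n / 4) :=
        Nat.mul_le_mul_right _ (Nat.mul_le_mul (Nat.choose_le_two_pow _ _)
        (Nat.choose_le_two_pow _ _))
    _ = 2 ^ (n + n + n / 4) := by rw [← pow_add, ← pow_add]
    _ ≤ _ := by
      apply Nat.pow_le_pow_right (by norm_num)
      by_cases hc : n ≤ 2 * (p + q)
      · have h6 : 8 * p + 8 * q ≤ p * q + 64 := by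
          obtain ⟨a, rfl⟩ := Nat.exists_eq_add_of_le hq
          obtain ⟨b, rfl⟩ := Nat.exists_eq_add_of_le hp
          nlinarith [Nat.zero_le (a * b)]
        have h7 : 0 ≤ 2 * L * (n - 1 - p - q) := Nat.zero_le _
        omega
      · have h8 : 10 * (n - 1 - p - q) ≤ 2 * L * (n - 1 - p - q) :=
          Nat.mul_le_mul_right _ (by omega)
        have h9 : 0 ≤ p * q := Nat.zero_le _
        omega

lemma card_CodeSet2 (w₀ k₀ ℓ p q e e' s n L d : ℕ) (hα : Fintype.card α = n)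
    (hβ : Fintype.card β = n) (hL : n + 1 ≤ 2 ^ L) (hL1 : 1 ≤ L) (hLn : 2 * L ≤ n)
    (hcheap : #(CheapRects (α := α) (β := β) k₀ ℓ) ≤ 2 ^ (n - d)) :
    #(CodeSet (α := α) (β := β) w₀ k₀ ℓ p q e e' s) ≤
      n.choose p * n.choose q * 2 ^ (n * p + q * (n - p) + (n - 2 * L) * (e + e')
        + (n - d) * s + 2 * (w₀ * (w₀ + 5) * L) ^ 2) := by
  have hch : #(CheapSet (α := α) (β := β) k₀ ℓ s) ≤ 2 ^ ((n - d) * s) := by
    rw [pow_mul]
    exact (card_CheapSet _ _ _).trans (Nat.pow_le_pow_left hcheap _)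
  rw [CodeSet]
  refine card_biUnion_le.trans ?_
  have hterm : ∀ PQ ∈ (powersetCard p (univ : Finset α)) ×ˢ (powersetCard q (univ : Finset β)),
      #(image (fun R : (α → Finset β) × (α → Finset β) × (β → Finset α) × (α → Finset β) =>
        (fun i => R.1 i ∪ R.2.1 i ∪ tr R.2.2.1 i ∪ R.2.2.2 i : α → Finset β))
      (LineSet PQ.1 PQ.2 ×ˢ ExpSet (α := α) (β := β) w₀ e ×ˢ ExpSet (α := β) (β := α) w₀ e' ×ˢ
        CheapSet (α := α) (β := β) k₀ ℓ s)) ≤ 2 ^ (n * p + q * (n - p) + (n - 2 * L) * (e + e')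
        + (n - d) * s + 2 * (w₀ * (w₀ + 5) * L) ^ 2) := by
    rintro ⟨P, Q⟩ hPQ
    rw [mem_product, mem_powersetCard, mem_powersetCard] at hPQ
    obtain ⟨⟨_, hP⟩, ⟨_, hQ⟩⟩ := hPQ
    simp only at hP hQ
    refine card_image_le.trans ?_
    rw [card_product, card_product, card_product, card_LineSet, hα, hβ, hP, hQ]
    calc _ ≤ 2 ^ (n * p + q * (n - p)) * (2 ^ ((n - 2 * L) * e + (w₀ * (w₀ + 5) * L) ^ 2) *
          (2 ^ ((n - 2 * L) * e' + (w₀ * (w₀ + 5) * L) ^ 2) * 2 ^ ((n - d) * s))) := by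
          gcongr
          · exact card_ExpSet' w₀ e n L 2 hα hβ hL hL1 hLn
          · exact card_ExpSet' w₀ e' n L 2 hβ hα hL hL1 hLn
      _ = _ := by
          rw [← pow_add, ← pow_add, ← pow_add]
          congr 1
          ring
  refine (sum_le_sum hterm).trans ?_
  rw [sum_const, smul_eq_mul, card_product, card_powersetCard, card_powersetCard, card_univ,
    card_univ, hα, hβ]

/-- Case I: at least one cheap rectangle, or fewer than `n - 1` rectangles. -/
lemma case_one (w₀ k₀ ℓ p q e e' s n L d : ℕ) (hα : Fintype.card α = n)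
    (hβ : Fintype.card β = n) (hL : n + 1 ≤ 2 ^ L) (hL5 : 5 ≤ L) (hLn : 2 * L ≤ n) (hn : 32 ≤ n)
    (hd : 18 * L + 2 * (w₀ * (w₀ + 5) * L) ^ 2 ≤ d) (hdn : d ≤ n)
    (hcheap : #(CheapRects (α := α) (β := β) k₀ ℓ) ≤ 2 ^ (n - d))
    (hsum : p + q + e + e' + s ≤ n - 1)
    (hσ : 1 ≤ s ∨ p + q + e + e' + s < n - 1) :
    #(CodeSet (α := α) (β := β) w₀ k₀ ℓ p q e e' s) ≤ 2 ^ (n * (n - 1)) := by
  refine (card_CodeSet2 w₀ k₀ ℓ p q e e' s n L d hα hβ hL (by omega) hLn hcheap).trans ?_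
  refine (Nat.mul_le_mul_right _ (numeric n L p q hL hL5 hn (by omega))).trans ?_
  rw [← pow_add]
  apply Nat.pow_le_pow_right (by norm_num)
  obtain ⟨D, hD⟩ : ∃ D, (w₀ * (w₀ + 5) * L) ^ 2 = D := ⟨_, rfl⟩
  rw [hD] at hd ⊢
  obtain ⟨s0, hs0⟩ : ∃ s0, n - 1 = p + q + e + e' + s + s0 := ⟨n - 1 - (p + q + e + e' + s), by omega⟩
  obtain ⟨a, ha⟩ := Nat.exists_eq_add_of_le hLn
  obtain ⟨b, hb⟩ := Nat.exists_eq_add_of_le hdn
  obtain ⟨c, hc⟩ : ∃ c, n = p + c := ⟨n - p, by omega⟩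
  have e1 : n - 2 * L = a := by omega
  have e2 : n - d = b := by omega
  have e3 : n - p = c := by omega
  have e4 : n - 1 - p - q = e + e' + s + s0 := by omega
  rw [e1, e2, e3, e4, hs0]
  have h1 : n * (p + q + e + e' + s + s0) =
      n * p + n * q + n * (e + e') + n * s + n * s0 := by ring
  have h2 : n * q = p * q + q * c := by rw [hc]; ring
  have h3 : n * (e + e') = 2 * (L * (e + e')) + a * (e + e') := by rw [ha]; ring
  have h4 : n * s = d * s + b * s := by rw [hb]; ring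
  have h5 : L * (e + e' + s + s0) = L * (e + e') + L * s + L * s0 := by ring
  obtain ⟨x, hx⟩ : ∃ x, d = L + x := ⟨d - L, by omega⟩
  have h6 : d * s = L * s + x * s := by rw [hx]; ring
  have h7 : d * s0 ≤ n * s0 := Nat.mul_le_mul_right _ hdn
  have h8 : d * s0 = L * s0 + x * s0 := by rw [hx]; ring
  have h9 : x * 1 ≤ x * (s + s0) := Nat.mul_le_mul_left _ (by omega)
  have h10 : x * (s + s0) = x * s + x * s0 := by ring
  omega

/-- Case II: no cheap rectangle, exactly `n - 1` rectangles, full rows and full columns. -/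
lemma case_two (w₀ k₀ ℓ p q e e' n L d : ℕ) (hα : Fintype.card α = n)
    (hβ : Fintype.card β = n) (hL : n + 1 ≤ 2 ^ L) (hL5 : 5 ≤ L) (hLn : 2 * L ≤ n) (hn : 64 ≤ n)
    (hd : 17 * L + 2 * (w₀ * (w₀ + 5) * L) ^ 2 ≤ n / 4)
    (hcheap : #(CheapRects (α := α) (β := β) k₀ ℓ) ≤ 2 ^ (n - d))
    (hsum : p + q + e + e' = n - 1) (hp : 1 ≤ p) (hq : 1 ≤ q) :
    #(CodeSet (α := α) (β := β) w₀ k₀ ℓ p q e e' 0) ≤ 2 ^ (n * (n - 1)) := by
  have h0 := card_CodeSet2 w₀ k₀ ℓ p q e e' 0 n L d hα hβ hL (by omega) hLn hcheap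
  have h1 := numeric2 n L p q hL hL5 hn (by omega) hp hq
  have h2 : #(CodeSet (α := α) (β := β) w₀ k₀ ℓ p q e e' 0) * 2 ^ (n / 4) ≤
      2 ^ (n * (n - 1)) * 2 ^ (n / 4) := by
    refine (Nat.mul_le_mul_right _ h0).trans ?_
    obtain ⟨D, hD⟩ : ∃ D, (w₀ * (w₀ + 5) * L) ^ 2 = D := ⟨_, rfl⟩
    rw [hD] at hd ⊢
    calc _ = (n.choose p * n.choose q * 2 ^ (n / 4)) * 2 ^ (n * p + q * (n - p) +
          (n - 2 * L) * (e + e') + (n - d) * 0 + 2 * D) := by ring
      _ ≤ 2 ^ (p * q + 2 * L * (n - 1 - p - q) + 17 * L) * 2 ^ (n * p + q * (n - p) +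
          (n - 2 * L) * (e + e') + (n - d) * 0 + 2 * D) := Nat.mul_le_mul_right _ h1
      _ ≤ _ := by
        rw [← pow_add, ← pow_add]
        apply Nat.pow_le_pow_right (by norm_num)
        obtain ⟨a, ha⟩ := Nat.exists_eq_add_of_le hLn
        obtain ⟨c, hc⟩ : ∃ c, n = p + c := ⟨n - p, by omega⟩
        have e1 : n - 2 * L = a := by omega
        have e3 : n - p = c := by omega
        have e4 : n - 1 - p - q = e + e' := by omega
        rw [e1, e3, e4, ← hsum]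
        have h1 : n * (p + q + e + e') = n * p + n * q + n * (e + e') := by ring
        have h2 : n * q = p * q + q * c := by rw [hc]; ring
        have h3 : n * (e + e') = 2 * L * (e + e') + a * (e + e') := by rw [ha]; ring
        omega
  exact Nat.le_of_mul_le_mul_right h2 (by positivity)

end Pool.Agent.H38.Schein
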