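import Mathlib
import Pool.Agent.H38.ScheinI
import Pool.Agent.H38.ScheinE

/-!
Helper file for MP_72bf7f_co: matrices coded by full rows and expensive rectangles.
-/

open Finset

set_option linter.unusedSectionVars false

namespace Pool.Agent.H38.Schein

variable {α β : Type*} [Fintype α] [Fintype β] [DecidableEq α] [DecidableEq β]

/-- matrices coded by full rows and expensive rectangles. -/
def RCode (w₀ p e e' : ℕ) (A : α → Finset β) : Prop :=
  ∃ P : Finset α, #P = p ∧ ∃ R₁ ∈ LineSet P (∅ : Finset β),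
    ∃ R₂ ∈ ExpSet (α := α) (β := β) w₀ e,
    ∃ R₃ ∈ ExpSet (α := β) (β := α) w₀ e', A = fun i => R₁ i ∪ R₂ i ∪ tr R₃ i

open Classical in
/-- the set of matrices with an `RCode`. -/
noncomputable def RSet (w₀ p e e' : ℕ) : Finset (α → Finset β) :=
  univ.filter (RCode w₀ p e e')

lemma mem_RSet {w₀ p e e' : ℕ} {A : α → Finset β} :
    A ∈ RSet (α := α) (β := β) w₀ p e e' ↔ RCode w₀ p e e' A := by
  classical
  unfold RSet
  rw [mem_filter]
  simp only [mem_univ, true_and]

lemma RSet_subset_CodeSet (w₀ k₀ ℓ p e e' : ℕ) :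
    RSet (α := α) (β := β) w₀ p e e' ⊆ CodeSet w₀ k₀ ℓ p 0 e e' 0 := by
  intro A hA
  obtain ⟨P, hP, R₁, h₁, R₂, h₂, R₃, h₃, hAe⟩ := mem_RSet.1 hA
  unfold CodeSet
  rw [mem_biUnion]
  refine ⟨(P, ∅), ?_, ?_⟩
  · rw [mem_product, mem_powersetCard, mem_powersetCard]
    exact ⟨⟨subset_univ _, hP⟩, ⟨subset_univ _, rfl⟩⟩
  · rw [mem_image]
    refine ⟨(R₁, R₂, R₃, fun _ => ∅), ?_, ?_⟩
    · simp only [mem_product]
      refine ⟨h₁, h₂, h₃, ?_⟩
      rw [CheapSet, mem_image]
      refine ⟨fun t => t.elim0, ?_, ?_⟩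
      · rw [Fintype.mem_piFinset]
        exact fun t => t.elim0
      · funext i
        ext j
        rw [mem_uniOn]
        simp
    · rw [hAe]
      funext i
      simp

/-- the possible contributions of column rectangles outside of the full rows -/
def VSet (w₀ : ℕ) (P : Finset α) (e' : ℕ) : Finset (α → Finset β) :=
  image (fun q : (Fin e' → Finset β) × (Fin e' → Finset α) =>
      (fun i => if i ∈ P then ∅ else uniOn univ q.2 q.1 i : α → Finset β))
    ((Fintype.piFinset fun _ => (univ : Finset (Finset β)).filter (fun X => #X ≤ w₀ + 1)) ×ˢ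
      (Fintype.piFinset fun _ => (Pᶜ).powerset))

lemma card_VSet (w₀ n L e' : ℕ) (hα : Fintype.card α = n) (hβ : Fintype.card β = n)
    (hL : n + 1 ≤ 2 ^ L) (P : Finset α) :
    #(VSet (α := α) (β := β) w₀ P e') ≤ 2 ^ ((n - #P + L * (w₀ + 1)) * e') := by
  refine card_image_le.trans ?_
  rw [card_product, Fintype.card_piFinset, Fintype.card_piFinset, prod_const, prod_const, card_univ,
    Fintype.card_fin, card_powerset, card_compl, hα]
  have h1 : #((univ : Finset (Finset β)).filter (fun X => #X ≤ w₀ + 1)) ≤ 2 ^ (L * (w₀ + 1)) := by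
    rw [pow_mul]
    exact (card_small _).trans (Nat.pow_le_pow_left (by rw [hβ]; exact hL) _)
  calc _ ≤ (2 ^ (L * (w₀ + 1))) ^ e' * (2 ^ (n - #P)) ^ e' :=
        Nat.mul_le_mul_right _ (Nat.pow_le_pow_left h1 _)
    _ = _ := by rw [← mul_pow, ← pow_add, ← pow_mul, add_comm]

lemma card_RSet (w₀ p e e' n L : ℕ) (hα : Fintype.card α = n) (hβ : Fintype.card β = n)
    (hL : n + 1 ≤ 2 ^ L) (hL1 : 1 ≤ L) (hLn : 2 * L ≤ n) :
    #(RSet (α := α) (β := β) w₀ p e e') ≤
      n.choose p * 2 ^ (n * p + ((n - 2 * L) * e + (w₀ * (w₀ + 5) * L) ^ 2)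
        + (n - p + L * (w₀ + 1)) * e') := by
  classical
  have hsub : RSet (α := α) (β := β) w₀ p e e' ⊆ (powersetCard p (univ : Finset α)).biUnion
      (fun P => image (fun R : (α → Finset β) × (α → Finset β) × (α → Finset β) =>
        (fun i => if i ∈ P then R.1 i else R.2.1 i ∪ R.2.2 i : α → Finset β))
        (LineSet P ∅ ×ˢ ExpSet (α := α) (β := β) w₀ e ×ˢ VSet w₀ P e')) := by
    intro A hA
    obtain ⟨P, hP, R₁, h₁, R₂, h₂, R₃, h₃, hAe⟩ := mem_RSet.1 hA
    rw [mem_biUnion]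
    refine ⟨P, mem_powersetCard.2 ⟨subset_univ _, hP⟩, ?_⟩
    rw [mem_image]
    obtain ⟨X', Y', K, hX', _, _, hR₃⟩ := mem_ExpSet.1 h₃
    refine ⟨(fun i => if i ∈ P then A i else ∅, R₂, fun i => if i ∈ P then ∅ else tr R₃ i), ?_, ?_⟩
    · simp only [mem_product]
      refine ⟨?_, h₂, ?_⟩
      · rw [LineSet, Fintype.mem_piFinset]
        intro i
        split_ifs with hi
        · exact mem_univ _
        · simp
      · rw [VSet, mem_image]
        refine ⟨(X', fun t => Y' t ∩ Pᶜ), ?_, ?_⟩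
        · rw [mem_product, Fintype.mem_piFinset, Fintype.mem_piFinset]
          refine ⟨fun t => ?_, fun t => ?_⟩
          · simpa using hX' t
          · rw [mem_powerset]; exact inter_subset_right
        · funext i
          simp only
          split_ifs with hi
          · rfl
          · ext j
            rw [mem_uniOn, mem_tr, hR₃, mem_uniOn]
            simp only [mem_inter, mem_compl]
            constructor
            · rintro ⟨t, ht, ⟨h3, _⟩, h4⟩
              exact ⟨t, ht, h4, h3⟩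
            · rintro ⟨t, ht, h4, h3⟩
              exact ⟨t, ht, ⟨h3, hi⟩, h4⟩
    · funext i
      simp only
      split_ifs with hi
      · rfl
      · rw [hAe]
        have h5 : R₁ i = ∅ := by
          have := Fintype.mem_piFinset.1 h₁ i
          rw [if_neg hi] at this
          simpa using this
        simp only
        rw [h5, empty_union]
  refine (card_le_card hsub).trans (card_biUnion_le.trans ?_)
  have hterm : ∀ P ∈ powersetCard p (univ : Finset α),
      #(image (fun R : (α → Finset β) × (α → Finset β) × (α → Finset β) =>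
        (fun i => if i ∈ P then R.1 i else R.2.1 i ∪ R.2.2 i : α → Finset β))
        (LineSet P ∅ ×ˢ ExpSet (α := α) (β := β) w₀ e ×ˢ VSet w₀ P e')) ≤
      2 ^ (n * p + ((n - 2 * L) * e + (w₀ * (w₀ + 5) * L) ^ 2)
        + (n - p + L * (w₀ + 1)) * e') := by
    intro P hP
    have hPc := (mem_powersetCard.1 hP).2
    refine card_image_le.trans ?_
    rw [card_product, card_product, card_LineSet, hα, hβ, hPc, card_empty, zero_mul, add_zero,
      pow_add, pow_add, mul_assoc]
    gcongr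
    · exact card_ExpSet' w₀ e n L 2 hα hβ hL hL1 hLn
    · have := card_VSet (β := β) w₀ n L e' hα hβ hL P
      rwa [hPc] at this
  refine (sum_le_sum hterm).trans ?_
  rw [sum_const, smul_eq_mul, card_powersetCard, card_univ, hα]

/-- a row that is the union of other rows. -/
def DepRow (A : α → Finset β) (i : α) : Prop := ∃ K : Finset α, i ∉ K ∧ A i = K.biUnion A

/-- some rectangle has no private row outside of `P` -/
def NoPriv {e : ℕ} (P : Finset α) (X : Fin e → Finset α) : Prop :=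
  ∃ t₀, ∀ i ∈ X t₀, i ∉ P → ∃ t' ≠ t₀, i ∈ X t'

/-- the possible columns outside of `P`. -/
def Pat {e : ℕ} (P : Finset α) (X : Fin e → Finset α) : Finset (Finset α) :=
  image (fun S : Finset (Fin e) => univ.filter (fun i => i ∉ P ∧ ∃ t ∈ S, i ∈ X t)) univ

lemma card_Pat {e : ℕ} (P : Finset α) (X : Fin e → Finset α) (w₀ : ℕ)
    (hX : ∀ t, #(X t) ≤ w₀ + 1) (h : NoPriv P X) :
    #(Pat P X) * 2 ^ (w₀ + 2) ≤ 2 ^ e * (2 ^ (w₀ + 2) - 1) := by
  classical
  obtain ⟨t₀, ht₀⟩ := h
  have hch : ∀ i : α, ∃ t' : Fin e, i ∈ X t₀ → i ∉ P → t' ≠ t₀ ∧ i ∈ X t' := by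
    intro i
    by_cases h : i ∈ X t₀ ∧ i ∉ P
    · obtain ⟨t', h1, h2⟩ := ht₀ i h.1 h.2
      exact ⟨t', fun _ _ => ⟨h1, h2⟩⟩
    · exact ⟨t₀, fun h1 h2 => absurd ⟨h1, h2⟩ h⟩
  choose f hf using hch
  set T' : Finset (Fin e) := (X t₀ \ P).image f with hT'
  have hT'c : #T' ≤ w₀ + 1 := by
    calc #T' ≤ #(X t₀ \ P) := card_image_le
      _ ≤ #(X t₀) := card_le_card sdiff_subset
      _ ≤ _ := hX t₀
  have ht₀T' : t₀ ∉ T' := by
    rw [hT', mem_image]
    rintro ⟨i, hi, hfi⟩
    rw [mem_sdiff] at hi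
    exact (hf i hi.1 hi.2).1 hfi
  set U : Finset (Fin e) := insert t₀ T' with hU
  have hUc : #U = #T' + 1 := card_insert_of_notMem ht₀T'
  have hUe : #U ≤ e := by
    have := card_le_univ U
    simpa using this
  have hsub : Pat P X ⊆ image (fun S : Finset (Fin e) =>
      univ.filter (fun i => i ∉ P ∧ ∃ t ∈ S, i ∈ X t)) (univ.filter (fun S => ¬ U ⊆ S)) := by
    intro V hV
    obtain ⟨S, _, rfl⟩ := mem_image.1 hV
    by_cases hS : U ⊆ S
    · rw [mem_image]
      refine ⟨S.erase t₀, ?_, ?_⟩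
      · rw [mem_filter]
        refine ⟨mem_univ _, fun h => ?_⟩
        exact (notMem_erase t₀ S) (h (mem_insert_self _ _))
      · ext i
        simp only [mem_filter, mem_univ, true_and]
        constructor
        · rintro ⟨h1, t, h2, h3⟩
          exact ⟨h1, t, mem_of_mem_erase h2, h3⟩
        · rintro ⟨h1, t, h2, h3⟩
          refine ⟨h1, ?_⟩
          by_cases htt : t = t₀
          · subst htt
            obtain ⟨h4, h5⟩ := hf i h3 h1
            refine ⟨f i, mem_erase.2 ⟨h4, ?_⟩, h5⟩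
            apply hS
            rw [hU]
            apply mem_insert_of_mem
            rw [hT']
            exact mem_image_of_mem f (mem_sdiff.2 ⟨h3, h1⟩)
          · exact ⟨t, mem_erase.2 ⟨htt, h2⟩, h3⟩
    · exact mem_image_of_mem _ (mem_filter.2 ⟨mem_univ _, hS⟩)
  have h1 : #(Pat P X) ≤ 2 ^ e - 2 ^ (e - #U) := by
    refine (card_le_card hsub).trans (card_image_le.trans ?_)
    have h2 := card_filter_add_card_filter_not (s := (univ : Finset (Finset (Fin e))))
      (fun S => U ⊆ S)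
    rw [card_superset, card_univ, Fintype.card_finset, Fintype.card_fin] at h2
    omega
  have h3 : #U ≤ w₀ + 2 := by omega
  calc #(Pat P X) * 2 ^ (w₀ + 2) ≤ (2 ^ e - 2 ^ (e - #U)) * 2 ^ (w₀ + 2) :=
        Nat.mul_le_mul_right _ h1
    _ = 2 ^ e * 2 ^ (w₀ + 2) - 2 ^ (e - #U) * 2 ^ (w₀ + 2) := by rw [Nat.sub_mul]
    _ ≤ 2 ^ e * 2 ^ (w₀ + 2) - 2 ^ e := by
        apply Nat.sub_le_sub_left
        rw [← pow_add]
        exact Nat.pow_le_pow_right (by norm_num) (by omega)
    _ = _ := by rw [Nat.mul_sub, mul_one]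

/-- matrices whose rows outside `P` are given by the rectangles with row sets `X`. -/
def Fill {e : ℕ} (P : Finset α) (X : Fin e → Finset α) (A : α → Finset β) : Prop :=
  ∃ Y : Fin e → Finset β, ∀ i ∉ P, A i = uniOn univ X Y i

open Classical in
lemma card_Fill {e : ℕ} (P : Finset α) (X : Fin e → Finset α) (w₀ n : ℕ)
    (hβ : Fintype.card β = n)
    (hX : ∀ t, #(X t) ≤ w₀ + 1) (h : NoPriv P X) :
    #((univ : Finset (α → Finset β)).filter (Fill P X)) * (2 ^ (w₀ + 2)) ^ n ≤
      2 ^ (n * #P) * (2 ^ e * (2 ^ (w₀ + 2) - 1)) ^ n := by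
  have h1 : #((univ : Finset (α → Finset β)).filter (Fill P X)) ≤
      #((univ : Finset (P → Finset β)) ×ˢ (Fintype.piFinset (fun _ : β => Pat P X))) := by
    apply card_le_card_of_injOn
      (fun A => ((fun i : P => A i.1), fun j => univ.filter (fun i => i ∉ P ∧ j ∈ A i)))
    · intro A hA
      obtain ⟨Y, hY⟩ := (mem_filter.1 hA).2
      simp only [coe_product, Set.mem_prod, mem_coe, Fintype.mem_piFinset, mem_univ, true_and]
      intro j
      rw [Pat, mem_image]
      refine ⟨univ.filter (fun t => j ∈ Y t), mem_univ _, ?_⟩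
      ext i
      simp only [mem_filter, mem_univ, true_and]
      constructor
      · rintro ⟨h2, t, h3, h4⟩
        refine ⟨h2, ?_⟩
        rw [hY i h2, mem_uniOn]
        exact ⟨t, mem_univ _, h4, h3⟩
      · rintro ⟨h2, h3⟩
        rw [hY i h2, mem_uniOn] at h3
        obtain ⟨t, _, h4, h5⟩ := h3
        exact ⟨h2, t, h5, h4⟩
    · intro A _ B _ hAB
      simp only [Prod.mk.injEq] at hAB
      obtain ⟨h2, h3⟩ := hAB
      funext i
      by_cases hi : i ∈ P
      · exact congrFun h2 ⟨i, hi⟩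
      · ext j
        have h4 := congrFun h3 j
        have h5 : i ∈ univ.filter (fun i => i ∉ P ∧ j ∈ A i) ↔
            i ∈ univ.filter (fun i => i ∉ P ∧ j ∈ B i) := by rw [h4]
        simpa [hi] using h5
  have h2 : #((univ : Finset (P → Finset β)) ×ˢ (Fintype.piFinset (fun _ : β => Pat P X))) =
      2 ^ (n * #P) * #(Pat P X) ^ n := by
    rw [card_product, card_univ, Fintype.card_fun, Fintype.card_finset, Fintype.card_coe,
      Fintype.card_piFinset, prod_const, card_univ, hβ, pow_mul]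
  rw [h2] at h1
  calc _ ≤ 2 ^ (n * #P) * #(Pat P X) ^ n * (2 ^ (w₀ + 2)) ^ n := Nat.mul_le_mul_right _ h1
    _ = 2 ^ (n * #P) * (#(Pat P X) * 2 ^ (w₀ + 2)) ^ n := by rw [mul_pow]; ring
    _ ≤ _ := Nat.mul_le_mul_left _ (Nat.pow_le_pow_left (card_Pat P X w₀ hX h) n)

lemma dep_of_priv {e : ℕ} (P : Finset α) (X : Fin e → Finset α) (A : α → Finset β)
    (hA : Fill P X A) (h : ¬ NoPriv P X) (hc : e < #(Pᶜ)) : ∃ i, DepRow A i := by
  classical
  unfold NoPriv at h
  push Not at h
  choose f hf1 hf2 hf3 using h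
  have hinj : Function.Injective f := by
    intro t t' htt
    by_contra hne
    exact hf3 t t' (fun h => hne h.symm) (by rw [htt]; exact hf1 t')
  have himg : #((univ : Finset (Fin e)).image f) < #(Pᶜ) := by
    calc _ ≤ #(univ : Finset (Fin e)) := card_image_le
      _ = e := by simp
      _ < _ := hc
  obtain ⟨w, hw, hw'⟩ := exists_mem_notMem_of_card_lt_card himg
  obtain ⟨Y, hY⟩ := hA
  have hrow : ∀ t, A (f t) = Y t := by
    intro t
    rw [hY (f t) (hf2 t)]
    ext j
    rw [mem_uniOn]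
    constructor
    · rintro ⟨t', _, h1, h2⟩
      by_cases htt : t' = t
      · rw [← htt]; exact h2
      · exact absurd h1 (hf3 t t' htt)
    · intro hj
      exact ⟨t, mem_univ _, hf1 t, hj⟩
  refine ⟨w, (univ.filter (fun t => w ∈ X t)).image f, ?_, ?_⟩
  · intro hcon
    obtain ⟨t, _, ht⟩ := mem_image.1 hcon
    exact hw' (mem_image.2 ⟨t, mem_univ _, ht⟩)
  · rw [hY w (mem_compl.1 hw)]
    ext j
    rw [mem_uniOn, mem_biUnion]
    constructor
    · rintro ⟨t, _, h1, h2⟩
      refine ⟨f t, mem_image.2 ⟨t, mem_filter.2 ⟨mem_univ _, h1⟩, rfl⟩, ?_⟩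
      rw [hrow t]; exact h2
    · rintro ⟨i, hi, hj⟩
      obtain ⟨t, ht, rfl⟩ := mem_image.1 hi
      rw [hrow t] at hj
      exact ⟨t, mem_univ _, (mem_filter.1 ht).2, hj⟩

open Classical in
/-- the matrices with an `RCode` and without dependent rows -/
noncomputable def RSetND (w₀ p e e' : ℕ) : Finset (α → Finset β) :=
  (RSet (α := α) (β := β) w₀ p e e').filter (fun A => ∀ i, ¬ DepRow A i)

lemma mem_RSetND {w₀ p e e' : ℕ} {A : α → Finset β} :
    A ∈ RSetND (α := α) (β := β) w₀ p e e' ↔ RCode w₀ p e e' A ∧ ∀ i, ¬ DepRow A i := by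
  classical
  unfold RSetND
  rw [mem_filter, mem_RSet]

lemma RSetND_subset {w₀ p e e' : ℕ} :
    RSetND (α := α) (β := β) w₀ p e e' ⊆ RSet (α := α) (β := β) w₀ p e e' := by
  intro A hA
  exact mem_RSet.2 (mem_RSetND.1 hA).1

open Classical in
lemma card_RSet_nondep (w₀ p e n L : ℕ) (hα : Fintype.card α = n) (hβ : Fintype.card β = n)
    (hL : n + 1 ≤ 2 ^ L) (hpe : p + e < n) :
    #(RSetND (α := α) (β := β) w₀ p e 0) * (2 ^ (w₀ + 2)) ^ n ≤
      n.choose p * 2 ^ (L * (w₀ + 1) * e) * (2 ^ (n * p) * (2 ^ e * (2 ^ (w₀ + 2) - 1)) ^ n) := by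
  unfold RSetND
  set Sm : Finset (Fin e → Finset α) :=
    Fintype.piFinset (fun _ => (univ : Finset (Finset α)).filter (fun X => #X ≤ w₀ + 1)) with hSm
  set Idx : Finset (Finset α × (Fin e → Finset α)) :=
    ((powersetCard p univ) ×ˢ Sm).filter (fun q => NoPriv q.1 q.2) with hIdx
  have hsub : (RSet (α := α) (β := β) w₀ p e 0).filter (fun A => ∀ i, ¬ DepRow A i) ⊆
      Idx.biUnion (fun q => (univ : Finset (α → Finset β)).filter (Fill q.1 q.2)) := by
    intro A hA
    obtain ⟨hA1, hA2⟩ := mem_filter.1 hA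
    obtain ⟨P, hP, R₁, h₁, R₂, h₂, R₃, h₃, hAe⟩ := mem_RSet.1 hA1
    obtain ⟨X, Y, K, hX, _, _, hR₂⟩ := mem_ExpSet.1 h₂
    obtain ⟨X', Y', K', _, _, _, hR₃⟩ := mem_ExpSet.1 h₃
    have hfill : Fill P X A := by
      refine ⟨Y, fun i hi => ?_⟩
      have h5 : R₁ i = ∅ := by
        have := Fintype.mem_piFinset.1 h₁ i
        rw [if_neg hi] at this
        simpa using this
      have h6 : tr R₃ i = ∅ := by
        rw [eq_empty_iff_forall_notMem]
        intro j hj
        rw [mem_tr, hR₃, mem_uniOn] at hj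
        obtain ⟨t, _⟩ := hj
        exact t.elim0
      rw [hAe]
      simp only
      rw [h5, h6, empty_union, union_empty, hR₂]
    have hnp : NoPriv P X := by
      by_contra hcon
      obtain ⟨i, hi⟩ := dep_of_priv P X A hfill hcon (by rw [card_compl, hα, hP]; omega)
      exact hA2 i hi
    rw [mem_biUnion]
    refine ⟨(P, X), ?_, mem_filter.2 ⟨mem_univ _, hfill⟩⟩
    rw [hIdx, mem_filter, mem_product]
    refine ⟨⟨mem_powersetCard.2 ⟨subset_univ _, hP⟩, ?_⟩, hnp⟩
    rw [hSm, Fintype.mem_piFinset]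
    intro t
    simpa using hX t
  have hterm : ∀ q ∈ Idx, #((univ : Finset (α → Finset β)).filter (Fill q.1 q.2)) *
      (2 ^ (w₀ + 2)) ^ n ≤ 2 ^ (n * p) * (2 ^ e * (2 ^ (w₀ + 2) - 1)) ^ n := by
    rintro ⟨P, X⟩ hq
    rw [hIdx, mem_filter, mem_product] at hq
    obtain ⟨⟨hP, hX⟩, hnp⟩ := hq
    have hPc := (mem_powersetCard.1 hP).2
    simp only at hPc hX hnp ⊢
    rw [hSm, Fintype.mem_piFinset] at hX
    have := card_Fill (β := β) P X w₀ n hβ (fun t => by simpa using hX t) hnp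
    rwa [hPc] at this
  have hIc : #Idx ≤ n.choose p * 2 ^ (L * (w₀ + 1) * e) := by
    calc #Idx ≤ #((powersetCard p (univ : Finset α)) ×ˢ Sm) := card_le_card (filter_subset _ _)
      _ = n.choose p * #Sm := by rw [card_product, card_powersetCard, card_univ, hα]
      _ ≤ _ := by
          apply Nat.mul_le_mul_left
          rw [hSm, Fintype.card_piFinset, prod_const, card_univ, Fintype.card_fin, pow_mul]
          apply Nat.pow_le_pow_left
          rw [pow_mul]
          exact (card_small _).trans (Nat.pow_le_pow_left (by rw [hα]; exact hL) _)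
  calc _ ≤ (∑ q ∈ Idx, #((univ : Finset (α → Finset β)).filter (Fill q.1 q.2))) *
        (2 ^ (w₀ + 2)) ^ n := Nat.mul_le_mul_right _ ((card_le_card hsub).trans card_biUnion_le)
    _ = ∑ q ∈ Idx, #((univ : Finset (α → Finset β)).filter (Fill q.1 q.2)) *
        (2 ^ (w₀ + 2)) ^ n := by rw [sum_mul]
    _ ≤ ∑ _q ∈ Idx, 2 ^ (n * p) * (2 ^ e * (2 ^ (w₀ + 2) - 1)) ^ n := sum_le_sum hterm
    _ = #Idx * (2 ^ (n * p) * (2 ^ e * (2 ^ (w₀ + 2) - 1)) ^ n) := by rw [sum_const, smul_eq_mul]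
    _ ≤ _ := Nat.mul_le_mul_right _ hIc

end Pool.Agent.H38.Schein
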