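import Mathlib
import Pool.Agent.H38.ScheinJ
import Pool.Agent.H38.ScheinF

/-!
Helper file for MP_72bf7f_co: matrices of small Boolean rank without dependent rows or columns.
-/

open Finset

set_option linter.unusedSectionVars false

namespace Pool.Agent.H38.Schein

variable {α β : Type*} [Fintype α] [Fintype β] [DecidableEq α] [DecidableEq β]

lemma two_mul_pow_pred (N : ℕ) (hN : 2 ≤ N) : 2 * (N - 1) ^ N ≤ N ^ N := by
  obtain ⟨a, rfl⟩ : ∃ a, N = a + 1 := ⟨N - 1, by omega⟩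
  rw [Nat.add_sub_cancel]
  have h1 := pow_add_mul_le_add_pow (a := a) (b := 1) (Nat.zero_le _) (Nat.zero_le _) (a + 1)
  rw [Nat.add_sub_cancel, mul_one] at h1
  have h3 : a ^ (a + 1) ≤ (a + 1) * a ^ a := by
    rw [pow_succ, mul_comm]; exact Nat.mul_le_mul_right _ (by omega)
  push_cast at h1
  omega

lemma pow_pred_div (N n : ℕ) (hN : 2 ≤ N) : (N - 1) ^ n * 2 ^ (n / N) ≤ N ^ n := by
  have h1 := two_mul_pow_pred N hN
  have h2 := Nat.div_add_mod n N
  calc (N - 1) ^ n * 2 ^ (n / N) = (N - 1) ^ (N * (n / N) + n % N) * 2 ^ (n / N) := by rw [h2]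
    _ = (2 * (N - 1) ^ N) ^ (n / N) * (N - 1) ^ (n % N) := by
        rw [pow_add, pow_mul, mul_pow]; ring
    _ ≤ (N ^ N) ^ (n / N) * N ^ (n % N) :=
        Nat.mul_le_mul (Nat.pow_le_pow_left h1 _) (Nat.pow_le_pow_left (by omega) _)
    _ = N ^ (N * (n / N) + n % N) := by rw [pow_add, pow_mul]
    _ = _ := by rw [h2]

lemma case_three (w₀ k₀ ℓ p e e' n L d : ℕ) (hα : Fintype.card α = n)
    (hβ : Fintype.card β = n) (hL : n + 1 ≤ 2 ^ L) (hL5 : 5 ≤ L) (hLn : 2 * L ≤ n)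
    (hcheap : #(CheapRects (α := α) (β := β) k₀ ℓ) ≤ 2 ^ (n - d))
    (hC1 : 17 * L + 2 * (w₀ * (w₀ + 5) * L) ^ 2 ≤ n / 4)
    (hC2 : 2 * L + (w₀ * (w₀ + 5) * L) ^ 2 + 1 + L * (w₀ + 1) ≤ n / 2)
    (hC3 : L + (w₀ + 2) * (L + (w₀ * (w₀ + 5) * L) ^ 2) ≤ n / 2 ^ (w₀ + 2))
    (hsum : p + e + e' = n - 1) (hn : 1 ≤ n) :
    #(RSetND (α := α) (β := β) w₀ p e e') ≤ 2 ^ (n * (n - 1)) := by
  obtain ⟨D, hD⟩ : ∃ D, (w₀ * (w₀ + 5) * L) ^ 2 = D := ⟨_, rfl⟩
  have hchoose : n.choose p ≤ 2 ^ (L * (1 + e + e')) := by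
    rw [← Nat.choose_symm (by omega : p ≤ n), pow_mul]
    refine (Nat.choose_le_pow _ _).trans ?_
    have : n - p = 1 + e + e' := by omega
    rw [this]
    exact Nat.pow_le_pow_left (by omega) _
  obtain ⟨a, ha⟩ := Nat.exists_eq_add_of_le hLn
  have e1 : n - 2 * L = a := by omega
  have hnn : n * (n - 1) = n * p + n * e + n * e' := by rw [← hsum]; ring
  have hne : n * e = 2 * (L * e) + a * e := by rw [ha]; ring
  have hne' : n * e' = 2 * (L * e') + a * e' := by rw [ha]; ring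
  by_cases hbig : n ≤ 2 * (e + e')
  · -- many expensive rectangles
    refine (card_le_card RSetND_subset).trans ?_
    refine (card_le_card (RSet_subset_CodeSet w₀ k₀ ℓ p e e')).trans ?_
    refine (card_CodeSet2 w₀ k₀ ℓ p 0 e e' 0 n L d hα hβ hL (by omega) hLn hcheap).trans ?_
    rw [Nat.choose_zero_right, mul_one]
    refine (Nat.mul_le_mul_right _ hchoose).trans ?_
    rw [← pow_add]
    apply Nat.pow_le_pow_right (by norm_num)
    rw [hD] at hC1 ⊢
    rw [e1, hnn, hne, hne']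
    have h1 : L * (1 + e + e') = L + L * e + L * e' := by ring
    have h2 : a * (e + e') = a * e + a * e' := by ring
    have h3 : 1 * (e + e') ≤ L * (e + e') := Nat.mul_le_mul_right _ (by omega)
    have h4 : L * (e + e') = L * e + L * e' := by ring
    omega
  · push Not at hbig
    by_cases he' : 1 ≤ e'
    · -- column rectangles are cheap
      refine (card_le_card RSetND_subset).trans ?_
      refine (card_RSet w₀ p e e' n L hα hβ hL (by omega) hLn).trans ?_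
      refine (Nat.mul_le_mul_right _ hchoose).trans ?_
      rw [← pow_add]
      apply Nat.pow_le_pow_right (by norm_num)
      rw [hD] at hC2 ⊢
      rw [e1, hnn, hne]
      have h0 : n - p = 1 + e + e' := by omega
      rw [h0]
      have h1 : L * (1 + e + e') = L + L * e + L * e' := by ring
      -- (1 + e + e' + L (w₀+1)) e' + L + L e' + D ≤ n e'
      have h5 : (1 + e + e' + L * (w₀ + 1)) + L + L + D ≤ n := by omega
      have h6 : ((1 + e + e' + L * (w₀ + 1)) + L + L + D) * e' ≤ n * e' := Nat.mul_le_mul_right _ h5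
      have h7 : ((1 + e + e' + L * (w₀ + 1)) + L + L + D) * e' =
          (1 + e + e' + L * (w₀ + 1)) * e' + L * e' + L * e' + D * e' := by ring
      have h8 : L * 1 ≤ L * e' := Nat.mul_le_mul_left _ he'
      have h9 : D * 1 ≤ D * e' := Nat.mul_le_mul_left _ he'
      omega
    · have he0 : e' = 0 := by omega
      subst he0
      by_cases hLe : L + D ≤ L * e
      · refine (card_le_card RSetND_subset).trans ?_
        refine (card_RSet w₀ p e 0 n L hα hβ hL (by omega) hLn).trans ?_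
        refine (Nat.mul_le_mul_right _ hchoose).trans ?_
        rw [← pow_add]
        apply Nat.pow_le_pow_right (by norm_num)
        rw [hD, e1, hnn, hne]
        have h1 : L * (1 + e + 0) = L + L * e := by ring
        omega
      · push Not at hLe
        rw [hD] at hC3
        have h1 := card_RSet_nondep (α := α) (β := β) w₀ p e n L hα hβ hL (by omega)
        generalize #(RSetND (α := α) (β := β) w₀ p e 0) = T at *
        have hW2 : 2 ≤ 2 ^ (w₀ + 2) := by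
          calc 2 = 2 ^ 1 := by norm_num
            _ ≤ _ := Nat.pow_le_pow_right (by norm_num) (by omega)
        have h2 := pow_pred_div (2 ^ (w₀ + 2)) n hW2
        generalize 2 ^ (w₀ + 2) = N at *
        have h3 : T * N ^ n * 2 ^ (n / N) ≤ 2 ^ (n * (n - 1)) * N ^ n * 2 ^ (n / N) := by
          calc T * N ^ n * 2 ^ (n / N) ≤ (n.choose p * 2 ^ (L * (w₀ + 1) * e) *
                (2 ^ (n * p) * (2 ^ e * (N - 1)) ^ n)) * 2 ^ (n / N) := Nat.mul_le_mul_right _ h1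
            _ = n.choose p * (2 ^ (L * (w₀ + 1) * e) * 2 ^ (n * p) * 2 ^ (e * n)) *
                ((N - 1) ^ n * 2 ^ (n / N)) := by rw [mul_pow, ← pow_mul]; ring
            _ ≤ 2 ^ (L * (1 + e + 0)) * (2 ^ (L * (w₀ + 1) * e) * 2 ^ (n * p) * 2 ^ (e * n)) *
                N ^ n := Nat.mul_le_mul (Nat.mul_le_mul_right _ hchoose) h2
            _ = 2 ^ (L * (1 + e + 0) + (L * (w₀ + 1) * e + n * p + e * n)) * N ^ n := by
                rw [← pow_add, ← pow_add, ← pow_add]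
            _ ≤ 2 ^ (n * (n - 1) + n / N) * N ^ n := by
                apply Nat.mul_le_mul_right
                apply Nat.pow_le_pow_right (by norm_num)
                rw [hnn]
                have h4 : L * (1 + e + 0) = L + L * e := by ring
                have h5 : L * (w₀ + 1) * e = (w₀ + 1) * (L * e) := by ring
                have h6 : (w₀ + 2) * (L * e) ≤ (w₀ + 2) * (L + D) := Nat.mul_le_mul_left _ hLe.le
                have h7 : (w₀ + 2) * (L * e) = (w₀ + 1) * (L * e) + L * e := by ring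
                have h8 : e * n = n * e := by ring
                omega
            _ = _ := by rw [pow_add]; ring
        have hNpos : 0 < N ^ n := by positivity
        exact Nat.le_of_mul_le_mul_right (Nat.le_of_mul_le_mul_right h3 (by positivity)) hNpos

lemma cheap_final2 (n L ℓ k₀ : ℕ) (hL : n + 1 ≤ 2 ^ L)
    (hℓ1 : 5 * ℓ ≤ 2 * n) (hH : 80 * (1 + L * k₀) ≤ n) :
    #(CheapRects (α := Fin n) (β := Fin n) k₀ ℓ) ≤ 2 ^ (n - n / 80) := by
  have hcf : Fintype.card (Fin n) = n := Fintype.card_fin n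
  have hsmall := card_small' (β := Fin n) ℓ (by rw [hcf]; omega)
  rw [hcf] at hsmall
  have h1 := card_CheapRects (α := Fin n) (β := Fin n) k₀ ℓ L n _ hcf hcf hL (le_refl _)
    (le_refl _)
  have h2 := cheap_bound n ℓ _ (1 + L * k₀ + n / 80) hℓ1 hsmall (by omega)
  generalize #((univ : Finset (Finset (Fin n))).filter (fun X => #X ≤ ℓ)) = S at *
  generalize #(CheapRects (α := Fin n) (β := Fin n) k₀ ℓ) = T at *
  have h3 : T * 2 ^ (n / 80) ≤ 2 ^ (n - n / 80) * 2 ^ (n / 80) := by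
    calc _ ≤ (2 * (2 ^ (L * k₀) * S)) * 2 ^ (n / 80) := Nat.mul_le_mul_right _ h1
      _ = 2 ^ (1 + L * k₀ + n / 80) * S := by
          rw [pow_add, pow_add, pow_one]; ring
      _ ≤ 2 ^ n := h2
      _ = _ := by rw [← pow_add]; congr 1; omega
  exact Nat.le_of_mul_le_mul_right h3 (by positivity)

lemma tr_union (A B : α → Finset β) : tr (fun i => A i ∪ B i) = fun j => tr A j ∪ tr B j := by
  funext j; ext i; simp

/-- the three kinds of codes. -/
lemma three_kinds (n k₀ ℓ w₀ : ℕ) (A : Fin n → Finset (Fin n))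
    (hA2 : ∀ i, ¬ DepRow A i) (hA3 : ∀ j, ¬ DepRow (tr A) j)
    (P Q : Finset (Fin n)) (e e' s : ℕ)
    (hsum : #P + #Q + e + e' + s ≤ n - 1)
    (R₁ : Fin n → Finset (Fin n)) (h₁ : R₁ ∈ LineSet P Q)
    (R₂ : Fin n → Finset (Fin n)) (h₂ : R₂ ∈ ExpSet (α := Fin n) (β := Fin n) w₀ e)
    (R₃ : Fin n → Finset (Fin n)) (h₃ : R₃ ∈ ExpSet (α := Fin n) (β := Fin n) w₀ e')
    (R₄ : Fin n → Finset (Fin n)) (h₄ : R₄ ∈ CheapSet (α := Fin n) (β := Fin n) k₀ ℓ s)
    (hAe : A = fun i => R₁ i ∪ R₂ i ∪ tr R₃ i ∪ R₄ i) :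
    (∃ p q, (p + q + e + e' + s ≤ n - 1 ∧ ((1 ≤ s ∨ p + q + e + e' + s < n - 1) ∨
        (s = 0 ∧ p + q + e + e' = n - 1 ∧ 1 ≤ p ∧ 1 ≤ q))) ∧
        A ∈ CodeSet (α := Fin n) (β := Fin n) w₀ k₀ ℓ p q e e' s) ∨
    (∃ p e e', p + e + e' = n - 1 ∧ A ∈ RSetND (α := Fin n) (β := Fin n) w₀ p e e') ∨
    (∃ p e e', p + e + e' = n - 1 ∧ tr A ∈ RSetND (α := Fin n) (β := Fin n) w₀ p e e') := by
  by_cases hI : (1 ≤ s ∨ #P + #Q + e + e' + s < n - 1) ∨
      (s = 0 ∧ #P + #Q + e + e' = n - 1 ∧ 1 ≤ #P ∧ 1 ≤ #Q)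
  · left
    refine ⟨#P, #Q, ⟨hsum, hI⟩, ?_⟩
    unfold CodeSet
    rw [mem_biUnion]
    refine ⟨(P, Q), ?_, ?_⟩
    · rw [mem_product, mem_powersetCard, mem_powersetCard]
      exact ⟨⟨subset_univ _, rfl⟩, ⟨subset_univ _, rfl⟩⟩
    · rw [mem_image]
      refine ⟨(R₁, R₂, R₃, R₄), ?_, hAe.symm⟩
      simp only [mem_product]
      exact ⟨h₁, h₂, h₃, h₄⟩
  · right
    push Not at hI
    have hs0 : s = 0 := by omega
    subst hs0
    have hR4 : ∀ i, R₄ i = ∅ := by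
      rw [CheapSet, mem_image] at h₄
      obtain ⟨f, _, rfl⟩ := h₄
      intro i
      rw [eq_empty_iff_forall_notMem]
      intro j hj
      rw [mem_uniOn] at hj
      obtain ⟨t, _⟩ := hj
      exact t.elim0
    have hsum' : #P + #Q + e + e' = n - 1 := by omega
    have hPQ : #Q = 0 ∨ #P = 0 := by
      by_contra hcon
      push Not at hcon
      exact absurd (hI.2 rfl hsum' (by omega)) (by omega)
    rcases hPQ with hQ | hP
    · -- no full column
      left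
      refine ⟨#P, e, e', by omega, mem_RSetND.2 ⟨⟨P, rfl, R₁, ?_, R₂, h₂, R₃, h₃, ?_⟩, hA2⟩⟩
      · rw [card_eq_zero] at hQ
        rw [hQ] at h₁
        exact h₁
      · rw [hAe]
        funext i
        rw [hR4 i, union_empty]
    · -- no full row
      right
      rw [card_eq_zero] at hP
      subst hP
      refine ⟨#Q, e', e, ?_, mem_RSetND.2 ⟨⟨Q, rfl, tr R₁, ?_, R₃, h₃, R₂, h₂, ?_⟩, hA3⟩⟩
      · rw [card_empty] at hsum'
        omega
      · rw [LineSet, Fintype.mem_piFinset] at h₁ ⊢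
        intro j
        split_ifs with hj
        · exact mem_univ _
        · rw [mem_powerset]
          intro i hi
          rw [mem_tr] at hi
          have := h₁ i
          rw [if_neg (notMem_empty i), mem_powerset] at this
          exact absurd (this hi) hj
      · rw [hAe]
        funext j
        ext i
        simp only [mem_tr, mem_union, hR4 i, notMem_empty, or_false]
        constructor
        · rintro ((h | h) | h)
          · exact Or.inl (Or.inl h)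
          · exact Or.inr h
          · exact Or.inl (Or.inr h)
        · rintro ((h | h) | h)
          · exact Or.inl (Or.inl h)
          · exact Or.inr h
          · exact Or.inl (Or.inr h)

/-- typical matrices have a decomposition. -/
lemma typical_decomposition (n k₀ ℓ : ℕ) (A : Fin n → Finset (Fin n)) (hA : A ∈ Bad n)
    (hn1 : A ∉ BadRect (α := Fin n) (β := Fin n) (k₀ + 1))
    (hm : A ∉ BadMatch (α := Fin n) (β := Fin n) ℓ 20)
    (hm' : tr A ∉ BadMatch (α := Fin n) (β := Fin n) ℓ 20) :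
    ∃ (P Q : Finset (Fin n)) (e e' s : ℕ), #P + #Q + e + e' + s ≤ n - 1 ∧
      ∃ R₁ ∈ LineSet P Q, ∃ R₂ ∈ ExpSet (α := Fin n) (β := Fin n) 40 e,
      ∃ R₃ ∈ ExpSet (α := Fin n) (β := Fin n) 40 e',
      ∃ R₄ ∈ CheapSet (α := Fin n) (β := Fin n) k₀ ℓ s,
        A = fun i => R₁ i ∪ R₂ i ∪ tr R₃ i ∪ R₄ i := by
  obtain ⟨X, Y, hc, hr, hcp⟩ := exists_minimal_cover A (mem_Bad.1 hA)
  obtain ⟨W, hWc, hW⟩ := exists_vertex_cover A ℓ 20 (fun h => hm (mem_BadMatch.2 h))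
  obtain ⟨W', hWc', hW'⟩ := exists_vertex_cover (tr A) ℓ 20 (fun h => hm' (mem_BadMatch.2 h))
  refine decomposition hc hr hcp k₀ ℓ 40 W W' hWc hWc' hW hW' ?_
  intro X Y hXY
  by_contra hcon
  push Not at hcon
  obtain ⟨X', hX', hX'c⟩ := exists_subset_card_eq (show k₀ + 1 ≤ #X from hcon.1)
  obtain ⟨Y', hY', hY'c⟩ := exists_subset_card_eq (show k₀ + 1 ≤ #Y from hcon.2)
  exact hn1 (mem_BadRect.2 ⟨X', Y', hX'c, hY'c, fun i hi => hY'.trans (hXY i (hX' hi))⟩)

open Classical in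
/-- matrices of small rank without dependent rows or columns -/
noncomputable def NonDep (n : ℕ) : Finset (Fin n → Finset (Fin n)) :=
  (Bad n).filter (fun A => (∀ i, ¬ DepRow A i) ∧ (∀ j, ¬ DepRow (tr A) j))

lemma mem_NonDep {n : ℕ} {A : Fin n → Finset (Fin n)} :
    A ∈ NonDep n ↔ A ∈ Bad n ∧ (∀ i, ¬ DepRow A i) ∧ (∀ j, ¬ DepRow (tr A) j) := by
  classical
  unfold NonDep
  rw [mem_filter]

/-- general codes other than the main ones. -/
noncomputable def Part1 (n w₀ k₀ ℓ : ℕ) : Finset (Fin n → Finset (Fin n)) :=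
  ((range n ×ˢ range n ×ˢ range n ×ˢ range n ×ˢ range n).filter
      (fun v => v.1 + v.2.1 + v.2.2.1 + v.2.2.2.1 + v.2.2.2.2 ≤ n - 1 ∧
        ((1 ≤ v.2.2.2.2 ∨ v.1 + v.2.1 + v.2.2.1 + v.2.2.2.1 + v.2.2.2.2 < n - 1) ∨
          (v.2.2.2.2 = 0 ∧ v.1 + v.2.1 + v.2.2.1 + v.2.2.2.1 = n - 1 ∧ 1 ≤ v.1 ∧
            1 ≤ v.2.1)))).biUnion (fun v =>
    CodeSet (α := Fin n) (β := Fin n) w₀ k₀ ℓ v.1 v.2.1 v.2.2.1 v.2.2.2.1 v.2.2.2.2)

/-- codes with full rows only. -/
noncomputable def Part2 (n w₀ : ℕ) : Finset (Fin n → Finset (Fin n)) :=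
  ((range n ×ˢ range n ×ˢ range n).filter (fun v => v.1 + v.2.1 + v.2.2 = n - 1)).biUnion
    (fun v => RSetND (α := Fin n) (β := Fin n) w₀ v.1 v.2.1 v.2.2)

lemma card_Part1 (n L w₀ k₀ ℓ : ℕ) (hL : n + 1 ≤ 2 ^ L) (hL5 : 5 ≤ L) (h80 : 80 * L ≤ n)
    (hcheap : #(CheapRects (α := Fin n) (β := Fin n) k₀ ℓ) ≤ 2 ^ (n - n / 80))
    (hd : 18 * L + 2 * (w₀ * (w₀ + 5) * L) ^ 2 ≤ n / 80) :
    #(Part1 n w₀ k₀ ℓ) ≤ n ^ 5 * 2 ^ (n * (n - 1)) := by
  have hcf : Fintype.card (Fin n) = n := Fintype.card_fin n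
  have hC1 : 17 * L + 2 * (w₀ * (w₀ + 5) * L) ^ 2 ≤ n / 4 := by
    generalize (w₀ * (w₀ + 5) * L) ^ 2 = D at *
    omega
  unfold Part1
  refine card_biUnion_le.trans ?_
  refine (sum_le_sum (g := fun _ => 2 ^ (n * (n - 1))) ?_).trans ?_
  · rintro ⟨p, q, e, e', s⟩ hv
    rw [mem_filter] at hv
    obtain ⟨_, hsum, hv⟩ := hv
    simp only at hsum hv ⊢
    rcases hv with hv | ⟨hs, hsum2, hp, hq⟩
    · exact case_one w₀ k₀ ℓ p q e e' s n L (n / 80) hcf hcf hL hL5 (by omega) (by omega) hd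
        (by omega) hcheap hsum hv
    · rw [hs]
      exact case_two w₀ k₀ ℓ p q e e' n L (n / 80) hcf hcf hL hL5 (by omega) (by omega) hC1 hcheap
        hsum2 hp hq
  · rw [sum_const, smul_eq_mul]
    apply Nat.mul_le_mul_right
    refine (card_le_card (filter_subset _ _)).trans ?_
    simp only [card_product, card_range]
    exact le_of_eq (by ring)

lemma card_Part2 (n L w₀ k₀ ℓ : ℕ) (hL : n + 1 ≤ 2 ^ L) (hL5 : 5 ≤ L) (h80 : 80 * L ≤ n)
    (hcheap : #(CheapRects (α := Fin n) (β := Fin n) k₀ ℓ) ≤ 2 ^ (n - n / 80))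
    (hC1 : 17 * L + 2 * (w₀ * (w₀ + 5) * L) ^ 2 ≤ n / 4)
    (hC2 : 2 * L + (w₀ * (w₀ + 5) * L) ^ 2 + 1 + L * (w₀ + 1) ≤ n / 2)
    (hC3 : L + (w₀ + 2) * (L + (w₀ * (w₀ + 5) * L) ^ 2) ≤ n / 2 ^ (w₀ + 2)) :
    #(Part2 n w₀) ≤ n ^ 3 * 2 ^ (n * (n - 1)) := by
  have hcf : Fintype.card (Fin n) = n := Fintype.card_fin n
  unfold Part2
  refine card_biUnion_le.trans ?_
  refine (sum_le_sum (g := fun _ => 2 ^ (n * (n - 1))) ?_).trans ?_
  · rintro ⟨p, e, e'⟩ hv
    rw [mem_filter] at hv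
    simp only at hv ⊢
    exact case_three w₀ k₀ ℓ p e e' n L (n / 80) hcf hcf hL hL5 (by omega) hcheap hC1 hC2 hC3
      hv.2 (by omega)
  · rw [sum_const, smul_eq_mul]
    apply Nat.mul_le_mul_right
    refine (card_le_card (filter_subset _ _)).trans ?_
    simp only [card_product, card_range]
    exact le_of_eq (by ring)

lemma NonDep_subset (n k₀ ℓ : ℕ) (hn : 1 ≤ n) : NonDep n ⊆
    Part1 n 40 k₀ ℓ ∪ Part2 n 40 ∪ (Part2 n 40).image tr ∪
      (BadRect (α := Fin n) (β := Fin n) (k₀ + 1) ∪ BadMatch (α := Fin n) (β := Fin n) ℓ 20 ∪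
        (BadMatch (α := Fin n) (β := Fin n) ℓ 20).image tr) := by
  intro A hA
  obtain ⟨hA1, hA2, hA3⟩ := mem_NonDep.1 hA
  by_cases h1 : A ∈ BadRect (α := Fin n) (β := Fin n) (k₀ + 1)
  · exact mem_union_right _ (mem_union_left _ (mem_union_left _ h1))
  by_cases h2 : A ∈ BadMatch (α := Fin n) (β := Fin n) ℓ 20
  · exact mem_union_right _ (mem_union_left _ (mem_union_right _ h2))
  by_cases h3 : tr A ∈ BadMatch (α := Fin n) (β := Fin n) ℓ 20
  · exact mem_union_right _ (mem_union_right _ (mem_image.2 ⟨tr A, h3, tr_tr A⟩))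
  apply mem_union_left
  obtain ⟨P, Q, e, e', s, hsum, R₁, h₁, R₂, h₂, R₃, h₃, R₄, h₄, hAe⟩ :=
    typical_decomposition n k₀ ℓ A hA1 h1 h2 h3
  rcases three_kinds n k₀ ℓ 40 A hA2 hA3 P Q e e' s hsum R₁ h₁ R₂ h₂ R₃ h₃ R₄ h₄ hAe with
    ⟨p, q, h5, h6⟩ | ⟨p, e, e', h5, h6⟩ | ⟨p, e, e', h5, h6⟩
  · apply mem_union_left
    apply mem_union_left
    unfold Part1
    rw [mem_biUnion]
    refine ⟨(p, q, e, e', s), ?_, h6⟩
    rw [mem_filter]
    refine ⟨?_, h5⟩
    have := h5.1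
    simp only [mem_product, mem_range]
    omega
  · apply mem_union_left
    apply mem_union_right
    unfold Part2
    rw [mem_biUnion]
    refine ⟨(p, e, e'), ?_, h6⟩
    rw [mem_filter]
    refine ⟨?_, h5⟩
    simp only [mem_product, mem_range]
    omega
  · apply mem_union_right
    rw [mem_image]
    refine ⟨tr A, ?_, tr_tr A⟩
    unfold Part2
    rw [mem_biUnion]
    refine ⟨(p, e, e'), ?_, h6⟩
    rw [mem_filter]
    refine ⟨?_, h5⟩
    simp only [mem_product, mem_range]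
    omega

theorem card_NonDep (n L : ℕ) (hL : n + 1 ≤ 2 ^ L) (hL5 : 5 ≤ L)
    (hH : 80 * (1 + L * (2 * L + Nat.sqrt n)) ≤ n)
    (hd : 18 * L + 2 * (40 * (40 + 5) * L) ^ 2 ≤ n / 80)
    (hC3 : L + (40 + 2) * (L + (40 * (40 + 5) * L) ^ 2) ≤ n / 2 ^ (40 + 2)) :
    #(NonDep n) ≤ (n ^ 5 + 2 * n ^ 3 + 3) * 2 ^ (n * (n - 1)) := by
  have h80 : 80 * L ≤ n := by
    have : 10 * L ≤ L * (2 * L + Nat.sqrt n) := by nlinarith [Nat.zero_le (L * Nat.sqrt n)]
    omega
  have hC1 : 17 * L + 2 * (40 * (40 + 5) * L) ^ 2 ≤ n / 4 := by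
    generalize (40 * (40 + 5) * L) ^ 2 = D at *
    omega
  have hC2 : 2 * L + (40 * (40 + 5) * L) ^ 2 + 1 + L * (40 + 1) ≤ n / 2 := by
    generalize (40 * (40 + 5) * L) ^ 2 = D at *
    omega
  obtain ⟨k₀, hk₀⟩ : ∃ k₀, k₀ = 2 * L + Nat.sqrt n := ⟨_, rfl⟩
  obtain ⟨ℓ, hℓ⟩ : ∃ ℓ, ℓ = 2 * n / 5 := ⟨_, rfl⟩
  rw [← hk₀] at hH
  have hcheap := cheap_final2 n L ℓ k₀ hL (by omega) hH
  have hS1c := rect_final n L k₀ hL (by omega) hk₀
  have hS2c := match_final n L ℓ hL (by omega) (by omega) h80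
  have hP1 := card_Part1 n L 40 k₀ ℓ hL hL5 h80 hcheap hd
  have hP2 := card_Part2 n L 40 k₀ ℓ hL hL5 h80 hcheap hC1 hC2 hC3
  have hS3c : #((BadMatch (α := Fin n) (β := Fin n) ℓ 20).image tr) ≤ 2 ^ (n * (n - 1)) :=
    card_image_le.trans hS2c
  have hP3 : #((Part2 n 40).image tr) ≤ n ^ 3 * 2 ^ (n * (n - 1)) := card_image_le.trans hP2
  refine (card_le_card (NonDep_subset n k₀ ℓ (by omega))).trans ?_
  refine (card_union_le _ _).trans ?_
  refine (Nat.add_le_add ((card_union_le _ _).trans (Nat.add_le_add_right (card_union_le _ _) _))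
    ((card_union_le _ _).trans (Nat.add_le_add_right (card_union_le _ _) _))).trans ?_
  calc _ ≤ n ^ 5 * 2 ^ (n * (n - 1)) + n ^ 3 * 2 ^ (n * (n - 1)) + n ^ 3 * 2 ^ (n * (n - 1)) +
        (2 ^ (n * (n - 1)) + 2 ^ (n * (n - 1)) + 2 ^ (n * (n - 1))) :=
        Nat.add_le_add (Nat.add_le_add (Nat.add_le_add hP1 hP2) hP3)
          (Nat.add_le_add (Nat.add_le_add hS1c hS2c) hS3c)
    _ = _ := by ring

end Pool.Agent.H38.Schein
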