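import Mathlib
import Pool.Agent.H38.ScheinK

/-!
Helper file for MP_72bf7f_co: matrices with dependent rows or columns.
-/

open Finset

set_option linter.unusedSectionVars false

namespace Pool.Agent.H38.Schein

variable {α β : Type*} [Fintype α] [Fintype β] [DecidableEq α] [DecidableEq β]

/-- every row in `K` has a private element. -/
def Irr (A : α → Finset β) (K : Finset α) : Prop :=
  ∀ t ∈ K, ∃ b, ∀ t' ∈ K, (b ∈ A t' ↔ t = t')

lemma Irr.subset {A : α → Finset β} {K K' : Finset α} (h : Irr A K) (hK : K' ⊆ K) : Irr A K' := by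
  intro t ht
  obtain ⟨b, hb⟩ := h t (hK ht)
  exact ⟨b, fun t' ht' => hb t' (hK ht')⟩

lemma exists_irr (A : α → Finset β) (K : Finset α) :
    ∃ K₀ ⊆ K, Irr A K₀ ∧ K₀.biUnion A = K.biUnion A := by
  induction K using Finset.strongInduction with
  | H K ih =>
    by_cases h : Irr A K
    · exact ⟨K, Subset.refl _, h, rfl⟩
    · unfold Irr at h
      push Not at h
      obtain ⟨t, ht, hb⟩ := h
      have hlt : K.erase t ⊂ K := erase_ssubset ht
      obtain ⟨K₀, h1, h2, h3⟩ := ih (K.erase t) hlt
      refine ⟨K₀, h1.trans (erase_subset _ _), h2, ?_⟩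
      rw [h3]
      ext b
      rw [mem_biUnion, mem_biUnion]
      constructor
      · rintro ⟨s, hs, hbs⟩
        exact ⟨s, mem_of_mem_erase hs, hbs⟩
      · rintro ⟨s, hs, hbs⟩
        by_cases hst : s = t
        · subst hst
          obtain ⟨t', ht', h4⟩ := hb b
          rcases h4 with ⟨h5, h6⟩ | ⟨h5, h6⟩
          · exact ⟨t', mem_erase.2 ⟨fun h => h6 h.symm, ht'⟩, h5⟩
          · subst h6
            exact absurd hbs h5
        · exact ⟨s, mem_erase.2 ⟨hst, hs⟩, hbs⟩

open Classical in
/-- counting matrices in which the rows in `K` have private elements. -/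
lemma card_Irr (K : Finset α) :
    #((univ : Finset (α → Finset β)).filter (fun A => Irr A K)) * 2 ^ (#K * #K) ≤
      Fintype.card β ^ #K * 2 ^ (Fintype.card α * Fintype.card β) := by
  -- choose the private elements
  set F : Finset (K → β) := univ.filter (fun j => Function.Injective j) with hF
  have hsub : (univ : Finset (α → Finset β)).filter (fun A => Irr A K) ⊆
      F.biUnion (fun j => Fintype.piFinset (fun t' : α =>
        if t' ∈ K then (univ : Finset (Finset β)).filter
          (fun Y' => ∀ t : K, (j t ∈ Y' ↔ t.1 = t')) else univ)) := by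
    intro A hA
    have h := (mem_filter.1 hA).2
    choose j hj using h
    rw [mem_biUnion]
    refine ⟨fun t => j t.1 t.2, ?_, ?_⟩
    · rw [hF, mem_filter]
      refine ⟨mem_univ _, ?_⟩
      rintro ⟨t, ht⟩ ⟨t', ht'⟩ htt
      simp only at htt
      have h1 : j t' ht' ∈ A t' := (hj t' ht' t' ht').2 rfl
      rw [← htt] at h1
      exact Subtype.ext ((hj t ht t' ht').1 h1)
    · rw [Fintype.mem_piFinset]
      intro t'
      split_ifs with ht'
      · simp only [mem_filter, mem_univ, true_and]
        exact fun t => hj t.1 t.2 t' ht'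
      · exact mem_univ _
  have hterm : ∀ j ∈ F, #(Fintype.piFinset (fun t' : α =>
        if t' ∈ K then (univ : Finset (Finset β)).filter
          (fun Y' => ∀ t : K, (j t ∈ Y' ↔ t.1 = t')) else univ)) * 2 ^ (#K * #K) ≤
        2 ^ (Fintype.card α * Fintype.card β) := by
    intro j hj
    have hinj := (mem_filter.1 hj).2
    have hKβ : #K ≤ Fintype.card β := by
      have := Fintype.card_le_of_injective j hinj
      rwa [Fintype.card_coe] at this
    have hKα : #K ≤ Fintype.card α := card_le_univ _
    have h1 : ∀ t' : α, #(if t' ∈ K then (univ : Finset (Finset β)).filter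
          (fun Y' => ∀ t : K, (j t ∈ Y' ↔ t.1 = t')) else univ) ≤
        if t' ∈ K then 2 ^ (Fintype.card β - #K) else 2 ^ Fintype.card β := by
      intro t'
      split_ifs with ht'
      · have h2 := card_pattern (ι := K) (univ : Finset K) j (fun a _ b _ h => hinj h) ⟨t', ht'⟩
        rw [card_univ, Fintype.card_coe] at h2
        refine le_trans (card_le_card ?_) h2
        intro Y' hY'
        simp only [mem_filter, mem_univ, true_and, forall_const] at hY' ⊢
        intro t
        rw [hY' t]
        constructor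
        · intro h; exact Subtype.ext h
        · intro h; rw [h]
      · rw [card_univ, Fintype.card_finset]
    rw [Fintype.card_piFinset]
    calc _ ≤ (∏ t' : α, (if t' ∈ K then 2 ^ (Fintype.card β - #K) else 2 ^ Fintype.card β)) *
          2 ^ (#K * #K) := Nat.mul_le_mul_right _ (prod_le_prod' (fun t' _ => h1 t'))
      _ = 2 ^ (Fintype.card α * Fintype.card β) := by
          rw [prod_ite, prod_const, prod_const, ← pow_mul, ← pow_mul, ← pow_add, ← pow_add]
          have h2 : (univ.filter (fun i => i ∈ K)) = K := by ext i; simp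
          have h3 : (univ.filter (fun i => i ∉ K)) = Kᶜ := by ext i; simp
          rw [h2, h3, card_compl]
          congr 1
          obtain ⟨a, ha⟩ := Nat.exists_eq_add_of_le hKβ
          obtain ⟨b, hb⟩ := Nat.exists_eq_add_of_le hKα
          rw [ha, hb, Nat.add_sub_cancel_left, Nat.add_sub_cancel_left]
          ring
  have hFc : #F ≤ Fintype.card β ^ #K := by
    calc #F ≤ #(univ : Finset (K → β)) := card_le_card (filter_subset _ _)
      _ = _ := by rw [card_univ, Fintype.card_fun, Fintype.card_coe]
  calc _ ≤ (∑ j ∈ F, #(Fintype.piFinset (fun t' : α =>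
        if t' ∈ K then (univ : Finset (Finset β)).filter
          (fun Y' => ∀ t : K, (j t ∈ Y' ↔ t.1 = t')) else univ))) * 2 ^ (#K * #K) :=
        Nat.mul_le_mul_right _ ((card_le_card hsub).trans card_biUnion_le)
    _ = ∑ j ∈ F, #(Fintype.piFinset (fun t' : α =>
        if t' ∈ K then (univ : Finset (Finset β)).filter
          (fun Y' => ∀ t : K, (j t ∈ Y' ↔ t.1 = t')) else univ)) * 2 ^ (#K * #K) := by
        rw [sum_mul]
    _ ≤ ∑ _j ∈ F, 2 ^ (Fintype.card α * Fintype.card β) := sum_le_sum hterm
    _ = #F * 2 ^ (Fintype.card α * Fintype.card β) := by rw [sum_const, smul_eq_mul]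
    _ ≤ _ := Nat.mul_le_mul_right _ hFc

open Classical in
/-- matrices with a large family of rows with private elements. -/
noncomputable def BadIrr (k : ℕ) : Finset (α → Finset β) :=
  univ.filter (fun A => ∃ K : Finset α, #K = k ∧ Irr A K)

lemma mem_BadIrr {k : ℕ} {A : α → Finset β} : A ∈ BadIrr (α := α) (β := β) k ↔
    ∃ K : Finset α, #K = k ∧ Irr A K := by
  classical
  unfold BadIrr
  rw [mem_filter]
  simp only [mem_univ, true_and]

lemma card_BadIrr (n k L : ℕ) (hα : Fintype.card α = n) (hβ : Fintype.card β = n)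
    (hL : n + 1 ≤ 2 ^ L) :
    #(BadIrr (α := α) (β := β) k) * 2 ^ (k * k) ≤ 2 ^ (n * n + 2 * L * k) := by
  classical
  have hsub : BadIrr (α := α) (β := β) k ⊆ (powersetCard k (univ : Finset α)).biUnion
      (fun K => univ.filter (fun A => Irr A K)) := by
    intro A hA
    obtain ⟨K, hK, h⟩ := mem_BadIrr.1 hA
    rw [mem_biUnion]
    exact ⟨K, mem_powersetCard.2 ⟨subset_univ _, hK⟩, mem_filter.2 ⟨mem_univ _, h⟩⟩
  calc _ ≤ (∑ K ∈ powersetCard k (univ : Finset α),
        #((univ : Finset (α → Finset β)).filter (fun A => Irr A K))) * 2 ^ (k * k) :=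
        Nat.mul_le_mul_right _ ((card_le_card hsub).trans card_biUnion_le)
    _ = ∑ K ∈ powersetCard k (univ : Finset α),
        #((univ : Finset (α → Finset β)).filter (fun A => Irr A K)) * 2 ^ (k * k) := by
        rw [sum_mul]
    _ ≤ ∑ _K ∈ powersetCard k (univ : Finset α), n ^ k * 2 ^ (n * n) := by
        apply sum_le_sum
        intro K hK
        have hKc := (mem_powersetCard.1 hK).2
        have := card_Irr (β := β) K
        rw [hKc, hα, hβ] at this
        exact this
    _ = n.choose k * (n ^ k * 2 ^ (n * n)) := by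
        rw [sum_const, smul_eq_mul, card_powersetCard, card_univ, hα]
    _ ≤ 2 ^ (L * k) * (2 ^ (L * k) * 2 ^ (n * n)) := by
        have h1 : n ^ k ≤ 2 ^ (L * k) := by
          rw [pow_mul]; exact Nat.pow_le_pow_left (by omega) _
        exact Nat.mul_le_mul ((Nat.choose_le_pow _ _).trans h1) (Nat.mul_le_mul_right _ h1)
    _ = _ := by rw [← pow_add, ← pow_add]; congr 1; ring

/-- two dependent rows -/
lemma dep_row_row (A : α → Finset β) (i i' : α) (hne : i ≠ i') (h : DepRow A i)
    (h' : DepRow A i') : A i = A i' ∨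
      ∃ K K' : Finset α, i ∉ K ∧ i' ∉ K ∧ i ∉ K' ∧ i' ∉ K' ∧ Irr A K ∧ Irr A K' ∧
        A i = K.biUnion A ∧ A i' = K'.biUnion A := by
  obtain ⟨K, hK, hAK⟩ := h
  obtain ⟨K', hK', hAK'⟩ := h'
  have key : ∀ (i i' : α) (_ : i ≠ i') (K K' : Finset α), i ∉ K → i' ∉ K' → i ∉ K' →
      A i = K.biUnion A → A i' = K'.biUnion A →
      ∃ K K' : Finset α, i ∉ K ∧ i' ∉ K ∧ i ∉ K' ∧ i' ∉ K' ∧ Irr A K ∧ Irr A K' ∧
        A i = K.biUnion A ∧ A i' = K'.biUnion A := by
    intro i i' hne K K' hK hK' hiK' hAK hAK'
    obtain ⟨M', hM', hI', hU'⟩ := exists_irr A K'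
    -- replace `i'` in `K` by `K'`
    have hUK : A i = (if i' ∈ K then (K.erase i') ∪ K' else K).biUnion A := by
      split_ifs with h
      · rw [hAK]
        ext b
        simp only [mem_biUnion, mem_union, mem_erase]
        constructor
        · rintro ⟨s, hs, hb⟩
          by_cases hsi : s = i'
          · subst hsi
            rw [hAK', mem_biUnion] at hb
            obtain ⟨r, hr, hb⟩ := hb
            exact ⟨r, Or.inr hr, hb⟩
          · exact ⟨s, Or.inl ⟨hsi, hs⟩, hb⟩
        · rintro ⟨s, (hs | hs), hb⟩
          · exact ⟨s, hs.2, hb⟩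
          · refine ⟨i', h, ?_⟩
            rw [hAK', mem_biUnion]
            exact ⟨s, hs, hb⟩
      · exact hAK
    obtain ⟨M, hM, hI, hU⟩ := exists_irr A (if i' ∈ K then (K.erase i') ∪ K' else K)
    refine ⟨M, M', ?_, ?_, fun h => hiK' (hM' h), fun h => hK' (hM' h), hI, hI', ?_, ?_⟩
    · intro h
      have := hM h
      split_ifs at this with h2
      · rw [mem_union, mem_erase] at this
        rcases this with h3 | h3
        · exact hK h3.2
        · exact hiK' h3
      · exact hK this
    · intro h
      have := hM h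
      split_ifs at this with h2
      · rw [mem_union, mem_erase] at this
        rcases this with h3 | h3
        · exact h3.1 rfl
        · exact hK' h3
      · exact h2 this
    · rw [hU]; exact hUK
    · rw [hU']; exact hAK'
  by_cases h1 : i ∈ K'
  · by_cases h2 : i' ∈ K
    · left
      apply Subset.antisymm
      · rw [hAK']; exact subset_biUnion_of_mem A h1
      · rw [hAK]; exact subset_biUnion_of_mem A h2
    · right
      obtain ⟨M', M, a, b, c, d, e, f, g, h⟩ := key i' i (Ne.symm hne) K' K hK' hK h2 hAK' hAK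
      exact ⟨M, M', d, c, b, a, f, e, h, g⟩
  · right
    exact key i i' hne K K' hK hK' h1 hAK hAK'

open Classical in
lemma card_RR (i i' : α) (hne : i ≠ i') (K K' : Finset α) (hi : i ∉ K) (hi' : i' ∉ K)
    (hi2 : i ∉ K') (hi2' : i' ∉ K') :
    #((univ : Finset (α → Finset β)).filter (fun A => A i = K.biUnion A ∧ A i' = K'.biUnion A))
      ≤ 2 ^ (Fintype.card β * (Fintype.card α - 2)) := by
  have h1 : #((univ : Finset (α → Finset β)).filter
      (fun A => A i = K.biUnion A ∧ A i' = K'.biUnion A)) ≤
      #(univ : Finset ((({i, i'} : Finset α)ᶜ : Finset α) → Finset β)) := by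
    apply card_le_card_of_injOn (fun A => fun x => A x.1)
    · intro A _
      exact mem_univ _
    · intro A hA B hB hAB
      obtain ⟨hA1, hA2⟩ := (mem_filter.1 hA).2
      obtain ⟨hB1, hB2⟩ := (mem_filter.1 hB).2
      have hx : ∀ x, x ≠ i → x ≠ i' → A x = B x := by
        intro x h1 h2
        exact congrFun hAB ⟨x, by simp [h1, h2]⟩
      have hK : K.biUnion A = K.biUnion B := by
        apply biUnion_congr rfl
        intro x hxK
        exact hx x (fun h => hi (h ▸ hxK)) (fun h => hi' (h ▸ hxK))
      have hK' : K'.biUnion A = K'.biUnion B := by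
        apply biUnion_congr rfl
        intro x hxK
        exact hx x (fun h => hi2 (h ▸ hxK)) (fun h => hi2' (h ▸ hxK))
      funext x
      by_cases h1 : x = i
      · rw [h1, hA1, hB1, hK]
      · by_cases h2 : x = i'
        · rw [h2, hA2, hB2, hK']
        · exact hx x h1 h2
  refine h1.trans (le_of_eq ?_)
  rw [card_univ, Fintype.card_fun, Fintype.card_finset, Fintype.card_coe, card_compl,
    card_pair hne, pow_mul]

open Classical in
lemma card_eq_rows (i i' : α) (hne : i ≠ i') :
    #((univ : Finset (α → Finset β)).filter (fun A => A i = A i'))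
      ≤ 2 ^ (Fintype.card β * (Fintype.card α - 1)) := by
  have h1 : #((univ : Finset (α → Finset β)).filter (fun A => A i = A i')) ≤
      #(univ : Finset ((({i} : Finset α)ᶜ : Finset α) → Finset β)) := by
    apply card_le_card_of_injOn (fun A => fun x => A x.1)
    · intro A _
      exact mem_univ _
    · intro A hA B hB hAB
      have hA1 := (mem_filter.1 hA).2
      have hB1 := (mem_filter.1 hB).2
      have hx : ∀ x, x ≠ i → A x = B x := by
        intro x h1
        exact congrFun hAB ⟨x, by simp [h1]⟩
      funext x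
      by_cases h1 : x = i
      · rw [h1, hA1, hB1, hx i' (Ne.symm hne)]
      · exact hx x h1
  refine h1.trans (le_of_eq ?_)
  rw [card_univ, Fintype.card_fun, Fintype.card_finset, Fintype.card_coe, card_compl,
    card_singleton, pow_mul]

open Classical in
lemma card_RC (i : α) (j : β) (K : Finset α) (K' : Finset β) (hi : i ∉ K) (hj : j ∉ K') :
    #((univ : Finset (α → Finset β)).filter
      (fun A => A i = K.biUnion A ∧ tr A j = K'.biUnion (tr A)))
      ≤ 2 ^ ((Fintype.card β - 1) * (Fintype.card α - 1) + 1) := by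
  have h1 : #((univ : Finset (α → Finset β)).filter
      (fun A => A i = K.biUnion A ∧ tr A j = K'.biUnion (tr A))) ≤
      #((Fintype.piFinset (fun _ : (({i} : Finset α)ᶜ : Finset α) =>
        ((univ : Finset β).erase j).powerset)) ×ˢ (univ : Finset Bool)) := by
    apply card_le_card_of_injOn (fun A => ((fun x => (A x.1).erase j), decide (j ∈ A i)))
    · intro A _
      simp only [coe_product, Set.mem_prod, mem_coe, Fintype.mem_piFinset, mem_univ, and_true]
      intro x
      rw [mem_powerset]
      exact erase_subset_erase _ (subset_univ _)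
    · intro A hA B hB hAB
      obtain ⟨hA1, hA2⟩ := (mem_filter.1 hA).2
      obtain ⟨hB1, hB2⟩ := (mem_filter.1 hB).2
      simp only [Prod.mk.injEq, decide_eq_decide] at hAB
      obtain ⟨h2, h3⟩ := hAB
      have hxy : ∀ x y, x ≠ i → y ≠ j → (y ∈ A x ↔ y ∈ B x) := by
        intro x y h4 h5
        have h6 := congrFun h2 ⟨x, by simp [h4]⟩
        simp only at h6
        have h7 : y ∈ (A x).erase j ↔ y ∈ (B x).erase j := by rw [h6]
        simpa [h5] using h7
      funext x
      ext y
      by_cases h4 : x = i
      · by_cases h5 : y = j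
        · rw [h4, h5]; exact h3
        · rw [h4, hA1, hB1, mem_biUnion, mem_biUnion]
          constructor
          · rintro ⟨t, ht, hy⟩
            exact ⟨t, ht, (hxy t y (fun h => hi (h ▸ ht)) h5).1 hy⟩
          · rintro ⟨t, ht, hy⟩
            exact ⟨t, ht, (hxy t y (fun h => hi (h ▸ ht)) h5).2 hy⟩
      · by_cases h5 : y = j
        · rw [h5, ← mem_tr A, ← mem_tr B, hA2, hB2, mem_biUnion, mem_biUnion]
          constructor
          · rintro ⟨t, ht, hx⟩
            rw [mem_tr] at hx
            exact ⟨t, ht, by rw [mem_tr]; exact (hxy x t h4 (fun h => hj (h ▸ ht))).1 hx⟩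
          · rintro ⟨t, ht, hx⟩
            rw [mem_tr] at hx
            exact ⟨t, ht, by rw [mem_tr]; exact (hxy x t h4 (fun h => hj (h ▸ ht))).2 hx⟩
        · exact hxy x y h4 h5
  refine h1.trans (le_of_eq ?_)
  rw [card_product, Fintype.card_piFinset, prod_const, card_powerset, card_erase_of_mem (mem_univ _),
    card_univ, card_univ, Fintype.card_coe, card_compl, card_singleton, card_univ,
    Fintype.card_bool, ← pow_mul, pow_succ]

end Pool.Agent.H38.Schein
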