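import Mathlib
import Pool.Agent.H38.ScheinL
import Pool.Agent.H38.ScheinH

/-!
Helper file for MP_72bf7f_co: double counting of dependent rows and columns.
-/

open Finset

set_option linter.unusedSectionVars false

namespace Pool.Agent.H38.Schein

variable {α β : Type*} [Fintype α] [Fintype β] [DecidableEq α] [DecidableEq β]

/-- the set of all unions of rows. -/
def rowSpace (A : α → Finset β) : Finset (Finset β) := univ.image (fun K : Finset α => K.biUnion A)

/-- the total size of all row spaces of `m × (m+1)` matrices. -/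
def Ntot (m : ℕ) : ℕ := ∑ A' : Fin m → Finset (Fin (m + 1)), #(rowSpace A')

lemma depRow_insertNth {m : ℕ} (i : Fin (m + 1)) (S : Finset (Fin (m + 1)))
    (A' : Fin m → Finset (Fin (m + 1))) :
    DepRow (i.insertNth (α := fun _ => Finset (Fin (m + 1))) S A') i ↔ S ∈ rowSpace A' := by
  rw [rowSpace, mem_image]
  constructor
  · rintro ⟨K, hK, hS⟩
    refine ⟨univ.filter (fun x => i.succAbove x ∈ K), mem_univ _, ?_⟩
    rw [Fin.insertNth_apply_same] at hS
    rw [hS]
    ext b
    simp only [mem_biUnion, mem_filter, mem_univ, true_and]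
    constructor
    · rintro ⟨x, hx, hb⟩
      exact ⟨i.succAbove x, hx, by rwa [Fin.insertNth_apply_succAbove]⟩
    · rintro ⟨y, hy, hb⟩
      have hyi : y ≠ i := fun h => hK (h ▸ hy)
      obtain ⟨x, rfl⟩ := Fin.exists_succAbove_eq hyi
      rw [Fin.insertNth_apply_succAbove] at hb
      exact ⟨x, hy, hb⟩
  · rintro ⟨K, _, hS⟩
    refine ⟨K.image i.succAbove, ?_, ?_⟩
    · rw [mem_image]
      rintro ⟨x, _, hx⟩
      exact Fin.succAbove_ne i x hx
    · rw [Fin.insertNth_apply_same, ← hS]
      ext b
      simp only [mem_biUnion, mem_image]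
      constructor
      · rintro ⟨x, hx, hb⟩
        exact ⟨i.succAbove x, ⟨x, hx, rfl⟩, by rwa [Fin.insertNth_apply_succAbove]⟩
      · rintro ⟨y, ⟨x, hx, rfl⟩, hb⟩
        rw [Fin.insertNth_apply_succAbove] at hb
        exact ⟨x, hx, hb⟩

open Classical in
lemma card_DepRow (m : ℕ) (i : Fin (m + 1)) :
    #((univ : Finset (Fin (m + 1) → Finset (Fin (m + 1)))).filter (fun A => DepRow A i)) =
      Ntot m := by
  have h1 : #((univ : Finset (Fin (m + 1) → Finset (Fin (m + 1)))).filter
      (fun A => DepRow A i)) =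
      #((univ : Finset (Fin m → Finset (Fin (m + 1)))).sigma (fun A' => rowSpace A')) := by
    symm
    apply card_bij (fun (q : Σ _ : Fin m → Finset (Fin (m + 1)), Finset (Fin (m + 1))) _ =>
      (i.insertNth (α := fun _ => Finset (Fin (m + 1))) q.2 q.1 :
        Fin (m + 1) → Finset (Fin (m + 1))))
    · rintro ⟨A', S⟩ hq
      rw [mem_sigma] at hq
      exact mem_filter.2 ⟨mem_univ _, (depRow_insertNth i S A').2 hq.2⟩
    · rintro ⟨A₁, S₁⟩ _ ⟨A₂, S₂⟩ _ h
      simp only at h
      have hS : S₁ = S₂ := by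
        have := congrFun h i
        simpa using this
      have hA : A₁ = A₂ := by
        funext x
        have := congrFun h (i.succAbove x)
        simpa using this
      rw [hS, hA]
    · intro A hA
      have hA2 := (mem_filter.1 hA).2
      have hAe : (i.insertNth (α := fun _ => Finset (Fin (m + 1))) (A i)
          (fun x => A (i.succAbove x)) : Fin (m + 1) → Finset (Fin (m + 1))) = A := by
        funext y
        by_cases hy : y = i
        · rw [hy, Fin.insertNth_apply_same]
        · obtain ⟨x, rfl⟩ := Fin.exists_succAbove_eq hy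
          rw [Fin.insertNth_apply_succAbove]
      refine ⟨⟨fun x => A (i.succAbove x), A i⟩, ?_, hAe⟩
      rw [mem_sigma]
      refine ⟨mem_univ _, (depRow_insertNth i _ _).1 ?_⟩
      simp only
      rw [hAe]
      exact hA2
  rw [h1, card_sigma, Ntot]

lemma dep_mem_Bad (m : ℕ) (A : Fin (m + 1) → Finset (Fin (m + 1))) (i : Fin (m + 1))
    (h : DepRow A i) : A ∈ Bad (m + 1) := by
  obtain ⟨K, hK, hA⟩ := h
  rw [mem_Bad]
  refine ⟨fun t => univ.filter (fun y => y = i.succAbove t ∨ (y = i ∧ i.succAbove t ∈ K)),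
    fun t => A (i.succAbove t), ?_⟩
  intro y b
  simp only [mem_filter, mem_univ, true_and]
  constructor
  · intro hb
    by_cases hy : y = i
    · subst hy
      rw [hA, mem_biUnion] at hb
      obtain ⟨s, hs, hb⟩ := hb
      obtain ⟨x, rfl⟩ := Fin.exists_succAbove_eq (fun h => hK (h ▸ hs) : s ≠ y)
      exact ⟨x, Or.inr ⟨rfl, hs⟩, hb⟩
    · obtain ⟨x, rfl⟩ := Fin.exists_succAbove_eq hy
      exact ⟨x, Or.inl rfl, hb⟩
  · rintro ⟨x, (hx | ⟨hx, hxK⟩), hb⟩
    · rw [hx]; exact hb
    · rw [hx, hA, mem_biUnion]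
      exact ⟨_, hxK, hb⟩

lemma tr_mem_Bad {n : ℕ} (A : Fin n → Finset (Fin n)) (h : tr A ∈ Bad n) : A ∈ Bad n := by
  rw [mem_Bad] at h ⊢
  obtain ⟨X, Y, hXY⟩ := h
  have := hXY.tr
  rw [tr_tr] at this
  exact ⟨Y, X, this⟩

/-- dependency of a row or a column. -/
def Dep {n : ℕ} (A : Fin n → Finset (Fin n)) : Fin n ⊕ Fin n → Prop
  | Sum.inl i => DepRow A i
  | Sum.inr j => DepRow (tr A) j

open Classical in
/-- the matrices with at least two dependencies. -/
noncomputable def TwoDep (n : ℕ) : Finset (Fin n → Finset (Fin n)) :=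
  univ.filter (fun A => ∃ x y, x ≠ y ∧ Dep A x ∧ Dep A y)

open Classical in
lemma card_Dep (m : ℕ) (x : Fin (m + 1) ⊕ Fin (m + 1)) :
    #((univ : Finset (Fin (m + 1) → Finset (Fin (m + 1)))).filter (fun A => Dep A x)) =
      Ntot m := by
  cases x with
  | inl i => exact card_DepRow m i
  | inr j =>
    rw [← card_DepRow m j]
    apply card_bij (fun A _ => tr A)
    · intro A hA
      exact mem_filter.2 ⟨mem_univ _, (mem_filter.1 hA).2⟩
    · intro A _ B _ h
      rw [← tr_tr A, ← tr_tr B, h]
    · intro A hA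
      refine ⟨tr A, ?_, tr_tr A⟩
      refine mem_filter.2 ⟨mem_univ _, ?_⟩
      have := (mem_filter.1 hA).2
      simp only [Dep]
      rw [tr_tr]
      exact this

/-- double counting. -/
theorem double_count (m : ℕ) :
    #(Bad (m + 1)) ≤ 2 * (m + 1) * Ntot m + #(NonDep (m + 1)) ∧
    2 * (m + 1) * Ntot m ≤ #(Bad (m + 1)) + 2 * (m + 1) * #(TwoDep (m + 1)) := by
  classical
  -- number of dependencies
  set f : (Fin (m + 1) → Finset (Fin (m + 1))) → ℕ :=
    fun A => #((univ : Finset (Fin (m + 1) ⊕ Fin (m + 1))).filter (fun x => Dep A x)) with hf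
  have hsum : ∑ A : Fin (m + 1) → Finset (Fin (m + 1)), f A = 2 * (m + 1) * Ntot m := by
    have h1 := sum_card_bipartiteAbove_eq_sum_card_bipartiteBelow
      (s := (univ : Finset (Fin (m + 1) → Finset (Fin (m + 1)))))
      (t := (univ : Finset (Fin (m + 1) ⊕ Fin (m + 1)))) (fun A x => Dep A x)
    simp only [bipartiteAbove, bipartiteBelow] at h1
    rw [hf]
    simp only
    rw [h1]
    rw [sum_congr rfl (fun x _ => card_Dep m x), sum_const, smul_eq_mul, card_univ,
      Fintype.card_sum, Fintype.card_fin]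
    ring
  have hfle : ∀ A, f A ≤ 2 * (m + 1) := by
    intro A
    calc f A ≤ #(univ : Finset (Fin (m + 1) ⊕ Fin (m + 1))) := card_le_card (filter_subset _ _)
      _ = 2 * (m + 1) := by rw [card_univ, Fintype.card_sum, Fintype.card_fin]; ring
  constructor
  · have h1 : Bad (m + 1) ⊆ NonDep (m + 1) ∪ univ.filter (fun A => 1 ≤ f A) := by
      intro A hA
      by_cases h : A ∈ NonDep (m + 1)
      · exact mem_union_left _ h
      · apply mem_union_right
        rw [mem_filter]
        refine ⟨mem_univ _, ?_⟩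
        rw [mem_NonDep] at h
        push Not at h
        rw [hf, Nat.one_le_iff_ne_zero, ← Nat.pos_iff_ne_zero, card_pos]
        by_cases h2 : ∀ i, ¬ DepRow A i
        · obtain ⟨j, hj⟩ := h hA h2
          exact ⟨Sum.inr j, mem_filter.2 ⟨mem_univ _, hj⟩⟩
        · push Not at h2
          obtain ⟨i, hi⟩ := h2
          exact ⟨Sum.inl i, mem_filter.2 ⟨mem_univ _, hi⟩⟩
    have h2 : #((univ : Finset (Fin (m + 1) → Finset (Fin (m + 1)))).filter (fun A => 1 ≤ f A)) ≤
        2 * (m + 1) * Ntot m := by
      rw [← hsum, card_filter]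
      apply sum_le_sum
      intro A _
      split_ifs with h
      · exact h
      · exact Nat.zero_le _
    calc _ ≤ _ := card_le_card h1
      _ ≤ _ := card_union_le _ _
      _ ≤ _ := by omega
  · rw [← hsum]
    have h1 : ∀ A, f A ≤ (if A ∈ Bad (m + 1) then 1 else 0) +
        2 * (m + 1) * (if A ∈ TwoDep (m + 1) then 1 else 0) := by
      intro A
      by_cases h2 : A ∈ TwoDep (m + 1)
      · rw [if_pos h2]
        have := hfle A
        omega
      · rw [if_neg h2]
        have h3 : f A ≤ 1 := by
          rw [hf, card_le_one]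
          intro x hx y hy
          by_contra hne
          apply h2
          unfold TwoDep
          exact mem_filter.2 ⟨mem_univ _, x, y, hne, (mem_filter.1 hx).2, (mem_filter.1 hy).2⟩
        by_cases h4 : f A = 0
        · omega
        · have h5 : 0 < f A := Nat.pos_of_ne_zero h4
          rw [hf, card_pos] at h5
          obtain ⟨x, hx⟩ := h5
          have hx2 := (mem_filter.1 hx).2
          have hbad : A ∈ Bad (m + 1) := by
            cases x with
            | inl i => exact dep_mem_Bad m A i hx2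
            | inr j => exact tr_mem_Bad A (dep_mem_Bad m (tr A) j hx2)
          rw [if_pos hbad]
          omega
    calc ∑ A : Fin (m + 1) → Finset (Fin (m + 1)), f A ≤ ∑ A : Fin (m + 1) → Finset (Fin (m + 1)),
          ((if A ∈ Bad (m + 1) then 1 else 0) +
          2 * (m + 1) * (if A ∈ TwoDep (m + 1) then 1 else 0)) := sum_le_sum (fun A _ => h1 A)
      _ = _ := by
          rw [sum_add_distrib, ← mul_sum]
          congr 1
          · rw [sum_boole]; simp
          · congr 1
            rw [sum_boole]; simp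

end Pool.Agent.H38.Schein
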