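import Mathlib
import Pool.Agent.H38.ScheinM

/-!
Helper file for MP_72bf7f_co: few matrices have two dependencies.
-/

open Finset

set_option linter.unusedSectionVars false

namespace Pool.Agent.H38.Schein

lemma irr_final (n L k₀ : ℕ) (hL : n + 1 ≤ 2 ^ L) (hn : 1 ≤ n) (hk₀ : k₀ = 2 * L + Nat.sqrt n) :
    #(BadIrr (α := Fin n) (β := Fin n) (k₀ + 1)) ≤ 2 ^ (n * (n - 1)) := by
  have hcf : Fintype.card (Fin n) = n := Fintype.card_fin n
  have h1 := card_BadIrr (α := Fin n) (β := Fin n) n (k₀ + 1) L hcf hcf hL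
  generalize #(BadIrr (α := Fin n) (β := Fin n) (k₀ + 1)) = T at *
  have h2 : n * n + 2 * L * (k₀ + 1) ≤ n * (n - 1) + (k₀ + 1) * (k₀ + 1) := by
    have h3 : n < (Nat.sqrt n + 1) * (Nat.sqrt n + 1) := Nat.lt_succ_sqrt n
    have h4 : n * n = n * (n - 1) + n := by
      obtain ⟨a, ha⟩ := Nat.exists_eq_add_of_le hn
      have : n - 1 = a := by omega
      rw [this, ha]; ring
    rw [h4]
    have h5 : (k₀ + 1) * (k₀ + 1) = 2 * L * (k₀ + 1) + (Nat.sqrt n + 1) * (k₀ + 1) := by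
      rw [hk₀]; ring
    have h6 : (Nat.sqrt n + 1) * (Nat.sqrt n + 1) ≤ (Nat.sqrt n + 1) * (k₀ + 1) :=
      Nat.mul_le_mul_left _ (by omega)
    omega
  have h7 : T * 2 ^ ((k₀ + 1) * (k₀ + 1)) ≤ 2 ^ (n * (n - 1)) * 2 ^ ((k₀ + 1) * (k₀ + 1)) := by
    calc _ ≤ 2 ^ (n * n + 2 * L * (k₀ + 1)) := h1
      _ ≤ 2 ^ (n * (n - 1) + (k₀ + 1) * (k₀ + 1)) := Nat.pow_le_pow_right (by norm_num) h2
      _ = _ := by rw [pow_add]
  exact Nat.le_of_mul_le_mul_right h7 (by positivity)

/-- small sets -/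
def Sm (n k : ℕ) : Finset (Finset (Fin n)) := univ.filter (fun K => #K ≤ k)

lemma mem_Sm {n k : ℕ} {K : Finset (Fin n)} : K ∈ Sm n k ↔ #K ≤ k := by simp [Sm]

lemma card_Sm (n k L : ℕ) (hL : n + 1 ≤ 2 ^ L) : #(Sm n k) ≤ 2 ^ (L * k) := by
  rw [pow_mul]
  refine (card_small (α := Fin n) k).trans ?_
  rw [Fintype.card_fin]
  exact Nat.pow_le_pow_left hL _

open Classical in
/-- two dependent rows with small supports, or two equal rows -/
noncomputable def RRset (n k : ℕ) : Finset (Fin n → Finset (Fin n)) :=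
  ((univ : Finset (Fin n × Fin n)).filter (fun p => p.1 ≠ p.2)).biUnion (fun p =>
    (univ.filter (fun A : Fin n → Finset (Fin n) => A p.1 = A p.2)) ∪
    (((Sm n k) ×ˢ (Sm n k)).filter
      (fun q => p.1 ∉ q.1 ∧ p.2 ∉ q.1 ∧ p.1 ∉ q.2 ∧ p.2 ∉ q.2)).biUnion (fun q =>
        univ.filter (fun A : Fin n → Finset (Fin n) => A p.1 = q.1.biUnion A ∧
          A p.2 = q.2.biUnion A)))

open Classical in
/-- a dependent row and a dependent column with small supports -/
noncomputable def RCset (n k : ℕ) : Finset (Fin n → Finset (Fin n)) :=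
  (univ : Finset (Fin n × Fin n)).biUnion (fun p =>
    (((Sm n k) ×ˢ (Sm n k)).filter
      (fun q => p.1 ∉ q.1 ∧ p.2 ∉ q.2)).biUnion (fun q =>
        univ.filter (fun A : Fin n → Finset (Fin n) => A p.1 = q.1.biUnion A ∧
          tr A p.2 = q.2.biUnion (tr A))))

lemma card_RRset (n k L : ℕ) (hL : n + 1 ≤ 2 ^ L) (hn : 2 ≤ n) (hk : 2 * L * k ≤ n) :
    #(RRset n k) ≤ n ^ 2 * (2 * 2 ^ (n * (n - 1))) := by
  classical
  have hcf : Fintype.card (Fin n) = n := Fintype.card_fin n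
  unfold RRset
  refine card_biUnion_le.trans ?_
  refine (sum_le_sum (g := fun _ => 2 * 2 ^ (n * (n - 1))) ?_).trans ?_
  · rintro ⟨i, i'⟩ hp
    have hne : i ≠ i' := (mem_filter.1 hp).2
    simp only
    refine (card_union_le _ _).trans ?_
    have h1 := card_eq_rows (β := Fin n) i i' hne
    rw [hcf] at h1
    have h2 : #((((Sm n k) ×ˢ (Sm n k)).filter
      (fun q => i ∉ q.1 ∧ i' ∉ q.1 ∧ i ∉ q.2 ∧ i' ∉ q.2)).biUnion (fun q =>
        univ.filter (fun A : Fin n → Finset (Fin n) => A i = q.1.biUnion A ∧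
          A i' = q.2.biUnion A))) ≤ 2 ^ (n * (n - 1)) := by
      refine card_biUnion_le.trans ?_
      refine (sum_le_sum (g := fun _ => 2 ^ (n * (n - 2))) ?_).trans ?_
      · rintro ⟨K, K'⟩ hq
        obtain ⟨_, a, b, c, d⟩ := mem_filter.1 hq
        have := card_RR (β := Fin n) i i' hne K K' a b c d
        rw [hcf] at this
        exact this
      · rw [sum_const, smul_eq_mul]
        calc _ ≤ #((Sm n k) ×ˢ (Sm n k)) * 2 ^ (n * (n - 2)) :=
              Nat.mul_le_mul_right _ (card_le_card (filter_subset _ _))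
          _ ≤ (2 ^ (L * k) * 2 ^ (L * k)) * 2 ^ (n * (n - 2)) := by
              rw [card_product]
              exact Nat.mul_le_mul_right _ (Nat.mul_le_mul (card_Sm n k L hL) (card_Sm n k L hL))
          _ = 2 ^ (L * k + L * k + n * (n - 2)) := by rw [← pow_add, ← pow_add]
          _ ≤ _ := by
              apply Nat.pow_le_pow_right (by norm_num)
              obtain ⟨a, rfl⟩ : ∃ a, n = a + 2 := ⟨n - 2, by omega⟩
              have e1 : a + 2 - 2 = a := by omega
              have e2 : a + 2 - 1 = a + 1 := by omega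
              rw [e1, e2]
              have e3 : (a + 2) * (a + 1) = (a + 2) * a + (a + 2) := by ring
              have e4 : 2 * L * k = L * k + L * k := by ring
              omega
    calc _ ≤ 2 ^ (n * (n - 1)) + 2 ^ (n * (n - 1)) := Nat.add_le_add h1 h2
      _ = _ := by ring
  · rw [sum_const, smul_eq_mul]
    apply Nat.mul_le_mul_right
    refine (card_le_card (filter_subset _ _)).trans ?_
    rw [card_univ, Fintype.card_prod, hcf]
    exact le_of_eq (by ring)

lemma card_RCset (n k L : ℕ) (hL : n + 1 ≤ 2 ^ L) (hn : 2 ≤ n) (hk : 2 * L * k + 2 ≤ n) :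
    #(RCset n k) ≤ n ^ 2 * 2 ^ (n * (n - 1)) := by
  classical
  have hcf : Fintype.card (Fin n) = n := Fintype.card_fin n
  unfold RCset
  refine card_biUnion_le.trans ?_
  refine (sum_le_sum (g := fun _ => 2 ^ (n * (n - 1))) ?_).trans ?_
  · rintro ⟨i, j⟩ _
    simp only
    refine card_biUnion_le.trans ?_
    refine (sum_le_sum (g := fun _ => 2 ^ ((n - 1) * (n - 1) + 1)) ?_).trans ?_
    · rintro ⟨K, K'⟩ hq
      obtain ⟨_, a, b⟩ := mem_filter.1 hq
      have := card_RC i j K K' a b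
      rw [hcf] at this
      exact this
    · rw [sum_const, smul_eq_mul]
      calc _ ≤ #((Sm n k) ×ˢ (Sm n k)) * 2 ^ ((n - 1) * (n - 1) + 1) :=
            Nat.mul_le_mul_right _ (card_le_card (filter_subset _ _))
        _ ≤ (2 ^ (L * k) * 2 ^ (L * k)) * 2 ^ ((n - 1) * (n - 1) + 1) := by
            rw [card_product]
            exact Nat.mul_le_mul_right _ (Nat.mul_le_mul (card_Sm n k L hL) (card_Sm n k L hL))
        _ = 2 ^ (L * k + L * k + ((n - 1) * (n - 1) + 1)) := by rw [← pow_add, ← pow_add]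
        _ ≤ _ := by
            apply Nat.pow_le_pow_right (by norm_num)
            obtain ⟨a, rfl⟩ : ∃ a, n = a + 2 := ⟨n - 2, by omega⟩
            have e2 : a + 2 - 1 = a + 1 := by omega
            rw [e2]
            have e3 : (a + 2) * (a + 1) = (a + 1) * (a + 1) + (a + 1) := by ring
            have e4 : 2 * L * k = L * k + L * k := by ring
            omega
  · rw [sum_const, smul_eq_mul]
    apply Nat.mul_le_mul_right
    rw [card_univ, Fintype.card_prod, hcf]
    exact le_of_eq (by ring)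

lemma small_of_irr {n k : ℕ} {A : Fin n → Finset (Fin n)}
    (h : A ∉ BadIrr (α := Fin n) (β := Fin n) (k + 1)) {K : Finset (Fin n)} (hK : Irr A K) :
    #K ≤ k := by
  by_contra hcon
  push Not at hcon
  obtain ⟨K', hK', hc⟩ := exists_subset_card_eq (show k + 1 ≤ #K from hcon)
  exact h (mem_BadIrr.2 ⟨K', hc, hK.subset hK'⟩)

lemma rr_mem {n k : ℕ} {A : Fin n → Finset (Fin n)}
    (h : A ∉ BadIrr (α := Fin n) (β := Fin n) (k + 1)) {i i' : Fin n} (hne : i ≠ i')
    (h1 : DepRow A i) (h2 : DepRow A i') : A ∈ RRset n k := by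
  classical
  unfold RRset
  rw [mem_biUnion]
  refine ⟨(i, i'), mem_filter.2 ⟨mem_univ _, hne⟩, ?_⟩
  rcases dep_row_row A i i' hne h1 h2 with h3 | ⟨K, K', a, b, c, d, e, f, g, g'⟩
  · exact mem_union_left _ (mem_filter.2 ⟨mem_univ _, h3⟩)
  · apply mem_union_right
    rw [mem_biUnion]
    refine ⟨(K, K'), mem_filter.2 ⟨mem_product.2 ⟨mem_Sm.2 (small_of_irr h e),
      mem_Sm.2 (small_of_irr h f)⟩, a, b, c, d⟩, mem_filter.2 ⟨mem_univ _, g, g'⟩⟩

lemma rc_mem {n k : ℕ} {A : Fin n → Finset (Fin n)}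
    (h : A ∉ BadIrr (α := Fin n) (β := Fin n) (k + 1))
    (h' : tr A ∉ BadIrr (α := Fin n) (β := Fin n) (k + 1)) {i j : Fin n}
    (h1 : DepRow A i) (h2 : DepRow (tr A) j) : A ∈ RCset n k := by
  classical
  unfold RCset
  rw [mem_biUnion]
  refine ⟨(i, j), mem_univ _, ?_⟩
  obtain ⟨K, hK, hAK⟩ := h1
  obtain ⟨K', hK', hAK'⟩ := h2
  obtain ⟨M, hM, hI, hU⟩ := exists_irr A K
  obtain ⟨M', hM', hI', hU'⟩ := exists_irr (tr A) K'
  rw [mem_biUnion]
  refine ⟨(M, M'), mem_filter.2 ⟨mem_product.2 ⟨mem_Sm.2 (small_of_irr h hI),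
    mem_Sm.2 (small_of_irr h' hI')⟩, fun x => hK (hM x), fun x => hK' (hM' x)⟩,
    mem_filter.2 ⟨mem_univ _, ?_, ?_⟩⟩
  · rw [hAK, ← hU]
  · rw [hAK', ← hU']

lemma TwoDep_subset (n k : ℕ) : TwoDep n ⊆
    (BadIrr (α := Fin n) (β := Fin n) (k + 1) ∪
      (BadIrr (α := Fin n) (β := Fin n) (k + 1)).image tr) ∪
    ((RRset n k ∪ (RRset n k).image tr) ∪ RCset n k) := by
  classical
  intro A hA
  unfold TwoDep at hA
  obtain ⟨x, y, hxy, hx, hy⟩ := (mem_filter.1 hA).2
  by_cases h : A ∈ BadIrr (α := Fin n) (β := Fin n) (k + 1)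
  · exact mem_union_left _ (mem_union_left _ h)
  by_cases h' : tr A ∈ BadIrr (α := Fin n) (β := Fin n) (k + 1)
  · exact mem_union_left _ (mem_union_right _ (mem_image.2 ⟨tr A, h', tr_tr A⟩))
  apply mem_union_right
  cases x with
  | inl i =>
    cases y with
    | inl i' =>
      have hne : i ≠ i' := fun h => hxy (by rw [h])
      exact mem_union_left _ (mem_union_left _ (rr_mem h hne hx hy))
    | inr j => exact mem_union_right _ (rc_mem h h' hx hy)
  | inr j =>
    cases y with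
    | inl i => exact mem_union_right _ (rc_mem h h' hy hx)
    | inr j' =>
      have hne : j ≠ j' := fun h => hxy (by rw [h])
      exact mem_union_left _ (mem_union_right _ (mem_image.2 ⟨tr A, rr_mem h' hne hx hy, tr_tr A⟩))

theorem card_TwoDep (n L : ℕ) (hL : n + 1 ≤ 2 ^ L)
    (hH : 80 * (1 + L * (2 * L + Nat.sqrt n)) ≤ n) :
    #(TwoDep n) ≤ (2 + 5 * n ^ 2) * 2 ^ (n * (n - 1)) := by
  obtain ⟨k₀, hk₀⟩ : ∃ k₀, k₀ = 2 * L + Nat.sqrt n := ⟨_, rfl⟩
  rw [← hk₀] at hH
  have hn : 2 ≤ n := by omega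
  have hLk : 2 * L * k₀ + 2 ≤ n := by
    have : 2 * L * k₀ = 2 * (L * k₀) := by ring
    omega
  have h1 := irr_final n L k₀ hL (by omega) hk₀
  have h2 := card_RRset n k₀ L hL hn (by omega)
  have h3 := card_RCset n k₀ L hL hn hLk
  have h4 : #((BadIrr (α := Fin n) (β := Fin n) (k₀ + 1)).image tr) ≤ 2 ^ (n * (n - 1)) :=
    card_image_le.trans h1
  have h5 : #((RRset n k₀).image tr) ≤ n ^ 2 * (2 * 2 ^ (n * (n - 1))) := card_image_le.trans h2
  refine (card_le_card (TwoDep_subset n k₀)).trans ?_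
  refine (card_union_le _ _).trans ?_
  refine (Nat.add_le_add (card_union_le _ _) ((card_union_le _ _).trans
    (Nat.add_le_add_right (card_union_le _ _) _))).trans ?_
  calc _ ≤ (2 ^ (n * (n - 1)) + 2 ^ (n * (n - 1))) + ((n ^ 2 * (2 * 2 ^ (n * (n - 1))) +
        n ^ 2 * (2 * 2 ^ (n * (n - 1)))) + n ^ 2 * 2 ^ (n * (n - 1))) :=
        Nat.add_le_add (Nat.add_le_add h1 h4) (Nat.add_le_add (Nat.add_le_add h2 h5) h3)
    _ = _ := by ring

end Pool.Agent.H38.Schein
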