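import Mathlib
import Pool.Agent.H38.ScheinN

/-!
Helper file for MP_72bf7f_co: the explicit formula for the total size of the row spaces.
-/

open Finset

set_option linter.unusedSectionVars false

namespace Pool.Agent.H38.Schein

variable {α β : Type*} [Fintype α] [Fintype β] [DecidableEq α] [DecidableEq β]

/-- maximal zero rectangles. -/
def Closed (A : α → Finset β) (K : Finset α) (L : Finset β) : Prop :=
  (∀ i, i ∈ K ↔ Disjoint (A i) L) ∧ (∀ j, j ∈ L ↔ ∀ i ∈ K, j ∉ A i)

open Classical in
lemma card_rowSpace (A : α → Finset β) :
    #(rowSpace A) = #((univ : Finset (Finset α × Finset β)).filter (fun p => Closed A p.1 p.2)) := by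
  apply card_bij' (fun U _ => ((univ.filter (fun i => A i ⊆ U), Uᶜ) : Finset α × Finset β))
    (fun p _ => p.2ᶜ)
  · intro U hU
    rw [rowSpace, mem_image] at hU
    obtain ⟨K, _, rfl⟩ := hU
    refine mem_filter.2 ⟨mem_univ _, ?_, ?_⟩
    · intro i
      simp only [mem_filter, mem_univ, true_and]
      rw [← subset_compl_iff_disjoint_right, compl_compl]
    · intro j
      simp only [mem_compl, mem_filter, mem_univ, true_and]
      constructor
      · intro h i hi hj
        exact h (hi hj)
      · intro h hj
        rw [mem_biUnion] at hj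
        obtain ⟨i, hi, hj⟩ := hj
        exact h i (subset_biUnion_of_mem A hi) hj
  · rintro ⟨K, L⟩ hp
    obtain ⟨h1, h2⟩ := (mem_filter.1 hp).2
    simp only at h1 h2 ⊢
    rw [rowSpace, mem_image]
    refine ⟨K, mem_univ _, ?_⟩
    ext j
    rw [mem_compl, h2 j, mem_biUnion]
    push Not
    rfl
  · intro U hU
    simp
  · rintro ⟨K, L⟩ hp
    obtain ⟨h1, h2⟩ := (mem_filter.1 hp).2
    simp only at h1 h2 ⊢
    rw [Prod.mk.injEq]
    refine ⟨?_, compl_compl L⟩
    ext i
    simp only [mem_filter, mem_univ, true_and]
    rw [h1 i, ← subset_compl_iff_disjoint_right]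

lemma card_meet (L : Finset β) :
    #((univ : Finset (Finset β)).filter (fun S => ¬ Disjoint S L)) =
      (2 ^ #L - 1) * 2 ^ (Fintype.card β - #L) := by
  have h1 := card_filter_add_card_filter_not (s := (univ : Finset (Finset β)))
    (fun S => Disjoint S L)
  have h2 : (univ : Finset (Finset β)).filter (fun S => Disjoint S L) = (Lᶜ).powerset := by
    ext S
    rw [mem_filter, mem_powerset, subset_compl_iff_disjoint_right]
    simp
  rw [h2, card_powerset, card_compl, card_univ, Fintype.card_finset] at h1
  have h3 : #L ≤ Fintype.card β := card_le_univ L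
  have h4 : 2 ^ Fintype.card β = 2 ^ #L * 2 ^ (Fintype.card β - #L) := by
    rw [← pow_add]; congr 1; omega
  rw [Nat.sub_mul, one_mul, ← h4]
  omega

open Classical in
lemma card_Closed (K : Finset α) (L : Finset β) :
    #((univ : Finset (α → Finset β)).filter (fun A => Closed A K L)) =
      ((2 ^ #L - 1) * 2 ^ (Fintype.card β - #L)) ^ (Fintype.card α - #K) *
        (2 ^ #K - 1) ^ (Fintype.card β - #L) := by
  have h1 : #((univ : Finset (α → Finset β)).filter (fun A => Closed A K L)) =
      #((Fintype.piFinset (fun _ : (Kᶜ : Finset α) =>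
          (univ : Finset (Finset β)).filter (fun S => ¬ Disjoint S L))) ×ˢ
        (Fintype.piFinset (fun _ : (Lᶜ : Finset β) => K.powerset.erase ∅))) := by
    apply card_bij' (fun A _ => ((fun i : (Kᶜ : Finset α) => A i.1),
        (fun j : (Lᶜ : Finset β) => K.filter (fun i => j.1 ∈ A i))))
      (fun q _ => fun i => if hi : i ∈ K then
          univ.filter (fun j => ∃ hj : j ∈ (Lᶜ : Finset β), i ∈ q.2 ⟨j, hj⟩)
        else q.1 ⟨i, mem_compl.2 hi⟩)
    · intro A hA
      obtain ⟨h2, h3⟩ := (mem_filter.1 hA).2
      rw [mem_product, Fintype.mem_piFinset, Fintype.mem_piFinset]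
      refine ⟨?_, ?_⟩
      · rintro ⟨i, hi⟩
        rw [mem_filter]
        refine ⟨mem_univ _, ?_⟩
        rw [mem_compl] at hi
        simp only
        rwa [← h2 i]
      · rintro ⟨j, hj⟩
        rw [mem_erase, mem_powerset]
        refine ⟨?_, filter_subset _ _⟩
        rw [mem_compl, h3 j] at hj
        push Not at hj
        obtain ⟨i, hi, hji⟩ := hj
        apply nonempty_iff_ne_empty.1
        exact ⟨i, mem_filter.2 ⟨hi, hji⟩⟩
    · rintro ⟨f, g⟩ hfg
      rw [mem_product, Fintype.mem_piFinset, Fintype.mem_piFinset] at hfg
      obtain ⟨hf, hg⟩ := hfg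
      rw [mem_filter]
      refine ⟨mem_univ _, ?_, ?_⟩
      · intro i
        by_cases hi : i ∈ K
        · simp only [hi, dif_pos, true_iff]
          rw [disjoint_left]
          intro j hj hjL
          obtain ⟨_, hj', _⟩ := mem_filter.1 hj
          exact (mem_compl.1 hj') hjL
        · simp only [hi, dif_neg, not_false_eq_true, false_iff]
          exact (mem_filter.1 (hf ⟨i, mem_compl.2 hi⟩)).2
      · intro j
        constructor
        · intro hj i hi
          simp only [hi, dif_pos, mem_filter, mem_univ, true_and, not_exists]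
          intro hj' _
          exact (mem_compl.1 hj') hj
        · intro h
          by_contra hj
          have h5 := hg ⟨j, mem_compl.2 hj⟩
          rw [mem_erase, mem_powerset] at h5
          obtain ⟨i, hi⟩ := nonempty_iff_ne_empty.2 h5.1
          have hiK := h5.2 hi
          have h6 := h i hiK
          simp only [hiK, dif_pos, mem_filter, mem_univ, true_and, not_exists] at h6
          exact h6 (mem_compl.2 hj) hi
    · intro A hA
      obtain ⟨h2, h3⟩ := (mem_filter.1 hA).2
      funext i
      by_cases hi : i ∈ K
      · simp only [hi, dif_pos]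
        ext j
        simp only [mem_filter, mem_univ, true_and]
        constructor
        · rintro ⟨_, hj⟩
          exact hj.2
        · intro hj
          refine ⟨?_, hi, hj⟩
          rw [mem_compl]
          intro hjL
          exact (disjoint_left.1 ((h2 i).1 hi) hj) hjL
      · simp only [hi, dif_neg, not_false_eq_true]
    · rintro ⟨f, g⟩ hfg
      rw [mem_product, Fintype.mem_piFinset, Fintype.mem_piFinset] at hfg
      obtain ⟨hf, hg⟩ := hfg
      rw [Prod.mk.injEq]
      constructor
      · funext i
        have hi : i.1 ∉ K := mem_compl.1 i.2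
        simp only [hi, dif_neg, not_false_eq_true]
      · funext j
        ext i
        have h5 := hg j
        rw [mem_erase, mem_powerset] at h5
        simp only [mem_filter]
        constructor
        · rintro ⟨hi, hj⟩
          simp only [hi, dif_pos, mem_filter, mem_univ, true_and] at hj
          obtain ⟨_, hj⟩ := hj
          exact hj
        · intro hi
          have hiK := h5.2 hi
          refine ⟨hiK, ?_⟩
          simp only [hiK, dif_pos, mem_filter, mem_univ, true_and]
          exact ⟨j.2, hi⟩
  rw [h1, card_product, Fintype.card_piFinset, Fintype.card_piFinset, prod_const, prod_const,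
    card_meet, card_erase_of_mem (empty_mem_powerset K), card_powerset, card_univ, card_univ,
    Fintype.card_coe, Fintype.card_coe, card_compl, card_compl]

lemma sum_rowSpace : ∑ A : α → Finset β, #(rowSpace A) =
    ∑ k ∈ range (Fintype.card α + 1), ∑ l ∈ range (Fintype.card β + 1),
      (Fintype.card α).choose k * ((Fintype.card β).choose l *
      (((2 ^ l - 1) * 2 ^ (Fintype.card β - l)) ^ (Fintype.card α - k) *
        (2 ^ k - 1) ^ (Fintype.card β - l))) := by
  classical
  have h1 : ∑ A : α → Finset β, #(rowSpace A) = ∑ p : Finset α × Finset β,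
      #((univ : Finset (α → Finset β)).filter (fun A => Closed A p.1 p.2)) := by
    rw [sum_congr rfl (fun A _ => card_rowSpace A)]
    have h2 := sum_card_bipartiteAbove_eq_sum_card_bipartiteBelow
      (s := (univ : Finset (α → Finset β)))
      (t := (univ : Finset (Finset α × Finset β))) (fun A p => Closed A p.1 p.2)
    simp only [bipartiteAbove, bipartiteBelow] at h2
    exact h2
  rw [h1, Fintype.sum_prod_type]
  simp only
  have h3 : ∀ K : Finset α, ∑ L : Finset β,
      #((univ : Finset (α → Finset β)).filter (fun A => Closed A K L)) =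
      ∑ l ∈ range (Fintype.card β + 1), ((Fintype.card β).choose l *
      (((2 ^ l - 1) * 2 ^ (Fintype.card β - l)) ^ (Fintype.card α - #K) *
        (2 ^ #K - 1) ^ (Fintype.card β - l))) := by
    intro K
    rw [sum_congr rfl (fun L _ => card_Closed K L)]
    have := sum_powerset_apply_card (fun l => ((2 ^ l - 1) * 2 ^ (Fintype.card β - l)) ^
      (Fintype.card α - #K) * (2 ^ #K - 1) ^ (Fintype.card β - l)) (x := (univ : Finset β))
    rw [powerset_univ, card_univ] at this
    rw [this]
    simp only [smul_eq_mul]
  rw [sum_congr rfl (fun K _ => h3 K)]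
  have := sum_powerset_apply_card (fun k => ∑ l ∈ range (Fintype.card β + 1),
    ((Fintype.card β).choose l *
      (((2 ^ l - 1) * 2 ^ (Fintype.card β - l)) ^ (Fintype.card α - k) *
        (2 ^ k - 1) ^ (Fintype.card β - l)))) (x := (univ : Finset α))
  rw [powerset_univ, card_univ] at this
  rw [this]
  simp only [smul_eq_mul, mul_sum]

end Pool.Agent.H38.Schein
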