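import Mathlib
import Pool.Agent.H38.ScheinO

/-!
Helper file for MP_72bf7f_co: bounds for the total size of the row spaces.
-/

open Finset

set_option linter.unusedSectionVars false

namespace Pool.Agent.H38.Schein

lemma card_Good_le_Ntot (m k : ℕ) : #(Good m k) ≤ Ntot m := by
  classical
  have h1 : Ntot m = #((univ : Finset (Fin m → Finset (Fin (m + 1)))).sigma
      (fun A' => rowSpace A')) := by rw [card_sigma, Ntot]
  rw [h1]
  apply card_le_card_of_injOn (fun p => (⟨p.1, p.2.biUnion p.1⟩ :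
    Σ _ : Fin m → Finset (Fin (m + 1)), Finset (Fin (m + 1))))
  · rintro ⟨A', K⟩ _
    rw [mem_coe, mem_sigma]
    exact ⟨mem_univ _, mem_image.2 ⟨K, mem_univ _, rfl⟩⟩
  · rintro ⟨A₁, K₁⟩ h₁ ⟨A₂, K₂⟩ h₂ h
    obtain ⟨hk₁, hg₁⟩ := (mem_filter.1 h₁).2
    obtain ⟨hk₂, hg₂⟩ := (mem_filter.1 h₂).2
    simp only [Sigma.mk.injEq, heq_eq_eq] at h hk₁ hk₂ hg₁ hg₂
    obtain ⟨hA, hU⟩ := h
    subst hA
    have hsub : K₂ ⊆ K₁ := by
      intro i hi
      by_contra hcon
      apply hg₁ i hcon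
      rw [hU]
      exact subset_biUnion_of_mem A₁ hi
    have hKK : K₂ = K₁ := eq_of_subset_of_card_le hsub (by rw [hk₁, hk₂])
    rw [hKK]

theorem Ntot_lower (m k : ℕ) (hk : k + 1 ≤ m)
    (h : (m : ℝ) * Real.exp (-((m + 1 : ℕ) : ℝ) / 2 ^ (k + 1)) ≤ 1 / 2) :
    (m.choose k : ℝ) * 2 ^ ((m + 1) * m) / 2 ≤ Ntot m :=
  (le_card_Good m k hk h).trans (by exact_mod_cast card_Good_le_Ntot m k)

open Classical in
lemma Ntot_le_sum (m : ℕ) : Ntot m ≤ ∑ K : Finset (Fin m),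
    #((univ : Finset (Fin m → Finset (Fin (m + 1)))).filter (fun A => Irr A K)) := by
  have h1 : ∀ A : Fin m → Finset (Fin (m + 1)), #(rowSpace A) ≤
      #((univ : Finset (Finset (Fin m))).filter (fun K => Irr A K)) := by
    intro A
    have h2 : rowSpace A ⊆ ((univ : Finset (Finset (Fin m))).filter (fun K => Irr A K)).image
        (fun K => K.biUnion A) := by
      intro U hU
      obtain ⟨K, _, rfl⟩ := mem_image.1 hU
      obtain ⟨K₀, _, h3, h4⟩ := exists_irr A K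
      exact mem_image.2 ⟨K₀, mem_filter.2 ⟨mem_univ _, h3⟩, h4⟩
    exact (card_le_card h2).trans card_image_le
  have h2 := sum_card_bipartiteAbove_eq_sum_card_bipartiteBelow
      (s := (univ : Finset (Fin m → Finset (Fin (m + 1)))))
      (t := (univ : Finset (Finset (Fin m)))) (fun A K => Irr A K)
  simp only [bipartiteAbove, bipartiteBelow] at h2
  rw [Ntot, ← h2]
  exact sum_le_sum (fun A _ => h1 A)

/-- upper bound for the total size of the row spaces -/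
theorem Ntot_upper (m : ℕ) : (Ntot m : ℝ) ≤ (m + 1) * (2:ℝ) ^ ((m + 1) * m) *
    (2:ℝ) ^ ((Real.logb 2 ((m + 1 : ℕ) : ℝ)) ^ 2) := by
  classical
  obtain ⟨N, hN⟩ : ∃ N : ℝ, N = ((m + 1 : ℕ) : ℝ) := ⟨_, rfl⟩
  have hN0 : 0 < N := by rw [hN]; positivity
  obtain ⟨l, hl⟩ : ∃ l, l = Real.logb 2 N := ⟨_, rfl⟩
  have hNl : N = (2:ℝ) ^ l := by rw [hl, Real.rpow_logb (by norm_num) (by norm_num) hN0]
  rw [← hN, ← hl]
  have h1 : (Ntot m : ℝ) ≤ ∑ K : Finset (Fin m),
    (#((univ : Finset (Fin m → Finset (Fin (m + 1)))).filter (fun A => Irr A K)) : ℝ) := by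
    exact_mod_cast Ntot_le_sum m
  have h2 : ∀ K : Finset (Fin m),
      (#((univ : Finset (Fin m → Finset (Fin (m + 1)))).filter (fun A => Irr A K)) : ℝ) ≤
      (2:ℝ) ^ ((m + 1) * m) * (N ^ #K / 2 ^ (#K * #K)) := by
    intro K
    have h3 := card_Irr (α := Fin m) (β := Fin (m + 1)) K
    rw [Fintype.card_fin, Fintype.card_fin] at h3
    rw [← mul_div_assoc, le_div_iff₀ (by positivity), hN, mul_comm (m + 1) m]
    calc _ ≤ (((m + 1) ^ #K * 2 ^ (m * (m + 1)) : ℕ) : ℝ) := by exact_mod_cast h3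
      _ = _ := by push_cast; ring
  calc (Ntot m : ℝ) ≤ ∑ K : Finset (Fin m), (2:ℝ) ^ ((m + 1) * m) * (N ^ #K / 2 ^ (#K * #K)) :=
        h1.trans (sum_le_sum (fun K _ => h2 K))
    _ = (2:ℝ) ^ ((m + 1) * m) * ∑ k ∈ range (m + 1), (m.choose k : ℝ) * (N ^ k / 2 ^ (k * k)) := by
        rw [← mul_sum]
        congr 1
        have := sum_powerset_apply_card (fun k => N ^ k / (2:ℝ) ^ (k * k))
          (x := (univ : Finset (Fin m)))
        rw [powerset_univ, card_univ, Fintype.card_fin] at this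
        rw [this]
        simp only [nsmul_eq_mul]
    _ ≤ (2:ℝ) ^ ((m + 1) * m) * ∑ _k ∈ range (m + 1), (2:ℝ) ^ (l ^ 2) := by
        gcongr with k hk
        have h4 : (m.choose k : ℝ) ≤ N ^ k := by
          rw [hN]
          exact_mod_cast (Nat.choose_le_pow m k).trans (Nat.pow_le_pow_left (by omega) k)
        calc (m.choose k : ℝ) * (N ^ k / 2 ^ (k * k)) ≤ N ^ k * (N ^ k / 2 ^ (k * k)) := by gcongr
          _ = (2:ℝ) ^ (2 * l * k - (k:ℝ) * k) := by
              rw [Real.rpow_sub (by norm_num), Real.rpow_mul (by norm_num),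
                Real.rpow_mul (by norm_num), ← Real.rpow_natCast (2:ℝ) (k * k), hNl,
                ← mul_div_assoc, ← Real.rpow_natCast, ← Real.rpow_mul (by norm_num),
                ← Real.rpow_add (by norm_num), ← Real.rpow_mul (by norm_num),
                ← Real.rpow_mul (by norm_num)]
              congr 2
              · ring
              · push_cast
                ring
          _ ≤ (2:ℝ) ^ (l ^ 2) := by
              apply Real.rpow_le_rpow_of_exponent_le (by norm_num)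
              nlinarith [sq_nonneg (l - k)]
    _ = _ := by
        rw [sum_const, card_range, nsmul_eq_mul]
        push_cast
        ring

/-- the final conditions hold for large `n`. -/
lemma pow_size_bound2 (L : ℕ) (hL : 90 ≤ L) : 2 ^ 70 * (L + 1) ^ 2 ≤ 2 ^ (L - 1) := by
  induction L, hL using Nat.le_induction with
  | base => norm_num
  | succ L hL ih =>
    have h1 : L + 1 - 1 = (L - 1) + 1 := by omega
    rw [h1, pow_succ 2 (L - 1)]
    have h2 : (L + 1 + 1) ^ 2 ≤ 2 * (L + 1) ^ 2 := by nlinarith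
    calc 2 ^ 70 * (L + 1 + 1) ^ 2 ≤ 2 ^ 70 * (2 * (L + 1) ^ 2) := Nat.mul_le_mul_left _ h2
      _ = (2 ^ 70 * (L + 1) ^ 2) * 2 := by ring
      _ ≤ _ := Nat.mul_le_mul_right _ ih

lemma conditions (n : ℕ) (hn : 2 ^ 89 ≤ n) : ∃ L, n + 1 ≤ 2 ^ L ∧ 5 ≤ L ∧
    80 * (1 + L * (2 * L + Nat.sqrt n)) ≤ n ∧
    18 * L + 2 * (40 * (40 + 5) * L) ^ 2 ≤ n / 80 ∧
    L + (40 + 2) * (L + (40 * (40 + 5) * L) ^ 2) ≤ n / 2 ^ (40 + 2) := by
  have h1 : n < 2 ^ Nat.size n := Nat.lt_size_self n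
  have h90 : 90 ≤ Nat.size n := Nat.lt_size.2 hn
  have h2 : 2 ^ (Nat.size n - 1) ≤ n := Nat.lt_size.1 (by omega)
  have h3 := pow_size_bound2 (Nat.size n) h90
  obtain ⟨L, hL⟩ : ∃ L, L = Nat.size n := ⟨_, rfl⟩
  rw [← hL] at h1 h90 h2 h3
  have h4 : 2 ^ 70 * (L + 1) ^ 2 ≤ n := h3.trans h2
  refine ⟨L, by omega, by omega, ?_, ?_, ?_⟩
  · have h5 : 160 * L ≤ Nat.sqrt n := by
      rw [Nat.le_sqrt]
      nlinarith
    have h6 : Nat.sqrt n * Nat.sqrt n ≤ n := Nat.sqrt_le n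
    have h7 : 160 * L * Nat.sqrt n ≤ n := (Nat.mul_le_mul_right _ h5).trans h6
    nlinarith
  · rw [Nat.le_div_iff_mul_le (by norm_num)]
    nlinarith
  · rw [Nat.le_div_iff_mul_le (by positivity)]
    have h8 : L + (40 + 2) * (L + (40 * (40 + 5) * L) ^ 2) ≤ 2 ^ 28 * (L + 1) ^ 2 := by
      nlinarith
    calc _ ≤ 2 ^ 28 * (L + 1) ^ 2 * 2 ^ (40 + 2) := Nat.mul_le_mul_right _ h8
      _ = 2 ^ 70 * (L + 1) ^ 2 := by ring
      _ ≤ n := h4

end Pool.Agent.H38.Schein
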